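import Pool.Agent.L0h2.K.HAL
import Pool.Agent.R413.SQ.BAD
import Pool.Agent.Y405.CQ.MER

/-! # Joint law for several twists: few sets have degenerate labels (after the file for project SQ) -/

set_option autoImplicit false
set_option linter.unusedVariables false

open scoped Classical

namespace Pool.Agent.L0h2.K.BAD

open Finset hiding mk
open Pool.Agent.Y699.E (sum_le_inj)
open Pool.Agent.Y703.CX (sm la jj XX eL zz kk S_SIE)
open Pool.Agent.R413.SQ (mk SS)
open Pool.Agent.R413.SQ.BAD (prod_pos_of prod_sub_le sub_range)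
open Pool.Agent.R413.SQ.HAL (c0 cJ c0_mod cJ_mod leg)
open Pool.Agent.L0h2.K.HAL (cc cc_val cc_mod md UU mem_UU cop_of)
open Pool.Agent.Y703.CQ (nr)
open Pool.Agent.Y37.CX (ev_pow Pm Pm_nonneg Pm_mono Pm_le)

/-- the residues of the common class -/
noncomputable def AZ (R : Finset ℕ) : Finset ℕ :=
  (range (qq R)).filter fun a => Nat.Coprime a (qq R) ∧ a % 4 = 1 ∧ Zc R a

section az

variable {R : Finset ℕ} (hR : ∀ r ∈ R, r.Prime ∧ r % 4 = 1)

include hR in
/-- the characters do not vanish on the numbers coprime to the modulus -/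
theorem cc_ne {a i : ℕ} (ha : Nat.Coprime a (qq R)) (hi : i ∈ UU R) : cc 1 i a = 1 ∨ cc 1 i a = -1 := by
  have hJ : ∀ r : ℕ, r.Prime → r ∣ qq R → cJ r a = 1 ∨ cJ r a = -1 := by
    intro r hr hd
    have hc : Int.gcd (a : ℤ) r = 1 := by
      rw [Int.gcd_natCast_natCast]
      exact Nat.Coprime.coprime_dvd_right hd ha
    have := jacobiSym.eq_one_or_neg_one hc
    rcases this with h | h
    · left; show ((jacobiSym (a : ℤ) r : ℤ) : ℝ) = 1; rw [h]; simp
    · right; show ((jacobiSym (a : ℤ) r : ℤ) : ℝ) = -1; rw [h]; simp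
  rcases mem_UU.1 hi with h | h | h
  · rw [h]
    have h2 : a % 2 = 1 := by
      have h1 : Nat.Coprime a 2 := Nat.Coprime.coprime_dvd_right
        ((by norm_num : 2 ∣ 28).mul_right _) ha
      exact Nat.odd_iff.1 (Nat.coprime_two_right.1 h1)
    have h4 : a % 4 = 1 ∨ a % 4 = 3 := by omega
    rcases h4 with h4 | h4
    · left
      rw [cc_mod 1 4 a 1 (by unfold md; rw [if_neg (by norm_num)]; exact h4), map_one]
    · right
      rw [cc_mod 1 4 a 3 (by unfold md; rw [if_neg (by norm_num)]; exact h4)]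
      unfold cc
      rw [if_neg (by norm_num), if_pos rfl]
      show ((ZMod.χ₄ ((3 : ℕ) : ZMod 4) : ℤ) : ℝ) = -1
      have : ZMod.χ₄ ((3 : ℕ) : ZMod 4) = -1 := by decide
      rw [this]; simp
  · rw [h]
    unfold cc
    rw [if_neg (by norm_num), if_neg (by norm_num)]
    exact hJ 7 (by norm_num) ((by norm_num : 7 ∣ 28).mul_right _)
  · have h4 := (hR i h).2
    unfold cc
    rw [if_neg (hR i h).1.ne_zero, if_neg (by rintro rfl; omega)]
    exact hJ i (hR i h).1 (dvd_qq h)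

include hR in
theorem Zc_of {a : ℕ} (ha : Nat.Coprime a (qq R)) (h : ∀ i ∈ UU R, cc 1 i a = 1) :
    a % 4 = 1 ∧ Zc R a := by
  have h2 : a % 2 = 1 := by
    have h1 : Nat.Coprime a 2 := Nat.Coprime.coprime_dvd_right
      ((by norm_num : 2 ∣ 28).mul_right _) ha
    exact Nat.odd_iff.1 (Nat.coprime_two_right.1 h1)
  refine ⟨?_, ?_, fun r hr => ?_⟩
  · by_contra hc
    have h4 : a % 4 = 3 := by omega
    have h5 := h 4 (mem_UU.2 (Or.inl rfl))
    rw [cc_mod 1 4 a 3 (by unfold md; rw [if_neg (by norm_num)]; exact h4)] at h5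
    unfold cc at h5
    rw [if_neg (by norm_num), if_pos rfl] at h5
    have h6 : ((ZMod.χ₄ ((3 : ℕ) : ZMod 4) : ℤ) : ℝ) = 1 := h5
    have : ZMod.χ₄ ((3 : ℕ) : ZMod 4) = -1 := by decide
    rw [this] at h6
    norm_num at h6
  · have h5 := h 7 (mem_UU.2 (Or.inr (Or.inl rfl)))
    have key : ∀ b : ℕ, b < 7 → jacobiSym (b : ℤ) 7 = 1 → b = 1 ∨ b = 2 ∨ b = 4 := by
      intro b hb
      interval_cases b
      · norm_num
      · simp
      · simp
      · norm_num
      · simp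
      · norm_num
      · norm_num
    have h6 : ((jacobiSym ((a % 7 : ℕ) : ℤ) 7 : ℤ) : ℝ) = 1 := by
      rw [cc_mod 1 7 a (a % 7) (by
        unfold md
        rw [if_neg (by norm_num)]
        exact (Nat.mod_modEq a 7).symm)] at h5
      unfold cc at h5
      rw [if_neg (by norm_num), if_neg (by norm_num)] at h5
      exact h5
    have h7 : jacobiSym ((a % 7 : ℕ) : ℤ) 7 = 1 := by exact_mod_cast h6
    unfold Pool.Agent.R413.SQ.mk
    rw [if_pos (key _ (Nat.mod_lt _ (by norm_num)) h7)]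
  · have h5 := h r (mem_UU.2 (Or.inr (Or.inr hr)))
    have h4 := (hR r hr).2
    unfold cc at h5
    rw [if_neg (hR r hr).1.ne_zero, if_neg (by rintro rfl; omega)] at h5
    have h6 : ((jacobiSym (a : ℤ) r : ℤ) : ℝ) = 1 := h5
    have h7 : jacobiSym (a : ℤ) r = 1 := by exact_mod_cast h6
    have hrf : Fact r.Prime := ⟨(hR r hr).1⟩
    rw [leg] at h7
    have hne0 : ((a : ℤ) : ZMod r) ≠ 0 := by
      intro h0
      rw [Int.cast_natCast, ZMod.natCast_eq_zero_iff] at h0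
      have h8 := Nat.dvd_gcd h0 (dvd_qq hr)
      rw [ha] at h8
      exact (hR r hr).1.one_lt.ne' (Nat.dvd_one.1 h8)
    have h8 := (legendreSym.eq_one_iff r hne0).1 h7
    unfold nr
    rw [if_pos (by rwa [Int.cast_natCast] at h8)]

include hR in
/-- the number of the residues of the common class -/
theorem AZ_card : Nat.totient (qq R) ≤ (AZ R).card * 2 ^ (R.card + 2) := by
  have hq0 := qq_pos hR
  obtain ⟨A, hA⟩ : ∃ A : Finset ℕ, A = (range (qq R)).filter fun a => Nat.Coprime a (qq R) :=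
    ⟨_, rfl⟩
  have hAc : A.card = Nat.totient (qq R) := by
    rw [hA, Nat.totient]
    congr 1
    exact filter_congr fun a _ => Nat.coprime_comm
  have hmaps : ∀ a ∈ A, (UU R).filter (fun i => cc 1 i a = 1) ∈ (UU R).powerset := fun a _ =>
    mem_powerset.2 (filter_subset _ _)
  rw [← hAc, card_eq_sum_card_fiberwise (f := fun a => (UU R).filter (fun i => cc 1 i a = 1)) hmaps]
  have h1 : ∀ v ∈ (UU R).powerset,
      (A.filter fun a => (UU R).filter (fun i => cc 1 i a = 1) = v).card ≤ (AZ R).card := by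
    intro v _
    rcases (A.filter fun a => (UU R).filter (fun i => cc 1 i a = 1) = v).eq_empty_or_nonempty
      with h | ⟨a0, ha0⟩
    · rw [h, card_empty]
      exact Nat.zero_le _
    · rw [mem_filter, hA, mem_filter] at ha0
      obtain ⟨⟨ha1, ha2⟩, ha3⟩ := ha0
      refine card_le_card_of_injOn (fun a => a * a0 % qq R) ?_ ?_
      · intro a ha
        rw [mem_coe, mem_filter, hA, mem_filter] at ha
        obtain ⟨⟨hb1, hb2⟩, hb3⟩ := ha
        have hcop : Nat.Coprime (a * a0) (qq R) := Nat.Coprime.mul_left hb2 ha2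
        have hcop' : Nat.Coprime (a * a0 % qq R) (qq R) := by
          rw [Nat.coprime_iff_gcd_eq_one, ← Nat.gcd_rec, Nat.gcd_comm]
          exact hcop
        have hone : ∀ i ∈ UU R, cc 1 i (a * a0 % qq R) = 1 := by
          intro i hi
          have hmd : md 1 i ∣ qq R := by
            unfold md
            rcases mem_UU.1 hi with h | h | h
            · rw [h, if_neg (by norm_num)]
              exact (by norm_num : 4 ∣ 28).mul_right _
            · rw [h, if_neg (by norm_num)]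
              exact (by norm_num : 7 ∣ 28).mul_right _
            · rw [if_neg (hR i h).1.ne_zero]
              exact dvd_qq h
          rw [cc_mod 1 i _ (a * a0) ((Nat.mod_modEq _ _).of_dvd hmd), map_mul]
          have hiff : cc 1 i a = 1 ↔ cc 1 i a0 = 1 := by
            have h2 : (i ∈ (UU R).filter (fun i => cc 1 i a = 1)) ↔
                i ∈ (UU R).filter (fun i => cc 1 i a0 = 1) := by rw [hb3, ha3]
            rw [mem_filter, mem_filter] at h2
            exact ⟨fun h => (h2.1 ⟨hi, h⟩).2, fun h => (h2.2 ⟨hi, h⟩).2⟩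
          rcases cc_ne hR hb2 hi with h | h
          · rw [h, hiff.1 h, mul_one]
          · rcases cc_ne hR ha2 hi with h' | h'
            · rw [hiff.2 h'] at h
              norm_num at h
            · rw [h, h']
              norm_num
        obtain ⟨h4, h5⟩ := Zc_of hR hcop' hone
        rw [mem_coe, AZ, mem_filter, mem_range]
        exact ⟨Nat.mod_lt _ hq0, hcop', h4, h5⟩
      · intro a ha b hb hab
        rw [mem_coe, mem_filter, hA, mem_filter, mem_range] at ha hb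
        have h2 : a ≡ b [MOD qq R] := Nat.ModEq.cancel_right_of_coprime
          (by rw [Nat.gcd_comm]; exact ha2) hab
        exact Nat.ModEq.eq_of_lt_of_lt h2 ha.1.1 hb.1.1
  refine (sum_le_sum h1).trans (le_of_eq ?_)
  have hcU : (UU R).card = R.card + 2 := by
    unfold UU
    rw [card_insert_of_notMem, card_insert_of_notMem]
    · intro h
      have := (hR 7 h).2
      omega
    · rw [mem_insert]
      rintro (h | h)
      · omega
      · have := (hR 4 h).2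
        omega
  rw [sum_const, card_powerset, hcU, smul_eq_mul, mul_comm]

end az

/-- the family of the possible large parts -/
noncomputable def fam (R W : Finset ℕ) (Y : ℕ) : Finset (Finset ℕ) :=
  (range (Y + 1)).powerset.filter fun T =>
    (∀ p ∈ T, ((p.Prime ∧ p % 4 = 1) ∧ p ∉ R) ∧ (Zc R p → p ∉ W ∧ ∑ u ∈ W, nr p u = 0)) ∧
      ∏ p ∈ T, p ≤ Y

/-- the other primes up to `Y` -/
noncomputable def NI (R : Finset ℕ) (Y : ℕ) : Finset ℕ :=
  (range (Y + 1)).filter fun r => (r.Prime ∧ r % 4 = 1) ∧ ¬ Zc R r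

/-- the sum over the sets of other primes -/
lemma sum_NI (R : Finset ℕ) (Y : ℕ) :
    ∑ T ∈ (NI R Y).powerset, (1 : ℝ) / ((∏ p ∈ T, p : ℕ) : ℝ) ≤
      Real.exp (∑ r ∈ NI R Y, (1 : ℝ) / r) := by
  have e1 : ∀ T ∈ (NI R Y).powerset, (1 : ℝ) / ((∏ p ∈ T, p : ℕ) : ℝ) = ∏ p ∈ T, (1 / (p : ℝ)) := by
    intro T _
    rw [prod_div_distrib, prod_const_one]
    push_cast
    rfl
  rw [sum_congr rfl e1]
  calc ∑ S ∈ (NI R Y).powerset, ∏ p ∈ S, (1 / (p : ℝ)) = ∏ p ∈ NI R Y, (1 + 1 / (p : ℝ)) := by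
        rw [prod_one_add]
    _ ≤ ∏ p ∈ NI R Y, Real.exp (1 / (p : ℝ)) := by
        refine prod_le_prod (fun _ _ => by positivity) fun p _ => ?_
        rw [add_comm]
        exact Real.add_one_le_exp _
    _ = Real.exp (∑ p ∈ NI R Y, 1 / (p : ℝ)) := by rw [Real.exp_sum]

/-- the sum of the reciprocals of the other primes -/
lemma mer {R : Finset ℕ} (hR : ∀ r ∈ R, r.Prime ∧ r % 4 = 1) : ∃ C : ℝ, ∀ y : ℕ, 3 ≤ y →
    ∑ r ∈ NI R y, (1 : ℝ) / r ≤
      (1 / 2 - (1 / 2 : ℝ) ^ (R.card + 2)) * Real.log (Real.log y) + C := by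
  obtain ⟨C₁, hC₁0, hC₁⟩ := Pool.Agent.Y405.CQ.mertens_ap 4 (by norm_num) 1 (by norm_num) (by norm_num)
  have hex : ∀ a : ℕ, ∃ C : ℝ, 0 ≤ C ∧ (a ∈ AZ R → ∀ x : ℕ, 3 ≤ x →
      |∑ p ∈ (Icc 1 x).filter (fun p => p.Prime ∧ p % qq R = a), (1 : ℝ) / p -
        1 / (Nat.totient (qq R) : ℝ) * Real.log (Real.log x)| ≤ C) := by
    intro a
    by_cases h : a ∈ AZ R
    · have h' := h
      rw [AZ, mem_filter, mem_range] at h'
      obtain ⟨C, h0, hC⟩ := Pool.Agent.Y405.CQ.mertens_ap (qq R) (qq_pos hR) a h'.1 h'.2.1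
      exact ⟨C, h0, fun _ => hC⟩
    · exact ⟨0, le_rfl, fun h' => absurd h' h⟩
  choose c hc0 hc using hex
  have ht : Nat.totient 4 = 2 := by decide
  refine ⟨C₁ + ∑ a ∈ AZ R, c a, fun y hy => ?_⟩
  have hll : 0 ≤ Real.log (Real.log y) := by
    have h3 : (1 : ℝ) ≤ Real.log y := by
      rw [Real.le_log_iff_exp_le (by exact_mod_cast (by omega : 0 < y))]
      have h5 : (3 : ℝ) ≤ y := by exact_mod_cast hy
      have h6 := Real.exp_one_lt_d9
      linarith
    exact Real.log_nonneg h3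
  have h1 := (abs_le.1 (hC₁ y hy)).2
  rw [ht] at h1
  have h2 : ∑ a ∈ AZ R, ∑ p ∈ (Icc 1 y).filter (fun p => p.Prime ∧ p % qq R = a), (1 : ℝ) / p ≥
      ∑ a ∈ AZ R, (1 / (Nat.totient (qq R) : ℝ) * Real.log (Real.log y) - c a) := by
    refine sum_le_sum fun a ha => ?_
    have h3 := (abs_le.1 (hc a ha y hy)).1
    linarith
  rw [sum_sub_distrib, sum_const, nsmul_eq_mul] at h2
  have h3 : ∑ r ∈ NI R y, (1 : ℝ) / r +
      ∑ a ∈ AZ R, ∑ p ∈ (Icc 1 y).filter (fun p => p.Prime ∧ p % qq R = a), (1 : ℝ) / p ≤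
      ∑ p ∈ (Icc 1 y).filter (fun p => p.Prime ∧ p % 4 = 1), (1 : ℝ) / p := by
    obtain ⟨Zs, hZs⟩ : ∃ Zs : Finset ℕ, Zs = (Icc 1 y).filter fun p => p.Prime ∧
      p % qq R ∈ AZ R := ⟨_, rfl⟩
    have h4 : ∑ a ∈ AZ R, ∑ p ∈ (Icc 1 y).filter (fun p => p.Prime ∧ p % qq R = a), (1 : ℝ) / p =
        ∑ p ∈ Zs, (1 : ℝ) / p := by
      rw [← sum_fiberwise_of_maps_to (s := Zs) (t := AZ R) (g := fun p => p % qq R) (fun p hp => by
        rw [hZs, mem_filter] at hp
        exact hp.2.2)]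
      refine sum_congr rfl fun a ha => sum_congr ?_ fun _ _ => rfl
      ext p
      rw [hZs]
      simp only [mem_filter]
      constructor
      · rintro ⟨g1, g2, g3⟩
        exact ⟨⟨g1, g2, by rw [g3]; exact ha⟩, g3⟩
      · rintro ⟨⟨g1, g2, _⟩, g3⟩
        exact ⟨g1, g2, g3⟩
    have hZp : ∀ p ∈ Zs, p ≤ y ∧ (p.Prime ∧ p % 4 = 1) ∧ Zc R p := by
      intro p hp
      rw [hZs, mem_filter, mem_Icc, AZ, mem_filter] at hp
      obtain ⟨⟨_, g1⟩, g2, _, _, g3, g4⟩ := hp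
      rw [mod4] at g3
      rw [Zc_mod] at g4
      exact ⟨g1, ⟨g2, g3⟩, g4⟩
    have hdis : Disjoint (NI R y) Zs := by
      rw [disjoint_left]
      intro p hp hp'
      rw [NI, mem_filter] at hp
      exact hp.2.2 (hZp p hp').2.2
    rw [h4, ← sum_union hdis]
    refine sum_le_sum_of_subset_of_nonneg ?_ fun _ _ _ => by positivity
    intro p hp
    rw [mem_filter, mem_Icc]
    rcases mem_union.1 hp with h | h
    · rw [NI, mem_filter, mem_range] at h
      exact ⟨⟨h.2.1.1.one_lt.le, by omega⟩, h.2.1⟩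
    · obtain ⟨g1, g2, _⟩ := hZp p h
      exact ⟨⟨g2.1.one_lt.le, g1⟩, g2⟩
  have hphi : (0 : ℝ) < Nat.totient (qq R) := by
    exact_mod_cast Nat.totient_pos.2 (qq_pos hR)
  have h5 : (1 / 2 : ℝ) ^ (R.card + 2) ≤ (AZ R).card * (1 / (Nat.totient (qq R) : ℝ)) := by
    rw [mul_one_div, le_div_iff₀ hphi, one_div_pow, one_div, inv_mul_le_iff₀ (by positivity),
      mul_comm]
    exact_mod_cast AZ_card hR
  have h6 := mul_le_mul_of_nonneg_right h5 hll
  push_cast at h1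
  linarith

/-- the logarithmic sum over the family -/
lemma fam_sum (R W : Finset ℕ) (Y : ℕ) :
    ∑ T ∈ fam R W Y, (1 : ℝ) / ((∏ p ∈ T, p : ℕ) : ℝ) ≤
      (∑ S ∈ HR R W Y, (1 : ℝ) / ((∏ p ∈ S, p : ℕ) : ℝ)) *
        ∑ T ∈ (NI R Y).powerset, (1 : ℝ) / ((∏ p ∈ T, p : ℕ) : ℝ) := by
  rw [sum_mul_sum, ← sum_product' (f := fun S T => (1 : ℝ) / ((∏ p ∈ S, p : ℕ) : ℝ) *
    ((1 : ℝ) / ((∏ p ∈ T, p : ℕ) : ℝ)))]
  have hpr : ∀ T ∈ fam R W Y, ∀ p ∈ T, p.Prime := by
    intro T hT p hp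
    rw [fam, mem_filter] at hT
    exact (hT.2.1 p hp).1.1.1
  refine sum_le_inj (fun T => (T.filter (Zc R), T.filter (fun p => ¬ Zc R p)))
    ?_ ?_ ?_ ?_
  · intro T hT
    have hp0 := hpr T hT
    rw [fam, mem_filter, mem_powerset] at hT
    obtain ⟨h1, h2, h3⟩ := hT
    rw [mem_product]
    refine ⟨?_, ?_⟩
    · rw [HR, mem_filter, mem_powerset]
      refine ⟨(filter_subset _ _).trans h1, fun p hp => ?_,
        (prod_sub_le (filter_subset _ _) hp0).trans h3⟩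
      obtain ⟨k1, k2⟩ := mem_filter.1 hp
      exact ⟨(h2 p k1).1.1, k2, (h2 p k1).1.2, (h2 p k1).2 k2⟩
    · rw [mem_powerset]
      intro p hp
      obtain ⟨k1, k2⟩ := mem_filter.1 hp
      rw [NI, mem_filter]
      exact ⟨h1 k1, (h2 p k1).1.1, k2⟩
  · intro S hS T hT h
    simp only [Prod.mk.injEq] at h
    rw [← filter_union_filter_not_eq (Zc R) S,
      ← filter_union_filter_not_eq (Zc R) T, h.1, h.2]
  · intro T hT
    apply le_of_eq
    have e1 : ∏ p ∈ T, p = (∏ p ∈ T.filter (Zc R), p) *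
        ∏ p ∈ T.filter (fun p => ¬ Zc R p), p :=
      (prod_filter_mul_prod_filter_not T (Zc R) _).symm
    simp only
    rw [e1]
    push_cast
    rw [one_div_mul_one_div]
  · intro x _
    positivity

/-- the size of the family -/
lemma fam_card {R : Finset ℕ} {C₁ C₂ θ : ℝ} (h11 : 1 ≤ C₁)
    (hSIE : ∀ (Y : ℕ) (L : Finset (Finset ℕ)), 1 ≤ Y →
      (∀ S ∈ L, (∀ p ∈ S, p.Prime) ∧ ∏ p ∈ S, p ≤ Y) → (∀ S ∈ L, ∀ T, T ⊆ S → T ∈ L) →
      (L.card : ℝ) * Real.log Y ≤ C₁ * Y * ∑ S ∈ L, (1 : ℝ) / ((∏ p ∈ S, p : ℕ) : ℝ))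
    (h21 : 1 ≤ C₂)
    (hHAL : ∀ (W : Finset ℕ) (T : ℕ), W.Nonempty → (∀ u ∈ W, u.Prime ∧ u % 4 = 1) →
      Disjoint W R → 2 ≤ T →
      ∑ S ∈ HR R W T, (1 : ℝ) / ((∏ p ∈ S, p : ℕ) : ℝ) ≤
        C₂ * (Real.log ((∏ u ∈ W, u : ℕ) : ℝ)) ^ (1 / 2 : ℝ) * (Real.log T) ^ θ)
    {W : Finset ℕ} (hW : W.Nonempty) (hW1 : ∀ u ∈ W, u.Prime ∧ u % 4 = 1) (hWR : Disjoint W R)
    {Y : ℕ} (hY : 2 ≤ Y) :
    ((fam R W Y).card : ℝ) * Real.log Y ≤ C₁ * Y *
      ((C₂ * (Real.log ((∏ u ∈ W, u : ℕ) : ℝ)) ^ (1 / 2 : ℝ) * (Real.log Y) ^ θ) *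
        Real.exp (∑ r ∈ NI R Y, (1 : ℝ) / r)) := by
  have h1 := hSIE Y (fam R W Y) (by omega) (by
    intro S hS
    rw [fam, mem_filter] at hS
    exact ⟨fun p hp => (hS.2.1 p hp).1.1.1, hS.2.2⟩) (by
    intro S hS T hTS
    rw [fam, mem_filter, mem_powerset] at hS ⊢
    obtain ⟨h1, h2, h3⟩ := hS
    refine ⟨hTS.trans h1, fun p hp => h2 p (hTS hp), ?_⟩
    exact (prod_sub_le hTS fun p hp => (h2 p hp).1.1.1).trans h3)
  refine h1.trans (mul_le_mul_of_nonneg_left ((fam_sum R W Y).trans ?_) (by positivity))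
  have h2 := hHAL W Y hW hW1 hWR hY
  have h3 := sum_NI R Y
  have h4 : 0 ≤ ∑ T ∈ (NI R Y).powerset, (1 : ℝ) / ((∏ p ∈ T, p : ℕ) : ℝ) :=
    sum_nonneg fun _ _ => by positivity
  have h5 : 0 ≤ ∑ S ∈ HR R W Y, (1 : ℝ) / ((∏ p ∈ S, p : ℕ) : ℝ) :=
    sum_nonneg fun _ _ => by positivity
  exact mul_le_mul h2 h3 h4 (h5.trans h2)

/-! ### degenerate labels -/

lemma notNz {R S T : Finset ℕ} (h : ¬ Nz R S T) :
    ∃ W : Finset ℕ, W ⊆ S ∧ W.Nonempty ∧ (∀ u ∈ W, mk u = 1) ∧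
      ∀ p ∈ T, Zc R p → ∑ u ∈ W, nr p u = 0 := by
  unfold Nz at h
  push Not at h
  obtain ⟨w, ⟨u, hu, hu1, hw⟩, h2⟩ := h
  refine ⟨(S.filter fun u => mk u = 1).filter fun u => w u ≠ 0,
    (filter_subset _ _).trans (filter_subset _ _), ⟨u, ?_⟩, ?_, ?_⟩
  · rw [mem_filter, mem_filter]
    exact ⟨⟨hu, hu1⟩, hw⟩
  · intro u hu
    rw [mem_filter, mem_filter] at hu
    exact hu.1.2
  · intro p hp hp1
    refine Eq.trans ?_ (h2 p hp hp1)
    rw [sum_filter]
    refine sum_congr rfl fun u _ => ?_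
    have key : ∀ a : ZMod 2, a = 0 ∨ a = 1 := by decide
    rcases key (w u) with h | h
    · rw [h]
      simp
    · rw [h]
      simp

/-- the number of sets with given small part -/
lemma fiber (R : Finset ℕ) (X z : ℕ) {S₀ : Finset ℕ} (hS₀ : ∀ u ∈ S₀, u.Prime) :
    ((SR R X).filter fun S => ¬ Nz R (sm z S) (la z S) ∧ sm z S = S₀).card ≤
      ∑ W ∈ S₀.powerset, if W.Nonempty ∧ (∀ u ∈ W, u.Prime ∧ u % 4 = 1) ∧ Disjoint W R then
        (fam R W (X / ∏ p ∈ S₀, p)).card else 0 := by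
  rw [← sum_filter]
  refine le_trans ?_ Finset.card_biUnion_le
  apply Finset.card_le_card_of_injOn (fun S => la z S)
  · intro S hS
    rw [mem_coe, mem_filter] at hS
    obtain ⟨hSR, h5, h6⟩ := hS
    obtain ⟨h2, h4, h2R⟩ := mem_SR hSR
    have hpr : ∀ p ∈ S, p.Prime := fun p hp => (h2 p hp).1
    obtain ⟨W, hWS, hWn, hW1, h7⟩ := notNz h5
    have hWS : W ⊆ S₀ := by rw [← h6]; exact hWS
    rw [mem_coe, mem_biUnion]
    refine ⟨W, ?_, ?_⟩
    · rw [mem_filter, mem_powerset]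
      have hWS' : ∀ u ∈ W, u ∈ S := fun u hu => by
        have hu2 := hWS hu
        rw [← h6, sm, mem_filter] at hu2
        exact hu2.1
      exact ⟨hWS, hWn, fun u hu => h2 u (hWS' u hu), disjoint_of_subset_left hWS' h2R⟩
    · rw [fam, mem_filter, mem_powerset]
      have hN : 0 < ∏ p ∈ S₀, p := prod_pos_of fun p hp => hS₀ p hp
      have hprod : ∏ p ∈ la z S, p ≤ X / ∏ p ∈ S₀, p := by
        rw [Nat.le_div_iff_mul_le hN, mul_comm, ← h6]
        have : (∏ p ∈ sm z S, p) * ∏ p ∈ la z S, p = ∏ p ∈ S, p :=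
          prod_filter_mul_prod_filter_not _ _ _
        rw [this]
        exact h4
      refine ⟨sub_range (fun p hp => hpr p (mem_filter.1 hp).1) hprod, ?_, hprod⟩
      intro p hp
      refine ⟨⟨h2 p (mem_filter.1 hp).1, disjoint_left.1 h2R (mem_filter.1 hp).1⟩, fun hZ =>
        ⟨fun hpW => ?_, h7 p hp hZ⟩⟩
      have h8 := hWS hpW
      rw [← h6, sm, mem_filter] at h8
      exact (mem_filter.1 hp).2 h8.2
  · intro S hS T hT h
    rw [mem_coe, mem_filter] at hS hT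
    simp only at h
    have key : ∀ S : Finset ℕ, sm z S ∪ la z S = S := fun S => filter_union_filter_not_eq _ _
    rw [← key S, ← key T, hS.2.2, hT.2.2, h]

/-- the parameters, for large `X` -/
theorem params (N : ℝ) (hN : 0 < N) : ∃ X₀ : ℕ, ∀ X : ℕ, X₀ ≤ X →
    3 ≤ X ∧ 2 ≤ Real.log (Real.log X) ∧
    1 < Real.log X ∧ 33 * Real.log (Real.log X) ^ 4 + 3 ≤ Real.log X ∧
    Real.log (Real.log X) ^ 10 ≤ Real.log X ^ (1 / N : ℝ) := by
  have h0 : Filter.Tendsto (fun X : ℕ => Real.log (Real.log (X : ℝ))) Filter.atTop Filter.atTop :=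
    Real.tendsto_log_atTop.comp (Real.tendsto_log_atTop.comp tendsto_natCast_atTop_atTop)
  have h1 := h0.eventually (ev_pow 10 (show (0 : ℝ) < 1 by norm_num) hN)
  have h2 := h0.eventually (ev_pow 4 (show (0 : ℝ) < 36 by norm_num) (show (0 : ℝ) < 1 by norm_num))
  have h3 := h0.eventually (Filter.eventually_ge_atTop (2 : ℝ))
  have h4 := (Real.tendsto_log_atTop.comp tendsto_natCast_atTop_atTop).eventually
    (Filter.eventually_gt_atTop (1 : ℝ))
  obtain ⟨X₀, hX⟩ := Filter.eventually_atTop.1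
    (((h1.and h2).and (h3.and h4)).and (Filter.eventually_ge_atTop 3))
  refine ⟨X₀, fun X hX0 => ?_⟩
  obtain ⟨⟨⟨k1, k2⟩, k3, k4⟩, k5⟩ := hX X hX0
  simp only [Function.comp] at k4
  have hpos : 0 < Real.log (X : ℝ) := by linarith
  have e1 : Real.exp (Real.log (Real.log (X : ℝ))) = Real.log X := Real.exp_log hpos
  refine ⟨k5, k3, k4, ?_, ?_⟩
  · rw [div_one, e1] at k2
    have : (1 : ℝ) ≤ Real.log (Real.log (X : ℝ)) ^ 4 := one_le_pow₀ (by linarith)
    linarith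
  · rw [one_mul] at k1
    refine k1.trans (le_of_eq ?_)
    rw [Real.rpow_def_of_pos hpos]
    congr 1
    ring

theorem t_BADk : S_BADk := by
  intro hSIE hHAL R hR
  obtain ⟨C₁, h11, h1⟩ := hSIE
  obtain ⟨C₂, h21, h2⟩ := hHAL R hR
  obtain ⟨C₃, h30, h3⟩ := Pm_le
  obtain ⟨C₄, h4⟩ := mer hR
  have hq0 : (0 : ℝ) < qq R := by exact_mod_cast qq_pos hR
  obtain ⟨X₀, hX₀⟩ := params (8 * qq R) (by positivity)
  obtain ⟨θ, hθ⟩ : ∃ θ : ℝ, θ = (1 / 2 : ℝ) ^ (R.card + 3) := ⟨_, rfl⟩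
  have hθ0 : 0 ≤ θ := by rw [hθ]; positivity
  rw [← hθ] at h2
  have hθη : 2 * (1 / (8 * (qq R : ℝ))) ≤ θ := by
    have g1 : 2 ^ R.card ≤ ∏ r ∈ R, r := by
      rw [← prod_const]
      exact prod_le_prod' fun r hr => (hR r hr).1.two_le
    have g2 : (2 : ℝ) ^ (R.card + 3) ≤ 4 * qq R := by
      have g3 : 2 ^ (R.card + 3) ≤ 4 * qq R := by
        unfold qq
        rw [pow_add]
        omega
      exact_mod_cast g3
    rw [hθ, one_div_pow]
    have g4 : 2 * (1 / (8 * (qq R : ℝ))) = 1 / (4 * qq R) := by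
      field_simp
      norm_num
    rw [g4]
    exact one_div_le_one_div_of_le (by positivity) g2
  have hC2 : 0 ≤ C₂ := by linarith
  have hC1 : 0 ≤ C₁ := by linarith
  refine ⟨33 * C₁ * C₂ * Real.exp C₄ * Real.exp (2 * C₃), X₀, fun X hX => ?_⟩
  obtain ⟨hX3, hl2, hlog1, h33, hfin⟩ := hX₀ X hX
  set ℓ : ℝ := Real.log (Real.log X) with hℓ
  set z : ℕ := zz X with hz
  set k : ℕ := kk X with hk
  obtain ⟨δ, hδ⟩ : ∃ δ : ℝ, δ = 1 / 2 - (1 / 2 : ℝ) ^ (R.card + 2) := ⟨_, rfl⟩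
  have hδθ : δ = 1 / 2 - 2 * θ := by
    rw [hδ, hθ]
    ring
  have hδ0 : 0 ≤ δ := by
    rw [hδ]
    have : (1 / 2 : ℝ) ^ (R.card + 2) ≤ (1 / 2) ^ 1 :=
      pow_le_pow_of_le_one (by norm_num) (by norm_num) (by omega)
    linarith
  rw [← hδ] at h4
  have hlX : 0 < Real.log X := by linarith
  have hl0 : 0 < ℓ := by linarith
  have hk11 : (k : ℝ) ≤ 11 * ℓ := by
    have h := Nat.ceil_lt_add_one (show (0 : ℝ) ≤ 10 * eL X by
      unfold eL; rw [← hℓ]; positivity)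
    have h' : (k : ℝ) < 10 * ℓ + 1 := h
    linarith
  have hl3 : (8 : ℝ) ≤ ℓ ^ 3 := by
    have := pow_le_pow_left₀ (by norm_num : (0 : ℝ) ≤ 2) hl2 3
    linarith
  have hz3 : 3 ≤ z := by
    rw [hz]
    unfold zz
    apply Nat.le_floor
    have h := Real.add_one_le_exp ((eL X) ^ 3)
    have h' : (eL X) ^ 3 = ℓ ^ 3 := rfl
    rw [h'] at h ⊢
    push_cast
    linarith
  have hz1 : 1 ≤ z := by omega
  have hz0 : (0 : ℝ) < z := by exact_mod_cast hz1
  have hzlog : Real.log z ≤ ℓ ^ 3 := by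
    rw [Real.log_le_iff_le_exp hz0]
    exact Nat.floor_le (Real.exp_pos _).le
  have hzlog0 : 0 < Real.log z := Real.log_pos (by exact_mod_cast (by omega : 1 < z))
  have hl4 : (1 : ℝ) ≤ ℓ ^ 4 := one_le_pow₀ (by linarith)
  -- the size of the families
  set Rr : ℝ := 33 * C₁ * C₂ * Real.exp C₄ * ℓ ^ 4 * ((Real.log X) ^ θ *
    (Real.log X) ^ δ) / Real.log X with hRr
  have hrp0 : 0 < (Real.log X) ^ θ := Real.rpow_pos_of_pos hlX _
  have hrp1 : 0 < (Real.log X) ^ δ := Real.rpow_pos_of_pos hlX _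
  have hRr0 : 0 ≤ Rr := by
    rw [hRr]
    positivity
  have key : ∀ S₀ : Finset ℕ, (∀ u ∈ S₀, u.Prime) → (∀ u ∈ S₀, u ≤ z) → S₀.card ≤ k →
      ∀ W ⊆ S₀, W.Nonempty → (∀ u ∈ W, u.Prime ∧ u % 4 = 1) → Disjoint W R →
      ((fam R W (X / ∏ p ∈ S₀, p)).card : ℝ) ≤ (X : ℝ) / ((∏ p ∈ S₀, p : ℕ) : ℝ) * Rr := by
    intro S₀ hS₀ hSz hSk W hWS hWn hW1 hWR
    set N : ℕ := ∏ p ∈ S₀, p with hN
    have hN0 : 0 < N := prod_pos_of fun p hp => hS₀ p hp
    have hN0' : (0 : ℝ) < N := by exact_mod_cast hN0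
    have hlN : Real.log N ≤ 11 * ℓ ^ 4 := by
      have e1 : Real.log N = ∑ p ∈ S₀, Real.log p := by
        rw [hN]
        push_cast
        rw [Real.log_prod]
        intro p hp
        have := (hS₀ p hp).ne_zero
        exact_mod_cast this
      rw [e1]
      calc ∑ p ∈ S₀, Real.log p ≤ ∑ _p ∈ S₀, Real.log z := by
            refine sum_le_sum fun p hp => ?_
            exact Real.log_le_log (by exact_mod_cast (hS₀ p hp).pos) (by exact_mod_cast hSz p hp)
        _ = S₀.card * Real.log z := by rw [sum_const, nsmul_eq_mul]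
        _ ≤ (11 * ℓ) * ℓ ^ 3 := by
            refine mul_le_mul (le_trans (by exact_mod_cast hSk) hk11) hzlog hzlog0.le (by positivity)
        _ = 11 * ℓ ^ 4 := by ring
    set Y : ℕ := X / N with hY
    have hX0 : (0 : ℝ) < X := by exact_mod_cast (by omega : 0 < X)
    have hYle : (Y : ℝ) ≤ (X : ℝ) / N := Nat.cast_div_le
    have hYge : Real.exp (Real.log X / 3) ≤ Y := by
      have e1 : (X : ℝ) / N < Y + 1 := by
        rw [div_lt_iff₀ hN0']
        have := Nat.lt_mul_div_succ X hN0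
        rw [← hY] at this
        have h' : ((X : ℕ) : ℝ) < ((N * (Y + 1) : ℕ) : ℝ) := by exact_mod_cast this
        push_cast at h'
        linarith
      have e2 : Real.exp (Real.log X - Real.log N) = (X : ℝ) / N := by
        rw [Real.exp_sub, Real.exp_log hX0, Real.exp_log hN0']
      have e3 : Real.exp (Real.log X / 3 + 1) ≤ (X : ℝ) / N := by
        rw [← e2]
        apply Real.exp_le_exp.2
        linarith
      rw [Real.exp_add] at e3
      have e4 : (2 : ℝ) ≤ Real.exp 1 := by have := Real.exp_one_gt_d9; linarith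
      have e5 : (1 : ℝ) ≤ Real.exp (Real.log X / 3) := Real.one_le_exp (by positivity)
      nlinarith
    have hX16 : (9 : ℝ) ≤ Real.log X / 3 := by
      have e6 : (16 : ℝ) ≤ ℓ ^ 4 := by
        have := pow_le_pow_left₀ (by norm_num : (0 : ℝ) ≤ 2) hl2 4
        linarith
      linarith
    have hY3 : 3 ≤ Y := by
      have e1 := Real.add_one_le_exp (Real.log X / 3)
      have e2 : (3 : ℝ) ≤ Y := by linarith
      exact_mod_cast e2
    have hY2 : 2 ≤ Y := by omega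
    have hY0 : (0 : ℝ) < Y := by exact_mod_cast (by omega : 0 < Y)
    have hlY : Real.log X / 3 ≤ Real.log Y := by
      rw [Real.le_log_iff_exp_le hY0]
      exact hYge
    have hYX : Y ≤ X := Nat.div_le_self _ _
    have hlYX : Real.log Y ≤ Real.log X := Real.log_le_log hY0 (by exact_mod_cast hYX)
    have hlY0 : 0 < Real.log Y := by linarith
    -- the small factor
    have hlW : (Real.log ((∏ u ∈ W, u : ℕ) : ℝ)) ^ (1 / 2 : ℝ) ≤ 11 * ℓ ^ 4 := by
      have hWp : ∀ u ∈ W, u.Prime := fun u hu => (hW1 u hu).1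
      have e0 : (0 : ℝ) < ((∏ u ∈ W, u : ℕ) : ℝ) := by exact_mod_cast prod_pos_of hWp
      have e1 : Real.log ((∏ u ∈ W, u : ℕ) : ℝ) ≤ 11 * ℓ ^ 4 := by
        refine le_trans (Real.log_le_log e0 ?_) hlN
        exact_mod_cast prod_sub_le hWS hS₀
      have e2 : 0 ≤ Real.log ((∏ u ∈ W, u : ℕ) : ℝ) := Real.log_natCast_nonneg _
      have e3 : (1 : ℝ) ≤ 11 * ℓ ^ 4 := by linarith
      refine (Real.rpow_le_rpow e2 e1 (by norm_num)).trans ?_
      have := Real.rpow_le_rpow_of_exponent_le e3 (show (1 / 2 : ℝ) ≤ 1 by norm_num)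
      rwa [Real.rpow_one] at this
    have hmain := fam_card h11 h1 h21 h2 hWn hW1 hWR hY2
    have hrY : (Real.log Y) ^ θ ≤ (Real.log X) ^ θ :=
      Real.rpow_le_rpow hlY0.le hlYX hθ0
    have hexpI : Real.exp (∑ r ∈ NI R Y, (1 : ℝ) / r) ≤ Real.exp C₄ * (Real.log X) ^ δ := by
      refine (Real.exp_le_exp.2 (h4 Y hY3)).trans ?_
      rw [Real.exp_add, mul_comm (Real.exp C₄)]
      refine mul_le_mul_of_nonneg_right ?_ (Real.exp_pos _).le
      rw [Real.rpow_def_of_pos hlX]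
      apply Real.exp_le_exp.2
      rw [mul_comm]
      refine mul_le_mul_of_nonneg_right ?_ hδ0
      exact Real.log_le_log hlY0 hlYX
    have hrY0 : 0 ≤ (Real.log Y) ^ θ := Real.rpow_nonneg hlY0.le _
    have hb : C₁ * Y * ((C₂ * (Real.log ((∏ u ∈ W, u : ℕ) : ℝ)) ^ (1 / 2 : ℝ) *
        (Real.log Y) ^ θ) * Real.exp (∑ r ∈ NI R Y, (1 : ℝ) / r)) ≤
        C₁ * ((X : ℝ) / N) * ((C₂ * (11 * ℓ ^ 4) * (Real.log X) ^ θ) *
          (Real.exp C₄ * (Real.log X) ^ δ)) := by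
      gcongr
    have hc : ((fam R W Y).card : ℝ) * (Real.log X / 3) ≤
        C₁ * ((X : ℝ) / N) * ((C₂ * (11 * ℓ ^ 4) * (Real.log X) ^ θ) *
          (Real.exp C₄ * (Real.log X) ^ δ)) := by
      refine le_trans ?_ (hmain.trans hb)
      exact mul_le_mul_of_nonneg_left hlY (Nat.cast_nonneg _)
    have hd : (X : ℝ) / N * Rr = (C₁ * ((X : ℝ) / N) * ((C₂ * (11 * ℓ ^ 4) *
        (Real.log X) ^ θ) * (Real.exp C₄ * (Real.log X) ^ δ))) / (Real.log X / 3) := by
      rw [hRr]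
      field_simp
      ring
    rw [hd, le_div_iff₀ (by positivity)]
    exact hc
  -- the sum over the small parts
  set B := (SR R X).filter fun S => S.card ≤ k ∧ ¬ Nz R (sm z S) (la z S) with hB
  set D := (range (z + 1)).filter fun p => p.Prime with hD
  set W := D.powerset.filter fun S => S.card ≤ k with hW
  have hmaps : ∀ S ∈ B, sm z S ∈ W := by
    intro S hS
    rw [hB, mem_filter] at hS
    obtain ⟨k0, k4, k5⟩ := hS
    obtain ⟨k2, k3, _⟩ := mem_SR k0
    rw [hW, mem_filter, mem_powerset]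
    refine ⟨fun p hp => ?_, (card_le_card (filter_subset _ _)).trans k4⟩
    obtain ⟨l1, l2⟩ := mem_filter.1 hp
    rw [hD, mem_filter, mem_range]
    exact ⟨by omega, (k2 p l1).1⟩
  have hcard : (B.card : ℝ) ≤ ∑ S₀ ∈ W, 2 ^ S₀.card * ((X : ℝ) / ((∏ p ∈ S₀, p : ℕ) : ℝ) * Rr) := by
    rw [card_eq_sum_card_fiberwise (f := fun S => sm z S) (t := W) (fun S hS => hmaps S hS)]
    push_cast
    refine sum_le_sum fun S₀ hS₀ => ?_
    rw [hW, mem_filter, mem_powerset] at hS₀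
    have hpr : ∀ u ∈ S₀, u.Prime := fun u hu => (mem_filter.1 (hS₀.1 hu)).2
    have hle : ∀ u ∈ S₀, u ≤ z := fun u hu => by
      have := mem_range.1 (mem_filter.1 (hS₀.1 hu)).1
      omega
    have e1 : (B.filter fun S => sm z S = S₀).card ≤
        ((SR R X).filter fun S => ¬ Nz R (sm z S) (la z S) ∧ sm z S = S₀).card := by
      refine card_le_card fun S hS => ?_
      rw [mem_filter, hB, mem_filter] at hS
      rw [mem_filter]
      exact ⟨hS.1.1, hS.1.2.2, hS.2⟩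
    have e2 := e1.trans (fiber R X z hpr)
    have e3 : ((B.filter fun S => sm z S = S₀).card : ℝ) ≤
        ∑ t ∈ S₀.powerset, (X : ℝ) / ((∏ p ∈ S₀, p : ℕ) : ℝ) * Rr := by
      refine le_trans ((Nat.cast_le (α := ℝ)).2 e2) ?_
      rw [Nat.cast_sum]
      refine sum_le_sum fun t htS => ?_
      split_ifs with ht
      · exact key S₀ hpr hle hS₀.2 t (mem_powerset.1 htS) ht.1 ht.2.1 ht.2.2
      · rw [Nat.cast_zero]
        exact mul_nonneg (div_nonneg (Nat.cast_nonneg _) (by positivity)) hRr0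
    refine e3.trans (le_of_eq ?_)
    rw [sum_const, card_powerset, nsmul_eq_mul]
    push_cast
    ring
  have hsum : ∑ S₀ ∈ W, 2 ^ S₀.card * ((X : ℝ) / ((∏ p ∈ S₀, p : ℕ) : ℝ) * Rr) ≤
      X * Rr * Real.exp (2 * Pm z) := by
    have e1 : ∀ S₀ ∈ W, 2 ^ S₀.card * ((X : ℝ) / ((∏ p ∈ S₀, p : ℕ) : ℝ) * Rr) =
        X * Rr * ∏ p ∈ S₀, (2 / (p : ℝ)) := by
      intro S₀ _
      rw [prod_div_distrib, prod_const]
      push_cast
      ring
    rw [sum_congr rfl e1, ← mul_sum]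
    have h2XR : 0 ≤ (X : ℝ) * Rr := by positivity
    refine mul_le_mul_of_nonneg_left ?_ h2XR
    calc ∑ S₀ ∈ W, ∏ p ∈ S₀, (2 / (p : ℝ)) ≤ ∑ S₀ ∈ D.powerset, ∏ p ∈ S₀, (2 / (p : ℝ)) := by
          refine sum_le_sum_of_subset_of_nonneg (filter_subset _ _) fun S _ _ => ?_
          exact prod_nonneg fun _ _ => by positivity
      _ = ∏ p ∈ D, (1 + 2 / (p : ℝ)) := by rw [prod_one_add]
      _ ≤ ∏ p ∈ D, Real.exp (2 / (p : ℝ)) := by
          refine prod_le_prod (fun _ _ => by positivity) fun p _ => ?_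
          rw [add_comm]
          exact Real.add_one_le_exp _
      _ = Real.exp (∑ p ∈ D, 2 / (p : ℝ)) := by rw [Real.exp_sum]
      _ ≤ Real.exp (2 * Pm z) := by
          apply Real.exp_le_exp.2
          unfold Pm
          rw [mul_sum]
          have e2 : ∀ p : ℕ, 2 / (p : ℝ) = 2 * (1 / p) := fun p => by ring
          simp_rw [e2]
          refine sum_le_sum_of_subset_of_nonneg ?_ fun _ _ _ => by positivity
          intro p hp
          rw [hD, mem_filter, mem_range] at hp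
          rw [mem_filter, mem_Icc]
          exact ⟨⟨hp.2.pos, by omega⟩, hp.2⟩
  have hexp : Real.exp (2 * Pm z) ≤ Real.exp (2 * C₃) * ℓ ^ 6 := by
    have e1 := h3 z hz3
    have e2 : Real.exp (2 * Pm z) ≤ Real.exp (2 * (Real.log (Real.log z) + C₃)) :=
      Real.exp_le_exp.2 (by linarith)
    refine e2.trans ?_
    have e3 : Real.exp (2 * (Real.log (Real.log z) + C₃)) = Real.exp (2 * C₃) * (Real.log z) ^ 2 := by
      rw [mul_add, Real.exp_add, mul_comm]
      congr 1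
      rw [show (2 : ℝ) * Real.log (Real.log z) = Real.log ((Real.log z) ^ 2) by
        rw [Real.log_pow]; push_cast; ring]
      exact Real.exp_log (by positivity)
    rw [e3]
    refine mul_le_mul_of_nonneg_left ?_ (Real.exp_pos _).le
    calc (Real.log z) ^ 2 ≤ (ℓ ^ 3) ^ 2 := pow_le_pow_left₀ hzlog0.le hzlog 2
      _ = ℓ ^ 6 := by ring
  have hXR : 0 ≤ (X : ℝ) * Rr := by positivity
  have hX0' : (0 : ℝ) ≤ X := Nat.cast_nonneg _
  calc (B.card : ℝ) ≤ X * Rr * Real.exp (2 * Pm z) := hcard.trans hsum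
    _ ≤ X * Rr * (Real.exp (2 * C₃) * ℓ ^ 6) :=
        mul_le_mul_of_nonneg_left hexp hXR
    _ = 33 * C₁ * C₂ * Real.exp C₄ * Real.exp (2 * C₃) * X * (ℓ ^ 10 *
          ((Real.log X) ^ θ * (Real.log X) ^ δ) / Real.log X) := by
        rw [hRr]
        ring
    _ ≤ 33 * C₁ * C₂ * Real.exp C₄ * Real.exp (2 * C₃) * X * ((Real.log X) ^ (1 / (8 * qq R) : ℝ) *
          ((Real.log X) ^ θ * (Real.log X) ^ δ) / Real.log X) := by
        gcongr
    _ ≤ 33 * C₁ * C₂ * Real.exp C₄ * Real.exp (2 * C₃) * X *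
          (Real.log X) ^ (-(1 / 2) - eta R : ℝ) := by
        apply mul_le_mul_of_nonneg_left _ (by positivity)
        rw [← Real.rpow_add hlX, ← Real.rpow_add hlX]
        nth_rewrite 2 [← Real.rpow_one (Real.log X)]
        rw [← Real.rpow_sub hlX]
        apply Real.rpow_le_rpow_of_exponent_le hlog1.le
        rw [hδθ]
        unfold eta
        linarith

end Pool.Agent.L0h2.K.BAD
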