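import Pool.Agent.L0h2.K.PP

/-!
# Joint law for several twists: the inversion of the symmetric matrices
-/

set_option autoImplicit false
set_option linter.unusedSectionVars false
set_option linter.unusedVariables false

open scoped Classical

namespace Pool.Agent.L0h2.K

open Function Module Matrix
open Pool.Agent.Y759.CX (fr fr_equiv fr_nonneg fr_le_one fr_mono fr_not fr_prod fr_comp fr_exists
  fr_single)
open Pool.Agent.Y703.CQ (S_SYM S_C2 c2)
open Pool.Agent.Y219.CQ (F Sy Ns sp fr_avg red card_mod finSy finHom finHom2 Gs mf mf_apply bf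
  bf_apply bf_l bf_r bf_symm bf_add bf_single all_zero Gs_iff zx zx_of zx_not sum_zx)

section gen

variable {K : Type} [Fintype K] [DecidableEq K]

lemma conj (G M : Matrix K K F) (hG : G.det ≠ 0) (hM : M.det ≠ 0) :
    (G * M⁻¹ * Gᵀ).det ≠ 0 ∧ Gᵀ * (G * M⁻¹ * Gᵀ)⁻¹ * G = M := by
  have hG' : IsUnit G.det := isUnit_iff_ne_zero.2 hG
  have hM' : IsUnit M.det := isUnit_iff_ne_zero.2 hM
  have hGt : IsUnit Gᵀ.det := by rwa [det_transpose]
  constructor
  · rw [det_mul, det_mul, det_transpose]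
    refine mul_ne_zero (mul_ne_zero hG ?_) hG
    rw [det_nonsing_inv, Ring.inverse_eq_inv']
    exact inv_ne_zero hM
  · rw [Matrix.mul_inv_rev, Matrix.mul_inv_rev, nonsing_inv_nonsing_inv _ hM', ← Matrix.mul_assoc,
      mul_nonsing_inv _ hGt, Matrix.one_mul, Matrix.mul_assoc, nonsing_inv_mul _ hG', Matrix.mul_one]

lemma conj_symm (G M : Matrix K K F) (hM : M.IsSymm) : (G * M⁻¹ * Gᵀ).IsSymm := by
  unfold Matrix.IsSymm
  rw [transpose_mul, transpose_mul, transpose_transpose, transpose_nonsing_inv, hM.eq,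
    Matrix.mul_assoc]

lemma det_ne_iff (M : Matrix K K F) : M.det ≠ 0 ↔ ∀ z : K → F, z ᵥ* M = 0 → z = 0 := by
  rw [Ne, ← exists_vecMul_eq_zero_iff]
  push Not
  exact ⟨fun h z hz => by_contra fun hne => h z hne hz, fun h z hne hz => hne (h z hz)⟩

end gen

section mx

variable {U J : Type} [Fintype U] [Fintype J]

/-- the positions of the first block in the dual coordinates -/
noncomputable def mE (e : U → J) : Matrix U J F := fun u j => if j = e u then 1 else 0

/-- the other positions -/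
noncomputable def mP (e : U → J) (j : J) : F := if ∃ u, e u = j then 0 else 1

/-- the matrix of the dual coordinates -/
noncomputable def mG (A : Matrix U U F) (C : Matrix U J F) (e : U → J) : Matrix (U ⊕ J) (U ⊕ J) F :=
  fromBlocks A C (mE e)ᵀ (diagonal (mP e))

/-- the whole matrix -/
noncomputable def mM (A : Matrix U U F) (C : Matrix U J F) (S : Matrix J J F) : Matrix (U ⊕ J) (U ⊕ J) F :=
  fromBlocks A C Cᵀ S

lemma first (G M : Matrix (U ⊕ J) (U ⊕ J) F) (hM : M.det ≠ 0)
    (h : ∀ u w, G (Sum.inl u) w = M (Sum.inl u) w) (u : U) (w : U ⊕ J) :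
    (G * M⁻¹ * Gᵀ) (Sum.inl u) w = G w (Sum.inl u) := by
  have hM' : IsUnit M.det := isUnit_iff_ne_zero.2 hM
  have h1 : ∀ v, (G * M⁻¹) (Sum.inl u) v = (1 : Matrix (U ⊕ J) (U ⊕ J) F) (Sum.inl u) v := by
    intro v
    rw [← mul_nonsing_inv _ hM', mul_apply, mul_apply]
    exact Finset.sum_congr rfl fun x _ => by rw [h]
  have h2 : (G * M⁻¹ * Gᵀ) (Sum.inl u) w = ((1 : Matrix (U ⊕ J) (U ⊕ J) F) * Gᵀ) (Sum.inl u) w := by
    rw [mul_apply, mul_apply]
    exact Finset.sum_congr rfl fun x _ => by rw [h1]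
  rw [h2, Matrix.one_mul]
  rfl

lemma mP_e (e : U → J) (u : U) : mP e (e u) = 0 := if_pos ⟨u, rfl⟩

lemma mP_ne {e : U → J} {j : J} (h : ¬ ∃ u, e u = j) : mP e j = 1 := if_neg h

lemma mG_col (A : Matrix U U F) (C : Matrix U J F) (e : U → J) (z : U ⊕ J → F) (j : J) :
    (z ᵥ* mG A C e) (Sum.inr j) = ∑ v, z (Sum.inl v) * C v j + z (Sum.inr j) * mP e j := by
  have h1 : (z ᵥ* mG A C e) (Sum.inr j) = ∑ v, z (Sum.inl v) * C v j +
      ∑ k, z (Sum.inr k) * diagonal (mP e) k j := Fintype.sum_sum_type _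
  rw [h1]
  congr 1
  rw [Finset.sum_eq_single j]
  · rw [diagonal_apply_eq]
  · intro i _ hi
    rw [diagonal_apply_ne _ hi, mul_zero]
  · intro h
    exact absurd (Finset.mem_univ _) h

lemma mG_col' (A : Matrix U U F) (C : Matrix U J F) (e : U → J) (z : U ⊕ J → F) (u : U) :
    (z ᵥ* mG A C e) (Sum.inl u) = ∑ v, z (Sum.inl v) * A v u + z (Sum.inr (e u)) := by
  have h1 : (z ᵥ* mG A C e) (Sum.inl u) = ∑ v, z (Sum.inl v) * A v u +
      ∑ k, z (Sum.inr k) * (if k = e u then 1 else 0) := Fintype.sum_sum_type _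
  rw [h1]
  congr 1
  rw [Finset.sum_eq_single (e u)]
  · rw [if_pos rfl, mul_one]
  · intro i _ hi
    rw [if_neg hi, mul_zero]
  · intro h
    exact absurd (Finset.mem_univ _) h

lemma mG_det (A : Matrix U U F) (C : Matrix U J F) (e : U → J) (he : Injective e)
    (hC : ∀ x : U → F, (∀ u, ∑ v, x v * C v (e u) = 0) → x = 0) : (mG A C e).det ≠ 0 := by
  rw [det_ne_iff]
  intro z hz
  have h1 : ∀ j, ∑ v, z (Sum.inl v) * C v j + z (Sum.inr j) * mP e j = 0 := by
    intro j
    rw [← mG_col A C e z j, hz]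
    rfl
  have h2 : (fun v => z (Sum.inl v)) = 0 := hC _ fun u => by
    have h3 := h1 (e u)
    rwa [mP_e, mul_zero, add_zero] at h3
  have h3 : ∀ v, z (Sum.inl v) = 0 := fun v => congrFun h2 v
  funext w
  rcases w with v | j
  · exact h3 v
  · by_cases hj : ∃ u, e u = j
    · obtain ⟨u, rfl⟩ := hj
      have h4 := mG_col' A C e z u
      rw [hz] at h4
      simp only [h3, zero_mul, Finset.sum_const_zero, zero_add] at h4
      exact h4.symm
    · have h4 := h1 j
      simp only [h3, zero_mul, Finset.sum_const_zero, zero_add] at h4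
      rwa [mP_ne hj, mul_one] at h4

/-- the dual of a form -/
noncomputable def dl (A : Matrix U U F) (C : Matrix U J F) (e : U → J) (S : Matrix J J F) :
    Matrix J J F := (mG A C e * (mM A C S)⁻¹ * (mG A C e)ᵀ).toBlocks₂₂

/-- the predual of a form -/
noncomputable def du (A : Matrix U U F) (C : Matrix U J F) (e : U → J) (B : Matrix J J F) :
    Matrix J J F := ((mG A C e)ᵀ * (mM A (mE e) B)⁻¹ * mG A C e).toBlocks₂₂

lemma mM_symm (A : Matrix U U F) (hA : A.IsSymm) (C : Matrix U J F) (S : Matrix J J F)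
    (hS : S.IsSymm) : (mM A C S).IsSymm := by
  unfold Matrix.IsSymm mM
  rw [fromBlocks_transpose, hA.eq, hS.eq, transpose_transpose]

lemma toBlocks_symm (Q : Matrix (U ⊕ J) (U ⊕ J) F) (hQ : Q.IsSymm) (A : Matrix U U F)
    (hA : A.IsSymm) (C : Matrix U J F) (h1 : ∀ u v, Q (Sum.inl u) (Sum.inl v) = A u v)
    (h2 : ∀ u j, Q (Sum.inl u) (Sum.inr j) = C u j) : Q = mM A C Q.toBlocks₂₂ := by
  ext a b
  rcases a with u | j
  · rcases b with v | k
    · exact h1 u v
    · exact h2 u k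
  · rcases b with v | k
    · rw [← hQ.apply]
      exact h2 v j
    · rfl

lemma dl_eq (A : Matrix U U F) (hA : A.IsSymm) (C : Matrix U J F) (e : U → J)
    (S : Matrix J J F) (hS : S.IsSymm) (hd : (mM A C S).det ≠ 0) :
    mG A C e * (mM A C S)⁻¹ * (mG A C e)ᵀ = mM A (mE e) (dl A C e S) := by
  have h1 := first (mG A C e) (mM A C S) hd (by
    intro u w
    rcases w with v | k
    · rfl
    · rfl)
  refine toBlocks_symm _ (conj_symm _ _ (mM_symm A hA C S hS)) A hA (mE e) ?_ ?_
  · intro u v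
    rw [h1]
    show A v u = A u v
    exact hA.apply _ _
  · intro u j
    rw [h1]
    rfl

lemma du_eq (A : Matrix U U F) (hA : A.IsSymm) (C : Matrix U J F) (e : U → J)
    (B : Matrix J J F) (hB : B.IsSymm) (hd : (mM A (mE e) B).det ≠ 0) :
    (mG A C e)ᵀ * (mM A (mE e) B)⁻¹ * mG A C e = mM A C (du A C e B) := by
  have h0 := transpose_transpose (mG A C e)
  have h1 := first (mG A C e)ᵀ (mM A (mE e) B) hd (by
    intro u w
    rcases w with v | k
    · show A v u = A u v
      exact hA.apply _ _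
    · rfl)
  have h2 := conj_symm (mG A C e)ᵀ (mM A (mE e) B) (mM_symm A hA (mE e) B hB)
  rw [h0] at h1 h2
  refine toBlocks_symm _ h2 A hA C ?_ ?_
  · intro u v
    rw [h1]
    rfl
  · intro u j
    rw [h1]
    rfl

lemma tb_symm (Q : Matrix (U ⊕ J) (U ⊕ J) F) (hQ : Q.IsSymm) : Q.toBlocks₂₂.IsSymm := by
  ext a b
  exact hQ.apply _ _

lemma dl_symm (A : Matrix U U F) (hA : A.IsSymm) (C : Matrix U J F) (e : U → J)
    (S : Matrix J J F) (hS : S.IsSymm) : (dl A C e S).IsSymm :=
  tb_symm _ (conj_symm _ _ (mM_symm A hA C S hS))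

lemma du_symm (A : Matrix U U F) (hA : A.IsSymm) (C : Matrix U J F) (e : U → J)
    (B : Matrix J J F) (hB : B.IsSymm) : (du A C e B).IsSymm := by
  have h2 := conj_symm (mG A C e)ᵀ (mM A (mE e) B) (mM_symm A hA (mE e) B hB)
  rw [transpose_transpose] at h2
  exact tb_symm _ h2

lemma dl_det (A : Matrix U U F) (hA : A.IsSymm) (C : Matrix U J F) (e : U → J)
    (hG : (mG A C e).det ≠ 0) (S : Matrix J J F) (hS : S.IsSymm) (hd : (mM A C S).det ≠ 0) :
    (mM A (mE e) (dl A C e S)).det ≠ 0 ∧ du A C e (dl A C e S) = S := by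
  obtain ⟨h1, h2⟩ := conj _ _ hG hd
  rw [dl_eq A hA C e S hS hd] at h1 h2
  refine ⟨h1, ?_⟩
  unfold du
  rw [h2]
  rfl

lemma du_det (A : Matrix U U F) (hA : A.IsSymm) (C : Matrix U J F) (e : U → J)
    (hG : (mG A C e).det ≠ 0) (B : Matrix J J F) (hB : B.IsSymm) (hd : (mM A (mE e) B).det ≠ 0) :
    (mM A C (du A C e B)).det ≠ 0 ∧ dl A C e (du A C e B) = B := by
  obtain ⟨h1, h2⟩ := conj (mG A C e)ᵀ _ (by rwa [det_transpose]) hd
  rw [transpose_transpose, du_eq A hA C e B hB hd] at h1 h2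
  refine ⟨h1, ?_⟩
  unfold dl
  rw [h2]
  rfl

/-- the duality -/
theorem bij (A : Matrix U U F) (hA : A.IsSymm) (C : Matrix U J F) (e : U → J) (he : Injective e)
    (hC : ∀ x : U → F, (∀ u, ∑ v, x v * C v (e u) = 0) → x = 0) (QS QB : Matrix J J F → Prop)
    (hQ : ∀ S, S.IsSymm → (mM A C S).det ≠ 0 → (QS S ↔ QB (dl A C e S))) :
    fr (fun S : {M : Matrix J J F // M.IsSymm} => (mM A C S.1).det ≠ 0 ∧ QS S.1) =
      fr (fun B : {M : Matrix J J F // M.IsSymm} => (mM A (mE e) B.1).det ≠ 0 ∧ QB B.1) := by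
  have hG := mG_det A C e he hC
  unfold Pool.Agent.Y759.CX.fr
  congr 2
  refine Nat.card_congr
    { toFun := fun S => ⟨⟨dl A C e S.1.1, dl_symm A hA C e _ S.1.2⟩,
        (dl_det A hA C e hG _ S.1.2 S.2.1).1, (hQ _ S.1.2 S.2.1).1 S.2.2⟩
      invFun := fun B => ⟨⟨du A C e B.1.1, du_symm A hA C e _ B.1.2⟩,
        (du_det A hA C e hG _ B.1.2 B.2.1).1, (hQ _ (du_symm A hA C e _ B.1.2)
          (du_det A hA C e hG _ B.1.2 B.2.1).1).2 (by
            rw [(du_det A hA C e hG _ B.1.2 B.2.1).2]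
            exact B.2.2)⟩
      left_inv := fun S => Subtype.ext (Subtype.ext (dl_det A hA C e hG _ S.1.2 S.2.1).2)
      right_inv := fun B => Subtype.ext (Subtype.ext (du_det A hA C e hG _ B.1.2 B.2.1).2) }

/-- the diagonal in the dual coordinates -/
noncomputable def dd (e : U → J) (a : U → F) (g : J → F) (j : J) : F :=
  if h : ∃ u, e u = j then a h.choose else g j

lemma dd_of {e : U → J} (he : Injective e) (a : U → F) (g : J → F) (u : U) :
    dd e a g (e u) = a u := by
  have h : ∃ v, e v = e u := ⟨u, rfl⟩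
  unfold dd
  rw [dif_pos h, he h.choose_spec]

lemma dd_not {e : U → J} (a : U → F) (g : J → F) {j : J} (h : ¬ ∃ u, e u = j) :
    dd e a g j = g j := by
  unfold dd
  rw [dif_neg h]

/-- the change of the diagonal, seen in the dual -/
theorem ev_iff (A : Matrix U U F) (C : Matrix U J F) (e : U → J) (he : Injective e) (a : U → F)
    (g : J → F) (hg : ∀ u, g (e u) = 0) (S : Matrix J J F) (hd : (mM A C S).det ≠ 0) :
    (mM (A + diagonal a) C (S + diagonal g)).det ≠ 0 ↔
      (1 + diagonal (dd e a g) * dl A C e S).det ≠ 0 := by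
  obtain ⟨M, hM⟩ : ∃ M, M = mM A C S := ⟨_, rfl⟩
  obtain ⟨W, hW⟩ : ∃ W : Matrix J (U ⊕ J) F, W = fun j w => mG A C e (Sum.inr j) w := ⟨_, rfl⟩
  have hMu : IsUnit M.det := isUnit_iff_ne_zero.2 (hM ▸ hd)
  have h1 : dl A C e S = W * M⁻¹ * Wᵀ := by
    rw [hM, hW]
    rfl
  have hl : ∀ j u, W j (Sum.inl u) = if j = e u then 1 else 0 := fun j u => by
    rw [hW]
    rfl
  have hr : ∀ j k, W j (Sum.inr k) = if j = k then mP e j else 0 := fun j k => by
    rw [hW]
    show diagonal (mP e) j k = _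
    rw [diagonal_apply]
  have h2 : mM (A + diagonal a) C (S + diagonal g) =
      M * (1 + M⁻¹ * (Wᵀ * (diagonal (dd e a g) * W))) := by
    rw [Matrix.mul_add, Matrix.mul_one, ← Matrix.mul_assoc M, mul_nonsing_inv _ hMu,
      Matrix.one_mul, hM]
    have h3 : Wᵀ * (diagonal (dd e a g) * W) =
        fromBlocks (diagonal a) 0 0 (diagonal g) := by
      ext x y
      rw [mul_apply]
      simp only [transpose_apply, diagonal_mul]
      rcases x with u | j
      · simp only [hl, ite_mul, one_mul, zero_mul, Finset.sum_ite_eq', Finset.mem_univ, if_true]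
        rcases y with v | k
        · rw [hl, dd_of he, fromBlocks_apply₁₁, diagonal_apply]
          by_cases huv : u = v
          · rw [if_pos huv, if_pos (by rw [huv]), mul_one]
          · rw [if_neg huv, if_neg (fun h => huv (he h)), mul_zero]
        · rw [hr, fromBlocks_apply₁₂, show mP e (e u) = 0 from if_pos ⟨u, rfl⟩, ite_self, mul_zero]
          rfl
      · simp only [hr, ite_mul, zero_mul, Finset.sum_ite_eq', Finset.mem_univ, if_true]
        rcases y with v | k
        · rw [hl, fromBlocks_apply₂₁]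
          by_cases hj : j = e v
          · rw [if_pos hj, hj, show mP e (e v) = 0 from if_pos ⟨v, rfl⟩, zero_mul]
            rfl
          · rw [if_neg hj, mul_zero, mul_zero]
            rfl
        · rw [hr, fromBlocks_apply₂₂, diagonal_apply]
          by_cases hjk : j = k
          · rw [if_pos hjk, if_pos hjk]
            by_cases hj : ∃ u, e u = j
            · rw [show mP e j = 0 from if_pos hj, zero_mul]
              obtain ⟨u, rfl⟩ := hj
              exact (hg u).symm
            · rw [show mP e j = 1 from if_neg hj, dd_not a g hj, one_mul, mul_one]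
          · rw [if_neg hjk, if_neg hjk, mul_zero, mul_zero]
    rw [h3]
    unfold mM
    rw [fromBlocks_add, add_zero, add_zero]
  rw [h2, h1, det_mul, det_one_add_mul_comm]
  have h4 : Wᵀ * (diagonal (dd e a g) * W) * M⁻¹ = Wᵀ * (diagonal (dd e a g) * W * M⁻¹) := by
    rw [Matrix.mul_assoc]
  rw [h4, det_one_add_mul_comm]
  have h5 : diagonal (dd e a g) * W * M⁻¹ * Wᵀ = diagonal (dd e a g) * (W * M⁻¹ * Wᵀ) := by
    rw [Matrix.mul_assoc, Matrix.mul_assoc, Matrix.mul_assoc]
  rw [h5]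
  exact ⟨fun h => right_ne_zero_of_mul h, fun h => mul_ne_zero (hM ▸ hd) h⟩

end mx

end Pool.Agent.L0h2.K
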