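import Pool.Agent.L0h2.K.Stm
import Pool.Agent.R413.SQ.BOX

/-! Joint law for several twists: the count in a box (after the file for project SQ). -/

set_option autoImplicit false
set_option linter.unusedVariables false

open scoped Classical

namespace Pool.Agent.L0h2.K.BOX

open Finset hiding mk
open Pool.Agent.R413.SQ (mk Gd Sp In)
open Pool.Agent.R413.SQ.BOX (Lb lb LN nr_symm sum_f ez0 ez0_coe gd_iff HB_sub)
open Pool.Agent.Y703.CQ (nr sg prs HB S_EQ ext GdA)

theorem nz_iff {ι : Type} [Fintype ι] {JZ : Finset ι} {R S₀ : Finset ℕ} {p : ι → ℕ}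
    (h : ℕ → ZMod 2) (hJ : ∀ i, Zc R (p i) ↔ i ∈ JZ) :
    Nz R S₀ (univ.image p) ↔ LN S₀ JZ (fun i => lb h S₀ (p i)) := by
  unfold Nz LN
  constructor
  · intro h w hw
    obtain ⟨u, hu1, hu2⟩ := hw
    obtain ⟨x, hx, hx1, hx2⟩ := h (ez0 w) ⟨u, u.2, hu1, by rw [ez0_coe]; exact hu2⟩
    rw [Finset.mem_image] at hx
    obtain ⟨i, -, rfl⟩ := hx
    refine ⟨i, (hJ i).1 hx1, ?_⟩
    rw [sum_f] at hx2
    intro h0
    apply hx2
    rw [← h0]
    refine Finset.sum_congr rfl fun u _ => ?_
    rw [ez0_coe]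
    rfl
  · intro h w hw
    obtain ⟨u, hu0, hu1, hu2⟩ := hw
    obtain ⟨i, hi, hi2⟩ := h (fun u => w u) ⟨⟨u, hu0⟩, hu1, hu2⟩
    refine ⟨p i, Finset.mem_image_of_mem _ (Finset.mem_univ _), (hJ i).2 hi, ?_⟩
    rw [sum_f]
    exact hi2

/-- **The count in a box.** -/
theorem t_BOXk (t : ℕ) : S_BOXk t := by
  intro hEQ hLA R T f b ι _ _ J1 JZ JP δ C X κ S₀ hκ hCX hHB hS₀ hC hCZ hCd hJZ hJP hδZ hδ1 hδ2
    hdis hne
  set cc : ℝ := t * (3 * 4 ^ S₀.card / 2 ^ JZ.card + ∑ l, 3 / 2 ^ (JP l).card) with hcc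
  obtain ⟨cP, hcP⟩ : ∃ cP : ℝ, cP = ∏ l, cv (b l) := ⟨_, rfl⟩
  rw [← hcP]
  set Re : ℝ := 2 ^ (prs J1).card * (κ * ∏ j, (X j : ℝ)) with hR
  have hcc0 : 0 ≤ cc := by positivity
  have hR0 : 0 ≤ Re := mul_nonneg (by positivity)
    (mul_nonneg hκ (Finset.prod_nonneg fun j _ => by positivity))
  -- facts on tuples
  have hinj : ∀ p ∈ Fintype.piFinset C, Function.Injective p := by
    intro p hp i j hij
    rw [Fintype.mem_piFinset] at hp
    by_contra hne
    have h1 := Finset.disjoint_left.1 (hdis i j hne) (hp i)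
    rw [hij] at h1
    exact h1 (hp j)
  have hJ : ∀ p ∈ Fintype.piFinset C, ∀ i, mk (p i) = 1 ↔ i ∈ J1 := by
    intro p hp i
    rw [Fintype.mem_piFinset] at hp
    exact (hC i _ (hp i)).2.2.2.symm
  have hd : ∀ p ∈ Fintype.piFinset C, ∀ i, p i ∉ S₀ := by
    intro p hp i
    rw [Fintype.mem_piFinset] at hp
    exact (hC i _ (hp i)).2.2.1
  have hpr : ∀ p ∈ Fintype.piFinset C, ∀ i, ((p i).Prime ∧ p i % 4 = 1) ∧ p i ≠ 2 := by
    intro p hp i
    rw [Fintype.mem_piFinset] at hp
    exact ⟨(hC i _ (hp i)).1, (hC i _ (hp i)).2.1⟩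
  have hZ : ∀ p ∈ Fintype.piFinset C, ∀ i, Zc R (p i) ↔ i ∈ JZ := by
    intro p hp i
    rw [Fintype.mem_piFinset] at hp
    exact (hCZ i _ (hp i)).symm
  have hD : ∀ p ∈ Fintype.piFinset C, ∀ i l, dR (T l) (p i) = δ i l := by
    intro p hp i l
    rw [Fintype.mem_piFinset] at hp
    exact hCd i _ (hp i) l
  have hU1 : (univ.filter fun u : S₀ => mk (u : ℕ) = 1).card ≤ S₀.card := by
    refine (Finset.card_le_univ _).trans ?_
    rw [Fintype.card_coe]
  -- the part with given labels
  have h1 : ∀ β : ι → Lb S₀, LN S₀ JZ β →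
      |(((Fintype.piFinset C).filter fun p => (fun i => lb f S₀ (p i)) = β ∧
          Pt t f T b (S₀ ∪ univ.image p)).card : ℝ) -
        cP * (((Fintype.piFinset C).filter fun p => (fun i => lb f S₀ (p i)) = β).card : ℝ)| ≤
      cc * (((Fintype.piFinset C).filter fun p => (fun i => lb f S₀ (p i)) = β).card : ℝ) + Re := by
    intro β hβ
    by_cases hemp : ((Fintype.piFinset C).filter fun p => (fun i => lb f S₀ (p i)) = β) = ∅
    · have he2 : ((Fintype.piFinset C).filter fun p => (fun i => lb f S₀ (p i)) = β ∧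
          Pt t f T b (S₀ ∪ univ.image p)) = ∅ := by
        rw [← Finset.filter_filter, hemp, Finset.filter_empty]
      rw [he2, hemp]
      simpa using hR0
    obtain ⟨p₀, hp₀⟩ := Finset.nonempty_iff_ne_empty.2 hemp
    rw [Finset.mem_filter] at hp₀
    obtain ⟨hp₀, hp₀β⟩ := hp₀
    set C' : ι → Finset ℕ := fun i => (C i).filter fun q => lb f S₀ q = β i with hC'
    have hpi : (Fintype.piFinset C).filter (fun p => (fun i => lb f S₀ (p i)) = β) =
        Fintype.piFinset C' := by
      ext p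
      simp only [Finset.mem_filter, Fintype.mem_piFinset, hC']
      constructor
      · rintro ⟨h2, h3⟩ i
        exact ⟨h2 i, congrFun h3 i⟩
      · intro h2
        exact ⟨fun i => (h2 i).1, funext fun i => (h2 i).2⟩
    have h2 := hLA S₀ ι (univ.filter fun u : S₀ => mk (u : ℕ) = 1) J1 hne
      (fun u v => nr u v) (fun u l => (β l).1 u) (fun k u => (β k).2.1 u)
      (fun l u => ff f (T l) u) (fun l k => (β k).2.2 + δ k l) JZ JP hJZ hJP
      (fun i l j hj => by rw [hδZ j hj i l])
      (fun i l hil j hj h => hδ1 i l hil j hj (add_left_cancel h))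
      (fun i l l' hil hll j hj => by rw [hδ2 i l l' hil hll j hj])
      (by
        intro u hu v hv
        exact nr_symm (hS₀ u u.2).1.1 (hS₀ u u.2).1.2 (hS₀ v v.2).1.1 (hS₀ v v.2).2)
      (by
        intro u hu k hk
        have h3 := congrFun hp₀β k
        rw [← h3]
        exact nr_symm (hS₀ u u.2).1.1 (hS₀ u u.2).1.2 (hpr p₀ hp₀ k).1.1 (hpr p₀ hp₀ k).2)
      (by
        rintro w hw0 ⟨u, hu⟩
        have hu8 : mk (u : ℕ) = 1 := by
          by_contra h8
          exact hu (hw0 u fun hu' => h8 (Finset.mem_filter.1 hu').2)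
        obtain ⟨k, hk, hk2⟩ := hβ w ⟨u, hu8, hu⟩
        refine ⟨k, hk, ?_⟩
        rw [Finset.sum_filter] at hk2
        intro h0
        apply hk2
        refine Eq.trans ?_ h0
        refine Finset.sum_congr rfl fun v _ => ?_
        split_ifs with h8
        · rfl
        · rw [hw0 v fun hv => h8 (Finset.mem_filter.1 hv).2, zero_mul]) b
    rw [← hcP] at h2
    obtain ⟨Q, hQ⟩ : ∃ Q : (prs J1 → ZMod 2) → Prop, Q = fun α => ∀ l, (GdA (univ.filter
      fun u : S₀ => mk (u : ℕ) = 1) J1 (fun u v : S₀ => nr u v) (fun (u : S₀) l => (β l).1 u)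
      (fun k (u : S₀) => (β k).2.1 u) (Pool.Agent.Y703.CQ.ext α) (fun u : S₀ => ff f (T l) u)
      (fun k => (β k).2.2 + δ k l) ↔ b l = true) := ⟨_, rfl⟩
    have hcardQ : ∀ (P : (prs J1 → ZMod 2) → Prop) (I : DecidablePred P), P = Q →
        (@Finset.filter _ P I univ).card = (univ.filter Q).card := by
      intro P I h
      subst h
      have e : I = fun a => Classical.propDecidable (P a) := Subsingleton.elim _ _
      rw [e]
    rw [hcardQ _ _ hQ.symm] at h2
    have h3 := hEQ ι J1 C' X κ hκ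
      (fun i => (Finset.card_le_card (Finset.filter_subset _ _)).trans (hCX i))
      (HB_sub hHB fun i q => lb f S₀ q = β i) Q
    have h4 : ((Fintype.piFinset C).filter fun p => (fun i => lb f S₀ (p i)) = β ∧
        Pt t f T b (S₀ ∪ univ.image p)) = ((Fintype.piFinset C').filter fun p =>
          Q fun e => nr (p e.1.1) (p e.1.2)) := by
      rw [← hpi, Finset.filter_filter]
      refine Finset.filter_congr fun p hp => ?_
      refine and_congr_right fun hl => ?_
      rw [hQ]
      refine forall_congr' fun l => ?_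
      rw [gd_iff (ff f (T l)) (hinj p hp) (hpr p hp) (hd p hp) (hJ p hp)]
      have hfe : (fun k => ff f (T l) (p k)) = fun k => (β k).2.2 + δ k l := by
        funext k
        unfold ff
        rw [hD p hp k l, ← hl]
        rfl
      rw [hfe]
      subst hl
      exact Iff.rfl
    have h5 : (((Fintype.piFinset C').card : ℕ) : ℝ) = ∏ j, ((C' j).card : ℝ) := by
      rw [Fintype.card_piFinset]
      push_cast
      rfl
    rw [h4, hpi, h5]
    have h2' : |((univ.filter Q).card : ℝ) / 2 ^ (prs J1).card - cP| ≤ cc := by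
      refine h2.trans ?_
      rw [hcc]
      refine mul_le_mul_of_nonneg_left ?_ (Nat.cast_nonneg _)
      refine add_le_add ?_ le_rfl
      refine div_le_div_of_nonneg_right ?_ (by positivity)
      refine mul_le_mul_of_nonneg_left ?_ (by norm_num)
      exact pow_le_pow_right₀ (by norm_num) hU1
    set n : ℝ := (((Fintype.piFinset C').filter fun p =>
          Q fun e => nr (p e.1.1) (p e.1.2)).card : ℝ) with hn
    set q : ℝ := ((univ.filter Q).card : ℝ) / 2 ^ (prs J1).card with hq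
    set P : ℝ := ∏ j, ((C' j).card : ℝ) with hP
    have hP0 : 0 ≤ P := Finset.prod_nonneg fun j _ => by positivity
    have h6 : |n - cP * P| ≤ |n - q * P| + |q - cP| * P := by
      have h7 : n - cP * P = (n - q * P) + (q - cP) * P := by ring
      have h8 : |(q - cP) * P| = |q - cP| * P := by rw [abs_mul, abs_of_nonneg hP0]
      rw [h7, ← h8]
      exact abs_add_le _ _
    have h7 : |q - cP| * P ≤ cc * P := mul_le_mul_of_nonneg_right h2' hP0
    have h8 : |n - q * P| ≤ Re := h3
    linarith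
  -- sum over the labels
  set LL := univ.filter (fun β : ι → Lb S₀ => LN S₀ JZ β) with hLL
  have hfib : ∀ T' : (ι → ℕ) → Prop,
      (((Fintype.piFinset C).filter fun p => Nz R S₀ (univ.image p) ∧ T' p).card : ℝ) =
      ∑ β ∈ LL, (((Fintype.piFinset C).filter fun p =>
        (fun i => lb f S₀ (p i)) = β ∧ T' p).card : ℝ) := by
    intro T'
    rw [Finset.card_eq_sum_card_fiberwise (f := fun (p : ι → ℕ) (i : ι) => lb f S₀ (p i))
      (t := LL) (by
        intro p hp
        rw [Finset.mem_coe, Finset.mem_filter] at hp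
        rw [Finset.mem_coe, hLL, Finset.mem_filter]
        exact ⟨Finset.mem_univ _, (nz_iff f (hZ p hp.1)).1 hp.2.1⟩)]
    push_cast
    refine Finset.sum_congr rfl fun β hβ => ?_
    rw [hLL, Finset.mem_filter] at hβ
    congr 2
    ext p
    simp only [Finset.mem_filter]
    constructor
    · rintro ⟨⟨h3, h4, h4'⟩, h5⟩
      exact ⟨h3, h5, h4'⟩
    · rintro ⟨h3, h4, h5⟩
      refine ⟨⟨h3, ?_, h5⟩, h4⟩
      rw [nz_iff f (hZ p h3), h4]
      exact hβ.2
  have hf1 := hfib fun p => Pt t f T b (S₀ ∪ univ.image p)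
  have hf2 := hfib fun _ => True
  simp only [and_true] at hf2
  rw [hf1, hf2, Finset.mul_sum, ← Finset.sum_sub_distrib]
  refine (Finset.abs_sum_le_sum_abs _ _).trans ?_
  refine (Finset.sum_le_sum fun β hβ => h1 β (Finset.mem_filter.1 hβ).2).trans ?_
  rw [Finset.sum_add_distrib, ← Finset.mul_sum, Finset.sum_const, nsmul_eq_mul]
  have h5 : ((LL.card : ℕ) : ℝ) ≤ 2 ^ ((2 * S₀.card + 1) * Fintype.card ι) := by
    have h6 : LL.card ≤ Fintype.card (ι → Lb S₀) := Finset.card_le_univ _
    rw [Fintype.card_fun, Fintype.card_prod, Fintype.card_prod, Fintype.card_fun, ZMod.card,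
      Fintype.card_coe, ← pow_succ, ← pow_add, ← pow_mul] at h6
    have h7 : (S₀.card + (S₀.card + 1)) * Fintype.card ι = (2 * S₀.card + 1) * Fintype.card ι := by
      ring
    rw [h7] at h6
    exact_mod_cast h6
  have h6 := mul_le_mul_of_nonneg_right h5 hR0
  rw [pow_add, mul_assoc]
  linarith

end Pool.Agent.L0h2.K.BOX
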