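import Pool.Agent.L0h2.K.Stm
import Pool.Agent.R413.SQ.FEW
import Pool.Agent.Y405.CQ.MER

/-!
# Joint law for several twists: few sets have few large primes in a class
-/

set_option autoImplicit false
set_option linter.unusedVariables false

open scoped Classical

namespace Pool.Agent.L0h2.K.FEW

open Finset Filter
open Pool.Agent.Y703.CX (sm la eL zz S_SIE)
open Pool.Agent.R413.SQ (SS Sp In)
open Pool.Agent.R413.SQ.FEW (pr SS_mem moment LL mem_LL LL_sub mem_LL_of)
open Pool.Agent.Y495.CX.Few (PN euler prod_pos' le_of_mem_prod mert eL_tendsto log_small zz_ge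
  loglog_zz rpow_eq)

/-- sets with many small primes -/
lemma part1 (N : ℝ) (hN : 0 < N) : ∃ C : ℝ, 0 ≤ C ∧ ∀ᶠ X : ℕ in atTop,
    (((SS ∅ ∅ X).filter fun S => eL X / N < ((sm (zz X) S).card : ℝ)).card : ℝ) ≤
      C * X * Real.exp (-(4 / 5) * eL X) := by
  obtain ⟨C, hC0, hC⟩ := mert
  set κ : ℝ := Real.exp N with hκ
  have κ0 : 0 < κ := Real.exp_pos _
  refine ⟨Real.exp (κ * C), (Real.exp_pos _).le, ?_⟩
  filter_upwards [eL_tendsto.eventually (log_small (3 * κ) (1 / 5) (by norm_num)),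
    eL_tendsto.eventually (eventually_ge_atTop 2)] with X h1 h2
  have h3 := moment X (zz X) (SS ∅ ∅ X)
    (fun S hS => ⟨fun p hp => pr ((SS_mem hS).1 p hp), (SS_mem hS).2⟩) κ κ0.le
  have h4 := hC (zz X) (zz_ge h2)
  have h5 := loglog_zz h2
  have h6 : (((SS ∅ ∅ X).filter fun S => eL X / N < ((sm (zz X) S).card : ℝ)).card : ℝ) *
      Real.exp (eL X) ≤ ∑ S ∈ SS ∅ ∅ X, κ ^ (sm (zz X) S).card := by
    rw [← nsmul_eq_mul, ← sum_const]
    refine le_trans ?_ (sum_le_sum_of_subset_of_nonneg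
      (filter_subset (fun S => eL X / N < ((sm (zz X) S).card : ℝ)) (SS ∅ ∅ X))
      fun S _ _ => by positivity)
    refine sum_le_sum fun S hS => ?_
    rw [mem_filter] at hS
    rw [hκ, ← Real.exp_nat_mul]
    apply Real.exp_le_exp.2
    have h7 := hS.2
    rw [div_lt_iff₀ hN] at h7
    exact h7.le
  have h7 := h6.trans h3
  have h8 : κ * ∑ p ∈ PN (zz X), (1 : ℝ) / p ≤ κ * C + 1 / 5 * eL X := by
    have : κ * ∑ p ∈ PN (zz X), (1 : ℝ) / p ≤ κ * (3 * Real.log (eL X) + C) :=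
      mul_le_mul_of_nonneg_left (by linarith) κ0.le
    nlinarith
  have h9 : (X : ℝ) * Real.exp (κ * ∑ p ∈ PN (zz X), (1 : ℝ) / p) ≤
      X * (Real.exp (κ * C) * Real.exp (1 / 5 * eL X)) := by
    rw [← Real.exp_add]
    exact mul_le_mul_of_nonneg_left (Real.exp_le_exp.2 h8) (Nat.cast_nonneg _)
  have h10 := h7.trans h9
  have h11 : (Real.exp (κ * C) * X * Real.exp (-(4 / 5) * eL X)) * Real.exp (eL X) =
      X * (Real.exp (κ * C) * Real.exp (1 / 5 * eL X)) := by
    have : Real.exp (1 / 5 * eL X) = Real.exp (-(4 / 5) * eL X) * Real.exp (eL X) := by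
      rw [← Real.exp_add]
      congr 1
      ring
    rw [this]
    ring
  rw [← h11] at h10
  exact le_of_mul_le_mul_right h10 (Real.exp_pos _)

/-- the weight of a prime -/
noncomputable def wt (z q c p : ℕ) : ℝ := if ¬ p ≤ z ∧ p % q = c then 1 / 4 else 1

lemma wt_pos (z q c p : ℕ) : 0 ≤ wt z q c p := by
  unfold wt
  split_ifs <;> norm_num

/-- the logarithmic density of a family -/
lemma LL_sum (X z q c : ℕ) (hc : ∀ p, p % q = c → p % 4 = 1) (Q : Finset ℕ → Prop) (M : ℝ)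
    (hM : 0 ≤ M) (h1w : ∀ S ∈ LL ∅ X Q, 1 ≤ M * ∏ p ∈ S, wt z q c p) :
    ∑ S ∈ LL ∅ X Q, (1 : ℝ) / ((∏ p ∈ S, p : ℕ) : ℝ) ≤ M *
      Real.exp (∑ p ∈ PN z, (1 : ℝ) / p + ∑ p ∈ (PN X).filter (fun p => p % 4 = 1), (1 : ℝ) / p -
        3 / 4 * ∑ p ∈ (PN X).filter (fun p => p % q = c), (1 : ℝ) / p) := by
  have h1 : ∀ S ∈ LL ∅ X Q, (1 : ℝ) / ((∏ p ∈ S, p : ℕ) : ℝ) ≤
      M * ∏ p ∈ S, (wt z q c p * (1 / p)) := by
    intro S hS
    have h2 := h1w S hS
    have h3 : (0 : ℝ) ≤ ∏ p ∈ S, (1 : ℝ) / p := prod_nonneg fun p _ => by positivity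
    have h4 : (1 : ℝ) / ((∏ p ∈ S, p : ℕ) : ℝ) = ∏ p ∈ S, (1 : ℝ) / p := by
      rw [prod_div_distrib, prod_const_one]
      push_cast
      rfl
    rw [h4, prod_mul_distrib]
    calc ∏ p ∈ S, (1 : ℝ) / p = 1 * ∏ p ∈ S, (1 : ℝ) / p := (one_mul _).symm
      _ ≤ (M * ∏ p ∈ S, wt z q c p) * ∏ p ∈ S, (1 : ℝ) / p :=
          mul_le_mul_of_nonneg_right h2 h3
      _ = _ := by ring
  refine (sum_le_sum h1).trans ?_
  rw [← mul_sum]
  apply mul_le_mul_of_nonneg_left _ hM
  have hnn : ∀ p : ℕ, 0 ≤ wt z q c p * (1 / (p : ℝ)) := fun p =>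
    mul_nonneg (wt_pos _ _ _ _) (by positivity)
  have h5 : ∑ S ∈ LL ∅ X Q, ∏ p ∈ S, (wt z q c p * (1 / (p : ℝ))) ≤
      ∑ S ∈ ((PN X).filter fun p => p % 4 = 1).powerset, ∏ p ∈ S, (wt z q c p * (1 / (p : ℝ))) := by
    refine sum_le_sum_of_subset_of_nonneg ?_ fun S _ _ => prod_nonneg fun p _ => hnn p
    intro S hS
    rw [mem_LL] at hS
    rw [mem_powerset]
    intro p hp
    have h6 := pr (hS.2.1 p hp)
    rw [mem_filter, mem_filter, mem_Icc]
    exact ⟨⟨⟨h6.one_lt.le, le_of_mem_prod (fun p hp => pr (hS.2.1 p hp)) hS.2.2.1 hp⟩, h6⟩,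
      (Pool.Agent.R413.SQ.pr1 (hS.2.1 p hp)).2⟩
  refine h5.trans ((euler _ _ fun p _ => hnn p).trans ?_)
  apply Real.exp_le_exp.2
  have h6 : ∀ p ∈ (PN X).filter (fun p => p % 4 = 1), wt z q c p * (1 / (p : ℝ)) ≤
      (if p ≤ z then (1 : ℝ) / p else 0) + (1 : ℝ) / p -
        3 / 4 * (if p % q = c then (1 : ℝ) / p else 0) := by
    intro p hp
    have hp0 : (0 : ℝ) ≤ 1 / p := by positivity
    unfold wt
    by_cases hpz : p ≤ z
    · rw [if_neg (fun h => h.1 hpz), if_pos hpz]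
      split_ifs <;> linarith
    · rw [if_neg hpz]
      by_cases hpc : p % q = c
      · rw [if_pos ⟨hpz, hpc⟩, if_pos hpc]
        linarith
      · rw [if_neg (fun h => hpc h.2), if_neg hpc]
        linarith
  refine (sum_le_sum h6).trans ?_
  rw [sum_sub_distrib, sum_add_distrib, ← mul_sum, ← sum_filter, ← sum_filter]
  have h7 : ∑ p ∈ ((PN X).filter (fun p => p % 4 = 1)).filter (fun p => p ≤ z), (1 : ℝ) / p ≤
      ∑ p ∈ PN z, (1 : ℝ) / p := by
    refine sum_le_sum_of_subset_of_nonneg ?_ fun p _ _ => by positivity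
    intro p hp
    rw [mem_filter, mem_filter, mem_filter, mem_Icc] at hp
    rw [mem_filter, mem_Icc]
    exact ⟨⟨hp.1.1.1.1, hp.2⟩, hp.1.1.2⟩
  have h8 : ((PN X).filter (fun p => p % 4 = 1)).filter (fun p => p % q = c) =
      (PN X).filter (fun p => p % q = c) := by
    ext p
    constructor
    · intro h
      have h1 := mem_filter.1 h
      exact mem_filter.2 ⟨(mem_filter.1 h1.1).1, h1.2⟩
    · intro h
      have h1 := mem_filter.1 h
      exact mem_filter.2 ⟨mem_filter.2 ⟨h1.1, hc p h1.2⟩, h1.2⟩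
  rw [h8]
  linarith

/-- sets with few large primes in a class -/
lemma part2 (hs : S_SIE) {R : Finset ℕ} (hR : ∀ r ∈ R, r.Prime ∧ r % 4 = 1) {c : ℕ}
    (hcq : c < qq R) (hcop : Nat.Coprime c (qq R)) (hc4 : c % 4 = 1) :
    ∃ C : ℝ, 0 ≤ C ∧ ∀ᶠ X : ℕ in atTop,
    ((LL ∅ X fun S => ((la (zz X) S).filter fun p => p % qq R = c).card ≤
      ⌊eL X / (4 * qq R)⌋₊).card : ℝ) ≤ C * X * Real.exp ((-(1 / 2) - eta R) * eL X) := by
  have hq0 : (0 : ℝ) < qq R := by exact_mod_cast qq_pos hR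
  obtain ⟨C, hC0, hC⟩ := mert
  obtain ⟨C₁, hC₁0, hC₁⟩ := Pool.Agent.Y405.CQ.mertens_ap 4 (by norm_num) 1 (by norm_num) (by norm_num)
  obtain ⟨C₂, hC₂0, hC₂⟩ := Pool.Agent.Y405.CQ.mertens_ap (qq R) (qq_pos hR) c hcq hcop
  obtain ⟨C', hC'1, hC'⟩ := hs
  have ht : Nat.totient 4 = 2 := by decide
  have hc : ∀ p, p % qq R = c → p % 4 = 1 := fun p hp => by
    rw [← mod4 R p, hp, hc4]
  have hl4 : Real.log 4 ≤ 1.4 := by
    have h1 : (4 : ℝ) = 2 ^ 2 := by norm_num
    rw [h1, Real.log_pow]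
    have := Real.log_two_lt_d9
    push_cast
    linarith
  have hphi : (0 : ℝ) < Nat.totient (qq R) := by
    exact_mod_cast Nat.totient_pos.2 (qq_pos hR)
  have hphi2 : 1 / (qq R : ℝ) ≤ 1 / (Nat.totient (qq R) : ℝ) :=
    one_div_le_one_div_of_le hphi (by exact_mod_cast Nat.totient_le _)
  obtain ⟨ι, hι⟩ : ∃ ι : ℝ, ι = 1 / (qq R : ℝ) := ⟨_, rfl⟩
  have hι0 : 0 < ι := by rw [hι]; positivity
  rw [← hι] at hphi2
  refine ⟨C' * Real.exp (C + C₁ + 3 / 4 * C₂), by positivity, ?_⟩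
  filter_upwards [eL_tendsto.eventually (log_small 3 (ι / 4) (by positivity)),
    eL_tendsto.eventually (eventually_ge_atTop 2), eventually_ge_atTop 3] with X h1 h2 h3
  set l := eL X with hl
  have h4 := hC (zz X) (zz_ge h2)
  have h5 := loglog_zz h2
  have h6 := (abs_le.1 (hC₁ X h3)).2
  have h6' := (abs_le.1 (hC₂ X h3)).1
  rw [ht] at h6
  rw [← hl] at h5
  have e6 : (Icc 1 X).filter (fun p => p.Prime ∧ p % 4 = 1) = (PN X).filter (fun p => p % 4 = 1) := by
    unfold PN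
    rw [filter_filter]
  have e6' : (Icc 1 X).filter (fun p => p.Prime ∧ p % qq R = c) =
      (PN X).filter (fun p => p % qq R = c) := by
    unfold PN
    rw [filter_filter]
  rw [e6] at h6
  rw [e6'] at h6'
  push_cast at h6
  change _ - 1 / 2 * l ≤ C₁ at h6
  change _ ≤ _ - 1 / (Nat.totient (qq R) : ℝ) * l at h6'
  obtain ⟨Q, hQd⟩ : ∃ Q : Finset ℕ → Prop, Q = fun S =>
    ((la (zz X) S).filter fun p => p % qq R = c).card ≤ ⌊l / (4 * qq R)⌋₊ := ⟨_, rfl⟩
  have hQ : ∀ S, Q S → ∀ T, T ⊆ S → Q T := by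
    intro S h T hT
    rw [hQd] at h ⊢
    refine (card_le_card (filter_subset_filter _ ?_)).trans h
    unfold la
    exact filter_subset_filter _ hT
  rw [← hQd]
  have h7 := hC' X (LL ∅ X Q) (by omega)
    (fun S hS => ⟨fun p hp => pr ((mem_LL.1 hS).2.1 p hp), (mem_LL.1 hS).2.2.1⟩)
    (fun S hS T hT => LL_sub hQ hS hT)
  have h8 := LL_sum X (zz X) (qq R) c hc Q (Real.exp (Real.log 4 / (4 * qq R) * l))
    (Real.exp_pos _).le (by
      intro S hS
      rw [mem_LL, hQd] at hS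
      unfold wt
      rw [← prod_filter, prod_const]
      have g1 : (S.filter fun p => ¬ p ≤ zz X ∧ p % qq R = c).card ≤ ⌊l / (4 * qq R)⌋₊ := by
        refine (card_le_card ?_).trans hS.2.2.2
        intro p hp
        rw [mem_filter] at hp
        unfold la
        rw [mem_filter, mem_filter]
        exact ⟨⟨hp.1, hp.2.1⟩, hp.2.2⟩
      have g2 : (1 / 4 : ℝ) ^ ⌊l / (4 * qq R)⌋₊ ≤
          (1 / 4 : ℝ) ^ (S.filter fun p => ¬ p ≤ zz X ∧ p % qq R = c).card :=
        pow_le_pow_of_le_one (by norm_num) (by norm_num) g1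
      have g3 : Real.exp (-(Real.log 4 / (4 * qq R) * l)) ≤ (1 / 4 : ℝ) ^ ⌊l / (4 * qq R)⌋₊ := by
        have e1 : (1 / 4 : ℝ) = Real.exp (-Real.log 4) := by
          rw [Real.exp_neg, Real.exp_log (by norm_num)]
          norm_num
        rw [e1, ← Real.exp_nat_mul]
        apply Real.exp_le_exp.2
        have e2 : ((⌊l / (4 * qq R)⌋₊ : ℕ) : ℝ) ≤ l / (4 * qq R) :=
          Nat.floor_le (div_nonneg (by linarith) (by positivity))
        have e4 : 0 ≤ Real.log 4 := Real.log_nonneg (by norm_num)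
        have e5 := mul_le_mul_of_nonneg_right e2 e4
        have e7 : l / (4 * qq R) * Real.log 4 = Real.log 4 / (4 * qq R) * l := by ring
        rw [e7] at e5
        linarith
      calc (1 : ℝ) = Real.exp (Real.log 4 / (4 * qq R) * l) *
            Real.exp (-(Real.log 4 / (4 * qq R) * l)) := by
            rw [← Real.exp_add, add_neg_cancel, Real.exp_zero]
        _ ≤ _ := mul_le_mul_of_nonneg_left (g3.trans g2) (Real.exp_pos _).le)
  have hlX : Real.log X = Real.exp l := by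
    have := rpow_eq (X := X) h2 1
    rwa [Real.rpow_one, one_mul] at this
  rw [hlX] at h7
  have h12 : Real.exp (Real.log 4 / (4 * qq R) * l) * Real.exp (∑ p ∈ PN (zz X), (1 : ℝ) / p +
      ∑ p ∈ (PN X).filter (fun p => p % 4 = 1), (1 : ℝ) / p -
        3 / 4 * ∑ p ∈ (PN X).filter (fun p => p % qq R = c), (1 : ℝ) / p) ≤
      Real.exp (C + C₁ + 3 / 4 * C₂) * Real.exp ((-(1 / 2) - eta R + 1) * l) := by
    rw [← Real.exp_add, ← Real.exp_add]
    apply Real.exp_le_exp.2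
    have e1 : ∑ p ∈ PN (zz X), (1 : ℝ) / p ≤ 3 * Real.log l + C := by linarith
    have e2 : Real.log 4 / (4 * qq R) * l ≤ 0.35 * ι * l := by
      refine mul_le_mul_of_nonneg_right ?_ (by linarith)
      have : Real.log 4 / (4 * qq R) = Real.log 4 / 4 * ι := by
        rw [hι]
        field_simp
      rw [this]
      refine mul_le_mul_of_nonneg_right ?_ hι0.le
      linarith
    have e3 : ι * l ≤ 1 / (Nat.totient (qq R) : ℝ) * l :=
      mul_le_mul_of_nonneg_right hphi2 (by linarith)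
    have e4 : eta R = ι / 8 := by
      unfold eta
      rw [hι]
      field_simp
    rw [e4]
    have e5 : 0 < ι * l := mul_pos hι0 (by linarith)
    nlinarith
  have h13 : ((LL ∅ X Q).card : ℝ) * Real.exp l ≤
      C' * X * (Real.exp (C + C₁ + 3 / 4 * C₂) * Real.exp ((-(1 / 2) - eta R + 1) * l)) := by
    refine h7.trans ?_
    exact mul_le_mul_of_nonneg_left (h8.trans h12) (by positivity)
  have h14 : (C' * Real.exp (C + C₁ + 3 / 4 * C₂) * X * Real.exp ((-(1 / 2) - eta R) * l)) *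
      Real.exp l = C' * X * (Real.exp (C + C₁ + 3 / 4 * C₂) *
        Real.exp ((-(1 / 2) - eta R + 1) * l)) := by
    have : Real.exp ((-(1 / 2) - eta R + 1) * l) =
        Real.exp ((-(1 / 2) - eta R) * l) * Real.exp l := by
      rw [← Real.exp_add]
      congr 1
      ring
    rw [this]
    ring
  rw [← h14] at h13
  exact le_of_mul_le_mul_right h13 (Real.exp_pos _)

theorem t_FEWk : S_FEWk := by
  intro hs R hR c V hcq hcop hc4
  have hq1 : (28 : ℝ) ≤ qq R := by
    have h1 : 1 ≤ ∏ r ∈ R, r := prod_pos fun r hr => (hR r hr).1.pos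
    have h2 : 28 ≤ qq R := by
      unfold qq
      omega
    exact_mod_cast h2
  have hq0 : (0 : ℝ) < qq R := by linarith
  obtain ⟨C₁, hC₁, h1⟩ := part1 (16 * qq R) (by positivity)
  obtain ⟨C₂, hC₂, h2⟩ := part2 hs hR hcq hcop hc4
  have h4 := (h1.and h2).and
    (eL_tendsto.eventually (eventually_ge_atTop (max 2 (8 * qq R * (V : ℝ)))))
  rw [eventually_atTop] at h4
  obtain ⟨X₀, hX₀⟩ := h4
  refine ⟨C₁ + C₂, X₀, fun X hX => ?_⟩
  obtain ⟨⟨h5, h6⟩, h8⟩ := hX₀ X hX
  have h9 : 2 ≤ eL X := (le_max_left _ _).trans h8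
  have h10 : 8 * qq R * (V : ℝ) ≤ eL X := (le_max_right _ _).trans h8
  rw [rpow_eq h9]
  have h11 : ((SR R X).filter fun S => ((la (zz X) S).filter fun p => p % qq R = c).card ≤
      2 * (sm (zz X) S).card + V) ⊆
      ((SS ∅ ∅ X).filter fun S => eL X / (16 * qq R) < ((sm (zz X) S).card : ℝ)) ∪
        (LL ∅ X fun S => ((la (zz X) S).filter fun p => p % qq R = c).card ≤
          ⌊eL X / (4 * qq R)⌋₊) := by
    intro S hS
    rw [mem_filter] at hS
    have hSS : S ∈ SS ∅ ∅ X := (mem_filter.1 hS.1).1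
    rw [mem_union, mem_filter]
    by_cases hc : eL X / (16 * qq R) < ((sm (zz X) S).card : ℝ)
    · exact Or.inl ⟨hSS, hc⟩
    · right
      rw [not_lt] at hc
      refine mem_LL_of hSS ?_
      apply Nat.le_floor
      have h12 : ((((la (zz X) S).filter fun p => p % qq R = c).card : ℕ) : ℝ) ≤
          2 * ((sm (zz X) S).card : ℝ) + V := by exact_mod_cast hS.2
      have h13 : (V : ℝ) ≤ eL X / (8 * qq R) := by
        rw [le_div_iff₀ (by positivity)]
        linarith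
      have h14 : 2 * (eL X / (16 * qq R)) + eL X / (8 * qq R) = eL X / (4 * qq R) := by
        field_simp
        norm_num
      linarith
  have h12 : (((SR R X).filter fun S => ((la (zz X) S).filter fun p => p % qq R = c).card ≤
      2 * (sm (zz X) S).card + V).card : ℝ) ≤
      (((SS ∅ ∅ X).filter fun S => eL X / (16 * qq R) < ((sm (zz X) S).card : ℝ)).card : ℝ) +
      ((LL ∅ X fun S => ((la (zz X) S).filter fun p => p % qq R = c).card ≤
        ⌊eL X / (4 * qq R)⌋₊).card : ℝ) := by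
    exact_mod_cast (card_le_card h11).trans (card_union_le _ _)
  have he : eta R ≤ 3 / 10 := by
    unfold eta
    rw [div_le_iff₀ (by positivity)]
    linarith
  have h13 : C₁ * X * Real.exp (-(4 / 5) * eL X) ≤
      C₁ * X * Real.exp ((-(1 / 2) - eta R) * eL X) := by
    apply mul_le_mul_of_nonneg_left _ (by positivity)
    apply Real.exp_le_exp.2
    apply mul_le_mul_of_nonneg_right _ (by linarith)
    linarith
  refine h12.trans ((add_le_add (h5.trans h13) h6).trans (le_of_eq ?_))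
  ring

end Pool.Agent.L0h2.K.FEW
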