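import Pool.Agent.L0h2.K.Stm
import Pool.Agent.Y475.CQ.HalA
import Pool.Agent.R413.SQ.HAL

/-!
# Joint law for several twists: the logarithmic density for a quadratic character
-/

set_option autoImplicit false
set_option linter.unusedVariables false

open scoped Classical

namespace Pool.Agent.L0h2.K.HAL

open Finset hiding mk
open Pool.Agent.R413.SQ (mk)
open Pool.Agent.R413.SQ.HAL (c0 cJ c0_mod cJ_mod leg)
open Pool.Agent.Y475.CQ (tsum_le zeta_le part_le sum_zero pow_small main_le)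
open Pool.Agent.Y703.CQ (nr)

/-- the characters: `0` for the product, `4` for the character modulo four -/
noncomputable def cc (M : ℕ) (i : ℕ) : ℕ →* ℝ := if i = 0 then cJ M else if i = 4 then c0 else cJ i

/-- the set of the characters -/
def UU (R : Finset ℕ) : Finset ℕ := insert 4 (insert 7 R)

theorem cJ_val (M n : ℕ) : cJ M n = 0 ∨ cJ M n = 1 ∨ cJ M n = -1 := by
  rcases jacobiSym.trichotomy (n : ℤ) M with h | h | h
  · left; show ((jacobiSym (n : ℤ) M : ℤ) : ℝ) = 0; rw [h]; simp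
  · right; left; show ((jacobiSym (n : ℤ) M : ℤ) : ℝ) = 1; rw [h]; simp
  · right; right; show ((jacobiSym (n : ℤ) M : ℤ) : ℝ) = -1; rw [h]; simp

theorem c0_val (n : ℕ) : c0 n = 0 ∨ c0 n = 1 ∨ c0 n = -1 := by
  show ((ZMod.χ₄ (n : ZMod 4) : ℤ) : ℝ) = 0 ∨ _ = 1 ∨ _ = -1
  have : ∀ z : ZMod 4, ZMod.χ₄ z = 0 ∨ ZMod.χ₄ z = 1 ∨ ZMod.χ₄ z = -1 := by decide
  rcases this (n : ZMod 4) with h | h | h
  · left; rw [h]; simp
  · right; left; show ((ZMod.χ₄ (n : ZMod 4) : ℤ) : ℝ) = 1; rw [h]; simp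
  · right; right; show ((ZMod.χ₄ (n : ZMod 4) : ℤ) : ℝ) = -1; rw [h]; simp

theorem cc_val (M i n : ℕ) : cc M i n = 0 ∨ cc M i n = 1 ∨ cc M i n = -1 := by
  unfold cc
  split_ifs
  · exact cJ_val M n
  · exact c0_val n
  · exact cJ_val i n

/-- the modulus of a character -/
def md (M i : ℕ) : ℕ := if i = 0 then M else i

theorem cc_mod (M i a b : ℕ) (h : a ≡ b [MOD md M i]) : cc M i a = cc M i b := by
  unfold cc
  unfold md at h
  by_cases h0 : i = 0
  · rw [if_pos h0] at h ⊢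
    exact cJ_mod M a b h
  · rw [if_neg h0] at h ⊢
    by_cases h4 : i = 4
    · rw [if_pos h4]
      rw [h4] at h
      exact c0_mod a b h
    · rw [if_neg h4]
      exact cJ_mod i a b h

theorem ccV_mod (M : ℕ) (V : Finset ℕ) (a b : ℕ) (h : ∀ i ∈ V, a ≡ b [MOD md M i]) :
    (∏ i ∈ V, cc M i) a = (∏ i ∈ V, cc M i) b := by
  rw [MonoidHom.finsetProd_apply, MonoidHom.finsetProd_apply]
  exact prod_congr rfl fun i hi => cc_mod M i a b (h i hi)

theorem abs_cc (M : ℕ) (V : Finset ℕ) (n : ℕ) : |(∏ i ∈ V, cc M i) n| ≤ 1 := by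
  rw [MonoidHom.finsetProd_apply, abs_prod]
  refine prod_le_one (fun _ _ => abs_nonneg _) fun i _ => ?_
  rcases cc_val M i n with h | h | h <;> rw [h] <;> norm_num

/-- the product is `-1` if one character is `-1` and the others are one -/
theorem prod_neg (M : ℕ) (V : Finset ℕ) (j : ℕ) (hj : j ∈ V) (k : ℕ)
    (h1 : cc M j k = -1) (h2 : ∀ i ∈ V, i ≠ j → k ≡ 1 [MOD md M i]) :
    (∏ i ∈ V, cc M i) k = -1 := by
  rw [MonoidHom.finsetProd_apply, prod_eq_single_of_mem j hj fun i hi hij => by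
    rw [cc_mod M i k 1 (h2 i hi hij), map_one], h1]

/-- a nonresidue modulo a prime which is one modulo the rest -/
theorem exk (v Q : ℕ) (hv : v.Prime) (hv2 : v ≠ 2) (hc : Nat.Coprime v Q) :
    ∃ k : ℕ, k ≡ 1 [MOD Q] ∧ Nat.Coprime k (v * Q) ∧ jacobiSym (k : ℤ) v = -1 := by
  have hvf : Fact v.Prime := ⟨hv⟩
  obtain ⟨g, hg⟩ := FiniteField.exists_nonsquare (F := ZMod v) (by rw [ZMod.ringChar_zmod_n]; exact hv2)
  obtain ⟨k, hk1, hk2⟩ := Nat.chineseRemainder hc g.val 1
  have hkv : ((k : ℕ) : ZMod v) = g := by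
    rw [(ZMod.natCast_eq_natCast_iff k g.val v).2 hk1, ZMod.natCast_zmod_val]
  refine ⟨k, hk2, ?_, ?_⟩
  · refine Nat.Coprime.mul_right ?_ ?_
    · rw [Nat.coprime_comm, Nat.Prime.coprime_iff_not_dvd hv]
      intro h
      rw [← ZMod.natCast_eq_zero_iff, hkv] at h
      exact hg (h ▸ IsSquare.zero)
    · have := hk2.gcd_eq
      rw [Nat.gcd_one_left] at this
      exact this
  · rw [leg, legendreSym.eq_neg_one_iff, Int.cast_natCast, hkv]
    exact hg

section main

variable {R W : Finset ℕ} (hR : ∀ r ∈ R, r.Prime ∧ r % 4 = 1)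
  (hW : ∀ u ∈ W, u.Prime ∧ u % 4 = 1) (hd : Disjoint W R)

theorem cop_of {v : ℕ} (hv : v.Prime) (hv4 : v % 4 = 1) {A : Finset ℕ}
    (hA : ∀ r ∈ A, r.Prime ∧ r % 4 = 1) (hvA : v ∉ A) : Nat.Coprime v (28 * ∏ r ∈ A, r) := by
  refine Nat.Coprime.mul_right ?_ ?_
  · rw [Nat.Prime.coprime_iff_not_dvd hv]
    intro h
    have h1 : v ∣ 2 ^ 2 * 7 := by simpa using h
    rcases (Nat.Prime.dvd_mul hv).1 h1 with h2 | h2
    · have := (Nat.prime_dvd_prime_iff_eq hv Nat.prime_two).1 (hv.dvd_of_dvd_pow h2)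
      omega
    · have := (Nat.prime_dvd_prime_iff_eq hv (by norm_num)).1 h2
      omega
  · rw [Nat.coprime_prod_right_iff]
    intro u hu
    exact (Nat.coprime_primes hv (hA u hu).1).2 fun h => hvA (h ▸ hu)

theorem mem_UU {R : Finset ℕ} {i : ℕ} : i ∈ UU R ↔ i = 4 ∨ i = 7 ∨ i ∈ R := by
  unfold UU
  rw [mem_insert, mem_insert]

include hR in
/-- a number on which a product of characters of the fixed part is `-1` -/
theorem small_V (M : ℕ) (V : Finset ℕ) (hV : V ⊆ UU R) (hVn : V.Nonempty) :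
    ∃ k, Nat.Coprime k (qq R) ∧ (∏ i ∈ V, cc M i) k = -1 := by
  have hRp : ∀ r ∈ R, r ≠ 0 ∧ r ≠ 4 ∧ r ≠ 7 := fun r hr => by
    have := (hR r hr).2
    refine ⟨?_, ?_, ?_⟩ <;> rintro rfl <;> omega
  have h7 : Nat.Coprime 7 (4 * ∏ r ∈ R, r) := by
    refine Nat.Coprime.mul_right (by norm_num) ?_
    rw [Nat.coprime_prod_right_iff]
    intro u hu
    exact (Nat.coprime_primes (by norm_num) (hR u hu).1).2 fun h => (hRp u hu).2.2 h.symm
  have h4 : Nat.Coprime 4 (7 * ∏ r ∈ R, r) := by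
    refine Nat.Coprime.mul_right (by norm_num) ?_
    rw [Nat.coprime_prod_right_iff]
    intro u hu
    have h1 : Nat.Coprime 2 u := (Nat.coprime_primes Nat.prime_two (hR u hu).1).2 fun h => by
      have := (hR u hu).2
      omega
    have : Nat.Coprime (2 ^ 2) u := h1.pow_left 2
    exact this
  by_cases hr : ∃ r ∈ V, r ∈ R
  · obtain ⟨r, hrV, hrR⟩ := hr
    obtain ⟨k, hk1, hk2, hk3⟩ := exk r (28 * ∏ x ∈ R.erase r, x) (hR r hrR).1
      (by rintro rfl; exact absurd (hR 2 hrR).2 (by norm_num))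
      (cop_of (hR r hrR).1 (hR r hrR).2 (fun x hx => hR x (mem_of_mem_erase hx)) (notMem_erase r R))
    have hq : qq R = r * (28 * ∏ x ∈ R.erase r, x) := by
      unfold qq
      rw [← mul_prod_erase R (fun x => x) hrR]
      ring
    refine ⟨k, by rw [hq]; exact hk2, prod_neg M V r hrV k ?_ fun i hi hir => ?_⟩
    · unfold cc
      rw [if_neg (hRp r hrR).1, if_neg (hRp r hrR).2.1]
      show ((jacobiSym (k : ℤ) r : ℤ) : ℝ) = -1
      rw [hk3]; simp
    · have hi' := mem_UU.1 (hV hi)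
      have hi0 : i ≠ 0 := by
        rcases hi' with h | h | h
        · omega
        · omega
        · exact (hRp i h).1
      unfold md
      rw [if_neg hi0]
      refine hk1.of_dvd ?_
      rcases hi' with h | h | h
      · rw [h]
        exact (by norm_num : 4 ∣ 28).mul_right _
      · rw [h]
        exact (by norm_num : 7 ∣ 28).mul_right _
      · exact (dvd_prod_of_mem (fun x => x) (mem_erase.2 ⟨hir, h⟩)).mul_left _
  · by_cases h7V : 7 ∈ V
    · obtain ⟨k, hk1, hk2, hk3⟩ := exk 7 (4 * ∏ x ∈ R, x) (by norm_num) (by norm_num) h7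
      have hq : qq R = 7 * (4 * ∏ x ∈ R, x) := by
        unfold qq
        ring
      refine ⟨k, by rw [hq]; exact hk2, prod_neg M V 7 h7V k ?_ fun i hi hir => ?_⟩
      · unfold cc
        rw [if_neg (by norm_num), if_neg (by norm_num)]
        show ((jacobiSym (k : ℤ) 7 : ℤ) : ℝ) = -1
        rw [hk3]; simp
      · rcases mem_UU.1 (hV hi) with h | h | h
        · rw [h]
          unfold md
          rw [if_neg (by norm_num)]
          exact hk1.of_dvd (dvd_mul_right _ _)
        · exact absurd h hir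
        · exact absurd ⟨i, hi, h⟩ hr
    · obtain ⟨i, hi⟩ := hVn
      have hall : ∀ i ∈ V, i = 4 := fun i hi => by
        rcases mem_UU.1 (hV hi) with h | h | h
        · exact h
        · exact absurd (h ▸ hi) h7V
        · exact absurd ⟨i, hi, h⟩ hr
      have h4V : 4 ∈ V := hall i hi ▸ hi
      obtain ⟨k, hk1, hk2⟩ := Nat.chineseRemainder h4 3 1
      have hq : qq R = 4 * (7 * ∏ x ∈ R, x) := by
        unfold qq
        ring
      refine ⟨k, ?_, prod_neg M V 4 h4V k ?_ fun i hi hir => absurd (hall i hi) hir⟩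
      · rw [hq]
        refine Nat.Coprime.mul_right ?_ ?_
        · have := hk1.gcd_eq
          have h3 : Nat.gcd 3 4 = 1 := by norm_num
          rw [h3] at this
          exact this
        · have := hk2.gcd_eq
          rw [Nat.gcd_one_left] at this
          exact this
      · rw [cc_mod M 4 k 3 (by unfold md; rw [if_neg (by norm_num)]; exact hk1)]
        unfold cc
        rw [if_neg (by norm_num), if_pos rfl]
        show ((ZMod.χ₄ ((3 : ℕ) : ZMod 4) : ℤ) : ℝ) = -1
        have : ZMod.χ₄ ((3 : ℕ) : ZMod 4) = -1 := by decide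
        rw [this]; simp

include hR in
/-- the bound of the L-functions of the fixed part -/
theorem L_small (M : ℕ) (V : Finset ℕ) (hV : V ⊆ UU R) (hVn : V.Nonempty) (σ : ℝ) (hσ : 1 < σ) :
    ∑' n : ℕ, (∏ i ∈ V, cc M i) n * (n : ℝ) ^ (-σ) ≤ 3 + Real.log (qq R) := by
  have hq : 1 ≤ qq R := qq_pos hR
  have hdv : ∀ i ∈ V, md M i ∣ qq R := fun i hi => by
    unfold md
    rcases mem_UU.1 (hV hi) with h | h | h
    · rw [h, if_neg (by norm_num)]
      exact (by norm_num : 4 ∣ 28).mul_right _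
    · rw [h, if_neg (by norm_num)]
      exact (by norm_num : 7 ∣ 28).mul_right _
    · rw [if_neg (hR i h).1.ne_zero]
      exact dvd_qq h
  obtain ⟨k, hk1, hk2⟩ := small_V hR M V hV hVn
  have hper : ∀ n, (∏ i ∈ V, cc M i) (qq R + n) = (∏ i ∈ V, cc M i) n := by
    intro n
    refine ccV_mod M V _ _ fun i hi => ?_
    have : qq R + n ≡ n [MOD qq R] := by
      show (qq R + n) % qq R = n % qq R
      rw [Nat.add_mod_left]
    exact this.of_dvd (hdv i hi)
  have hz := sum_zero (∏ i ∈ V, cc M i) (qq R) hq hper k hk1 hk2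
  exact tsum_le (fun n => (∏ i ∈ V, cc M i) n) (qq R) hq (abs_cc M V)
    (part_le _ (qq R) hq (abs_cc M V) hper hz) σ hσ

include hR hW hd in
/-- the bound of the L-functions of the varying part -/
theorem L_big (hWn : W.Nonempty) (V : Finset ℕ) (hV : V ⊆ UU R) (σ : ℝ) (hσ : 1 < σ) :
    ∑' n : ℕ, (∏ i ∈ insert 0 V, cc (∏ u ∈ W, u) i) n * (n : ℝ) ^ (-σ) ≤
      3 + Real.log (qq R) + Real.log ((∏ u ∈ W, u : ℕ) : ℝ) := by
  set M := ∏ u ∈ W, u with hM
  have hM0 : 0 < M := prod_pos fun u hu => (hW u hu).1.pos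
  have hq0 : 0 < qq R := qq_pos hR
  have hq : 1 ≤ qq R * M := Nat.mul_pos hq0 hM0
  have hdv : ∀ i ∈ V, md M i ∣ qq R := fun i hi => by
    unfold md
    rcases mem_UU.1 (hV hi) with h | h | h
    · rw [h, if_neg (by norm_num)]
      exact (by norm_num : 4 ∣ 28).mul_right _
    · rw [h, if_neg (by norm_num)]
      exact (by norm_num : 7 ∣ 28).mul_right _
    · rw [if_neg (hR i h).1.ne_zero]
      exact dvd_qq h
  obtain ⟨v, hv⟩ := hWn
  have hvR : v ∉ R := disjoint_left.1 hd hv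
  have hcop : Nat.Coprime v (qq R * ∏ u ∈ W.erase v, u) := by
    refine Nat.Coprime.mul_right (cop_of (hW v hv).1 (hW v hv).2 hR hvR) ?_
    rw [Nat.coprime_prod_right_iff]
    intro u hu
    exact (Nat.coprime_primes (hW v hv).1 (hW u (mem_of_mem_erase hu)).1).2
      (ne_of_mem_erase hu).symm
  obtain ⟨k, hk1, hk2, hk3⟩ := exk v (qq R * ∏ u ∈ W.erase v, u) (hW v hv).1
    (by rintro rfl; exact absurd (hW 2 hv).2 (by norm_num)) hcop
  have hMv : M = v * ∏ u ∈ W.erase v, u := (mul_prod_erase W (fun u => u) hv).symm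
  have hqM : qq R * M = v * (qq R * ∏ u ∈ W.erase v, u) := by
    rw [hMv]
    ring
  have hJ : jacobiSym (k : ℤ) M = -1 := by
    have : NeZero v := ⟨(hW v hv).1.ne_zero⟩
    have : NeZero (∏ u ∈ W.erase v, u) := ⟨by
      rw [prod_ne_zero_iff]
      intro u hu
      exact (hW u (mem_of_mem_erase hu)).1.ne_zero⟩
    have hkQ : k ≡ 1 [MOD ∏ u ∈ W.erase v, u] := hk1.of_dvd (dvd_mul_left _ _)
    have h1 : jacobiSym (k : ℤ) (∏ u ∈ W.erase v, u) =
        jacobiSym ((1 : ℕ) : ℤ) (∏ u ∈ W.erase v, u) :=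
      jacobiSym.mod_left' ((Int.natCast_modEq_iff).2 hkQ)
    rw [hMv, jacobiSym.mul_right, hk3, h1, Nat.cast_one, jacobiSym.one_left, mul_one]
  have hneg : (∏ i ∈ insert 0 V, cc M i) k = -1 := by
    refine prod_neg M _ 0 (mem_insert_self 0 V) k ?_ fun i hi hi0 => ?_
    · show ((jacobiSym (k : ℤ) M : ℤ) : ℝ) = -1
      rw [hJ]; simp
    · have hiV := (mem_insert.1 hi).resolve_left hi0
      exact hk1.of_dvd ((hdv i hiV).mul_right _)
  have hper : ∀ n, (∏ i ∈ insert 0 V, cc M i) (qq R * M + n) = (∏ i ∈ insert 0 V, cc M i) n := by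
    intro n
    refine ccV_mod M _ _ _ fun i hi => ?_
    have h1 : qq R * M + n ≡ n [MOD qq R * M] := by
      show (qq R * M + n) % (qq R * M) = n % (qq R * M)
      rw [Nat.add_mod_left]
    rcases mem_insert.1 hi with h | h
    · rw [h]
      exact h1.of_dvd (dvd_mul_left _ _)
    · exact h1.of_dvd ((hdv i h).mul_right _)
  have hz := sum_zero (∏ i ∈ insert 0 V, cc M i) (qq R * M) hq hper k (by rw [hqM]; exact hk2) hneg
  refine (tsum_le (fun n => (∏ i ∈ insert 0 V, cc M i) n) (qq R * M) hq (abs_cc M _)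
    (part_le _ (qq R * M) hq (abs_cc M _) hper hz) σ hσ).trans (le_of_eq ?_)
  rw [Nat.cast_mul, Real.log_mul (by exact_mod_cast hq0.ne') (by exact_mod_cast hM0.ne'), add_assoc]

include hR hW in
/-- the characters are one on the primes of the family -/
theorem cc_one (p : ℕ) (hp : p.Prime) (hp4 : p % 4 = 1) (hZ : Zc R p) (hpR : p ∉ R)
    (hpW : p ∉ W) (hs : ∑ u ∈ W, nr p u = 0) (i : ℕ) (hi : i ∈ insert 0 (UU R)) :
    cc (∏ u ∈ W, u) i p = 1 := by
  have hpf : Fact p.Prime := ⟨hp⟩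
  have hrec : ∀ a : ℕ, a.Prime → a % 4 = 1 → a ≠ p →
      jacobiSym (p : ℤ) a = if nr p a = 0 then 1 else -1 := by
    intro a hap ha4 hne
    have haf : Fact a.Prime := ⟨hap⟩
    have hodd : Odd a := Nat.odd_iff.2 (by omega)
    have h1 : jacobiSym (p : ℤ) a = jacobiSym (a : ℤ) p :=
      jacobiSym.quadratic_reciprocity_one_mod_four (by omega) hodd
    have hne0 : ((a : ℤ) : ZMod p) ≠ 0 := by
      intro h0
      rw [Int.cast_natCast, ZMod.natCast_eq_zero_iff] at h0
      exact hne ((Nat.prime_dvd_prime_iff_eq hp hap).1 h0).symm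
    rw [h1, leg]
    unfold nr
    by_cases hsq : IsSquare (a : ZMod p)
    · rw [if_pos hsq, if_pos rfl]
      exact (legendreSym.eq_one_iff p hne0).2 (by rwa [Int.cast_natCast])
    · rw [if_neg hsq, if_neg (by decide)]
      exact (legendreSym.eq_neg_one_iff p).2 (by rwa [Int.cast_natCast])
  rcases mem_insert.1 hi with h | h
  · rw [h]
    show ((jacobiSym (p : ℤ) (∏ u ∈ W, u) : ℤ) : ℝ) = 1
    have key : ∀ W' : Finset ℕ, W' ⊆ W →
        jacobiSym (p : ℤ) (∏ u ∈ W', u) = if ∑ u ∈ W', nr p u = 0 then 1 else -1 := by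
      intro W'
      induction W' using Finset.induction_on with
      | empty => intro _; simp
      | insert a s ha ih =>
        intro hs'
        have haW : a ∈ W := hs' (mem_insert_self a s)
        have ihs := ih ((subset_insert a s).trans hs')
        have : NeZero a := ⟨(hW a haW).1.ne_zero⟩
        have : NeZero (∏ u ∈ s, u) := ⟨by
          rw [prod_ne_zero_iff]
          intro u hu
          exact (hW u (hs' (mem_insert_of_mem hu))).1.ne_zero⟩
        rw [prod_insert ha, sum_insert ha, jacobiSym.mul_right, ihs,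
          hrec a (hW a haW).1 (hW a haW).2 (fun h => hpW (h ▸ haW))]
        have hz : ∀ x y : ZMod 2, (if x = 0 then (1 : ℤ) else -1) * (if y = 0 then 1 else -1) =
            if x + y = 0 then 1 else -1 := by decide
        exact hz _ _
    rw [key W Subset.rfl, if_pos hs]
    simp
  · rcases mem_UU.1 h with h | h | h
    · rw [cc_mod _ i p 1 (by unfold md; rw [h, if_neg (by norm_num)]; exact (by omega : p % 4 = 1 % 4)),
        map_one]
    · have h3 : p % 7 = 1 ∨ p % 7 = 2 ∨ p % 7 = 4 := by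
        have h1 := hZ.1
        unfold Pool.Agent.R413.SQ.mk at h1
        by_contra hc
        rw [if_neg hc] at h1
        omega
      have hcJ : ∀ a : ℕ, p % 7 = a % 7 → jacobiSym (a : ℤ) 7 = 1 → cc (∏ u ∈ W, u) i p = 1 := by
        intro a ha hj
        rw [cc_mod _ i p a (by unfold md; rw [h, if_neg (by norm_num)]; exact ha)]
        unfold cc
        rw [h, if_neg (by norm_num), if_neg (by norm_num)]
        show ((jacobiSym (a : ℤ) 7 : ℤ) : ℝ) = 1
        rw [hj]; simp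
      rcases h3 with h3 | h3 | h3
      · exact hcJ 1 (by omega) (by norm_num)
      · exact hcJ 2 (by omega) (by norm_num)
      · exact hcJ 4 (by omega) (by norm_num)
    · have hif : Fact i.Prime := ⟨(hR i h).1⟩
      have hi4 := (hR i h).2
      unfold cc
      rw [if_neg (hR i h).1.ne_zero, if_neg (by rintro rfl; omega)]
      show ((jacobiSym (p : ℤ) i : ℤ) : ℝ) = 1
      have hne0 : ((p : ℤ) : ZMod i) ≠ 0 := by
        intro h0
        rw [Int.cast_natCast, ZMod.natCast_eq_zero_iff] at h0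
        exact hpR (((Nat.prime_dvd_prime_iff_eq (hR i h).1 hp).1 h0) ▸ h)
      have hsq : IsSquare (p : ZMod i) := by
        have h1 := hZ.2 i h
        unfold nr at h1
        by_contra hc
        rw [if_neg hc] at h1
        exact absurd h1 (by decide)
      rw [leg, (legendreSym.eq_one_iff i hne0).2 (by rwa [Int.cast_natCast])]
      simp

end main

theorem t_HALk : S_HALk := by
  intro R hR
  obtain ⟨B, hB⟩ : ∃ B : ℝ, B = 4 + Real.log (qq R) := ⟨_, rfl⟩
  have hlq : 0 ≤ Real.log (qq R) := Real.log_natCast_nonneg _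
  have hB4 : 4 ≤ B := by linarith
  refine ⟨9 * B, by linarith, fun W T hW hp hd hT => ?_⟩
  set M := ∏ u ∈ W, u with hM
  have lT : 0 < Real.log T := Real.log_pos (by exact_mod_cast (by omega : 1 < T))
  obtain ⟨σ, hσd⟩ : ∃ σ : ℝ, σ = 1 + 1 / Real.log T := ⟨_, rfl⟩
  have hσ : 1 < σ := by
    rw [hσd]
    have : 0 < 1 / Real.log T := by positivity
    linarith
  obtain ⟨P, hPd⟩ : ∃ P : Finset ℕ, P = (range (T + 1)).filter
    (fun p => (p.Prime ∧ p % 4 = 1) ∧ Zc R p ∧ p ∉ R ∧ p ∉ W ∧ ∑ u ∈ W, nr p u = 0) := ⟨_, rfl⟩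
  have hP : ∀ p ∈ P, (p.Prime ∧ p % 4 = 1) ∧ Zc R p ∧ p ∉ R ∧ p ∉ W ∧ ∑ u ∈ W, nr p u = 0 := by
    intro p hp'
    rw [hPd, mem_filter] at hp'
    exact hp'.2
  have h0U : 0 ∉ UU R := by
    rw [mem_UU]
    rintro (h | h | h)
    · omega
    · omega
    · exact (hR 0 h).1.ne_zero rfl
  have hcU : (UU R).card = R.card + 2 := by
    unfold UU
    rw [card_insert_of_notMem, card_insert_of_notMem]
    · intro h
      have := (hR 7 h).2
      omega
    · rw [mem_insert]
      rintro (h | h)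
      · omega
      · have := (hR 4 h).2
        omega
  have hmain := main_le (cc M) (insert 0 (UU R)) (fun i _ n => cc_val M i n) σ hσ P
    (fun p h => (hP p h).1.1) (fun i hi p h => cc_one hR hp p (hP p h).1.1 (hP p h).1.2 (hP p h).2.1
      (hP p h).2.2.1 (hP p h).2.2.2.1 (hP p h).2.2.2.2 i hi)
  have hM1 : 1 ≤ Real.log (M : ℝ) := by
    obtain ⟨v, hv⟩ := hW
    have h1 : v ∣ M := dvd_prod_of_mem (fun u => u) hv
    have h2 : 0 < M := by
      rw [hM]
      exact prod_pos fun u hu => (hp u hu).1.pos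
    have h4 : 5 ≤ v := by
      have a1 := (hp v hv).1.two_le
      have a2 := (hp v hv).2
      omega
    have h3 : 5 ≤ M := h4.trans (Nat.le_of_dvd h2 h1)
    rw [Real.le_log_iff_exp_le (by exact_mod_cast h2)]
    have h5 : (5 : ℝ) ≤ M := by exact_mod_cast h3
    have h6 := Real.exp_one_lt_d9
    linarith
  have hlog2 := Real.log_two_gt_d9
  have lT2 : Real.log 2 ≤ Real.log T := Real.log_le_log (by norm_num) (by exact_mod_cast hT)
  obtain ⟨m, hm⟩ : ∃ m : ℕ, m = 2 ^ (R.card + 2) := ⟨_, rfl⟩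
  have hcp : (UU R).powerset.card = m := by rw [card_powerset, hcU, hm]
  have hprod : ∏ V ∈ (insert 0 (UU R)).powerset,
      ∑' n : ℕ, (∏ i ∈ V, cc M i) n * (n : ℝ) ^ (-σ) ≤
      3 * Real.log T * B ^ m * (B * Real.log (M : ℝ)) ^ m := by
    rw [prod_powerset_insert h0U]
    have hnn : ∀ V ∈ (insert 0 (UU R)).powerset,
        0 ≤ ∑' n : ℕ, (∏ i ∈ V, cc M i) n * (n : ℝ) ^ (-σ) := hmain.2
    have hs1 : ∀ V ∈ (UU R).powerset, V ∈ (insert 0 (UU R)).powerset := fun V hV =>
      mem_powerset.2 ((mem_powerset.1 hV).trans (subset_insert _ _))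
    have hs2 : ∀ V ∈ (UU R).powerset, insert 0 V ∈ (insert 0 (UU R)).powerset := fun V hV =>
      mem_powerset.2 (insert_subset_insert _ (mem_powerset.1 hV))
    have g1 : ∏ V ∈ (UU R).powerset, ∑' n : ℕ, (∏ i ∈ V, cc M i) n * (n : ℝ) ^ (-σ) ≤
        3 * Real.log T * B ^ m := by
      have hem : ∅ ∈ (UU R).powerset := empty_mem_powerset _
      rw [← mul_prod_erase _ _ hem]
      have e1 : ∑' n : ℕ, (∏ i ∈ (∅ : Finset ℕ), cc M i) n * (n : ℝ) ^ (-σ) ≤ 3 * Real.log T := by
        have e : ∑' n : ℕ, (∏ i ∈ (∅ : Finset ℕ), cc M i) n * (n : ℝ) ^ (-σ) =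
            ∑' n : ℕ, (1 : ℝ) * (n : ℝ) ^ (-σ) := by
          refine tsum_congr fun n => ?_
          rw [prod_empty]
          rfl
        rw [e]
        refine (zeta_le σ hσ).trans ?_
        have e2 : 1 / (σ - 1) = Real.log T := by
          rw [hσd]
          field_simp
          ring
        rw [e2]
        linarith
      have e3 : ∏ V ∈ (UU R).powerset.erase ∅, ∑' n : ℕ, (∏ i ∈ V, cc M i) n * (n : ℝ) ^ (-σ) ≤
          B ^ m := by
        refine (prod_le_prod (fun V hV => hnn V (hs1 V (mem_of_mem_erase hV)))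
          (g := fun _ => B) fun V hV => ?_).trans ?_
        · have h1 := L_small hR M V (mem_powerset.1 (mem_of_mem_erase hV))
            (nonempty_iff_ne_empty.2 (ne_of_mem_erase hV)) σ hσ
          linarith
        · rw [prod_const]
          refine pow_le_pow_right₀ (by linarith) ?_
          rw [← hcp]
          exact card_le_card (erase_subset _ _)
      refine mul_le_mul e1 e3 (prod_nonneg fun V hV => hnn V (hs1 V (mem_of_mem_erase hV)))
        (by positivity)
    have g2 : ∏ V ∈ (UU R).powerset, ∑' n : ℕ, (∏ i ∈ insert 0 V, cc M i) n * (n : ℝ) ^ (-σ) ≤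
        (B * Real.log (M : ℝ)) ^ m := by
      rw [← hcp]
      refine (prod_le_prod (fun V hV => hnn _ (hs2 V hV))
        (g := fun _ => B * Real.log (M : ℝ)) fun V hV => ?_).trans (le_of_eq (prod_const _))
      have h1 := L_big hR hp hd hW V (mem_powerset.1 hV) σ hσ
      rw [← hM] at h1
      nlinarith
    exact mul_le_mul g1 g2 (prod_nonneg fun V hV => hnn _ (hs2 V hV)) (by positivity)
  have hbig := hmain.1.trans hprod
  have hc : 2 ^ (insert 0 (UU R)).card = 2 * m := by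
    rw [card_insert_of_notMem h0U, hcU, hm, ← pow_succ']
  rw [hc] at hbig
  -- the sum
  have hx : ∀ p ∈ P, 0 < (p : ℝ) ^ (-σ) ∧ (p : ℝ) ^ (-σ) < 1 := fun p h =>
    pow_small p (hP p h).1.1.two_le σ hσ
  have hsum : ∑ S ∈ HR R W T, (1 : ℝ) / ((∏ p ∈ S, p : ℕ) : ℝ) ≤
      3 * ∏ p ∈ P, (1 - (p : ℝ) ^ (-σ))⁻¹ := by
    have s1 : ∑ S ∈ HR R W T, (1 : ℝ) / ((∏ p ∈ S, p : ℕ) : ℝ) ≤
        ∑ S ∈ P.powerset, 3 * ∏ p ∈ S, (p : ℝ) ^ (-σ) := by
      have hsub : HR R W T ⊆ P.powerset := by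
        intro S hS
        unfold HR at hS
        rw [mem_filter, mem_powerset] at hS
        rw [mem_powerset]
        intro p hpS
        rw [hPd, mem_filter]
        exact ⟨hS.1 hpS, hS.2.1 p hpS⟩
      refine le_trans (sum_le_sum fun S hS => ?_) (sum_le_sum_of_subset_of_nonneg hsub
        fun S hS _ => ?_)
      · have hSP := hsub hS
        rw [mem_powerset] at hSP
        unfold HR at hS
        rw [mem_filter] at hS
        have hle := hS.2.2
        have hpos : 0 < ∏ p ∈ S, p := prod_pos fun p h => (hP p (hSP h)).1.1.pos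
        have e : ∏ p ∈ S, (p : ℝ) ^ (-σ) = ((∏ p ∈ S, p : ℕ) : ℝ) ^ (-σ) := by
          rw [Nat.cast_prod, Real.finsetProd_rpow]
          intro p _
          exact Nat.cast_nonneg p
        rw [e]
        generalize ∏ p ∈ S, p = N at hle hpos ⊢
        have hN : (0 : ℝ) < (N : ℝ) := by exact_mod_cast hpos
        have hNT : (N : ℝ) ≤ (T : ℝ) := by exact_mod_cast hle
        have hN1 : (1 : ℝ) ≤ (N : ℝ) := by exact_mod_cast hpos
        have h2 : (N : ℝ) ^ (σ - 1) ≤ 3 := by
          have a1 : (N : ℝ) ^ (σ - 1) = Real.exp (Real.log N * (σ - 1)) :=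
            Real.rpow_def_of_pos hN _
          have a2 : Real.log N * (σ - 1) ≤ 1 := by
            have a3 : σ - 1 = 1 / Real.log T := by rw [hσd]; ring
            rw [a3, mul_one_div, div_le_one lT]
            exact Real.log_le_log hN hNT
          rw [a1]
          exact (Real.exp_le_exp.2 a2).trans (Real.exp_one_lt_d9.le.trans (by norm_num))
        have h3 : (N : ℝ) ^ (σ - 1) * (N : ℝ) ^ (-σ) = 1 / N := by
          rw [← Real.rpow_add hN]
          have : σ - 1 + -σ = -1 := by ring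
          rw [this, Real.rpow_neg_one, one_div]
        rw [← h3]
        exact mul_le_mul_of_nonneg_right h2 (Real.rpow_nonneg hN.le _)
      · refine mul_nonneg (by norm_num) (prod_nonneg fun p _ => Real.rpow_nonneg (Nat.cast_nonneg _) _)
    refine s1.trans ?_
    rw [← mul_sum, ← prod_one_add]
    refine mul_le_mul_of_nonneg_left (prod_le_prod (fun p h => ?_) fun p h => ?_) (by norm_num)
    · have := (hx p h).1
      positivity
    · obtain ⟨a1, a2⟩ := hx p h
      rw [← one_div, le_div_iff₀ (by linarith)]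
      nlinarith
  generalize ∏ p ∈ P, (1 - (p : ℝ) ^ (-σ))⁻¹ = Q at hbig hsum
  have hH0 : 0 ≤ ∑ S ∈ HR R W T, (1 : ℝ) / ((∏ p ∈ S, p : ℕ) : ℝ) :=
    sum_nonneg fun S _ => by positivity
  generalize ∑ S ∈ HR R W T, (1 : ℝ) / ((∏ p ∈ S, p : ℕ) : ℝ) = H at hsum hH0 ⊢
  generalize Real.log (M : ℝ) = Y at hbig hM1 ⊢
  have hm1 : 1 ≤ m := by
    rw [hm]
    exact Nat.one_le_two_pow
  have hY0 : 0 < Y := by linarith
  apply le_of_pow_le_pow_left₀ (n := 2 * m) (by omega) (by positivity)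
  have hexp : ((1 / 2 : ℝ) ^ (R.card + 3)) * ((2 * m : ℕ) : ℝ) = 1 := by
    have h1 : ((2 * m : ℕ) : ℝ) = 2 ^ (R.card + 3) := by
      rw [hm]
      push_cast
      ring
    rw [h1, ← mul_pow]
    norm_num
  have e1 : (9 * B * Y ^ (1 / 2 : ℝ) * Real.log T ^ ((1 / 2 : ℝ) ^ (R.card + 3))) ^ (2 * m) =
      9 ^ (2 * m) * B ^ (2 * m) * Y ^ m * Real.log T := by
    rw [mul_pow, mul_pow, mul_pow, ← Real.rpow_natCast (Y ^ (1 / 2 : ℝ)), ← Real.rpow_mul hY0.le,
      ← Real.rpow_natCast (Real.log T ^ ((1 / 2 : ℝ) ^ (R.card + 3))), ← Real.rpow_mul lT.le,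
      hexp, Real.rpow_one]
    have e2 : Y ^ ((1 / 2 : ℝ) * ((2 * m : ℕ) : ℝ)) = Y ^ m := by
      rw [← Real.rpow_natCast Y m]
      congr 1
      push_cast
      ring
    rw [e2]
  rw [e1]
  have h9 : (3 : ℝ) ^ (2 * m) * 3 ≤ 9 ^ (2 * m) := by
    have h1 : (9 : ℝ) ^ (2 * m) = 3 ^ (2 * m) * 3 ^ (2 * m) := by
      rw [← mul_pow]
      norm_num
    have h2 : (3 : ℝ) ≤ 3 ^ (2 * m) := by
      calc (3 : ℝ) = 3 ^ 1 := by norm_num
        _ ≤ 3 ^ (2 * m) := pow_le_pow_right₀ (by norm_num) (by omega)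
    rw [h1]
    exact mul_le_mul_of_nonneg_left h2 (by positivity)
  calc H ^ (2 * m) ≤ (3 * Q) ^ (2 * m) := pow_le_pow_left₀ hH0 hsum (2 * m)
    _ = 3 ^ (2 * m) * Q ^ (2 * m) := by rw [mul_pow]
    _ ≤ 3 ^ (2 * m) * (3 * Real.log T * B ^ m * (B * Y) ^ m) :=
        mul_le_mul_of_nonneg_left hbig (by positivity)
    _ = (3 ^ (2 * m) * 3) * (B ^ (2 * m) * Y ^ m * Real.log T) := by
        rw [mul_pow, two_mul, pow_add B]
        ring
    _ ≤ 9 ^ (2 * m) * (B ^ (2 * m) * Y ^ m * Real.log T) := by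
        apply mul_le_mul_of_nonneg_right h9 (by positivity)
    _ = 9 ^ (2 * m) * B ^ (2 * m) * Y ^ m * Real.log T := by ring

end Pool.Agent.L0h2.K.HAL
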