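import Pool.Agent.L0h2.K.Stm
import Pool.Agent.R413.SQ.LOW

/-!
# Joint law for several twists: the lower bound for the size of the class
-/

set_option autoImplicit false
set_option linter.unusedVariables false

open scoped Classical

namespace Pool.Agent.L0h2.K.LOW

open Finset
open Pool.Agent.R413.SQ (SS)
open Pool.Agent.Y703.CQ (S_MER S_CHE)

theorem card_SS (R : Finset ℕ) (X : ℕ) :
    (SS ∅ ∅ X).card ≤ 2 ^ R.card * (SR R X).card := by
  rw [← card_powerset, ← card_product]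
  refine card_le_card_of_injOn (fun S => (S ∩ R, S \ R)) ?_ ?_
  · intro S hS
    have hS0 : S ∈ SR ∅ X := by
      unfold SR
      rw [mem_filter]
      exact ⟨hS, disjoint_empty_right _⟩
    obtain ⟨h1, h2, _⟩ := mem_SR hS0
    rw [mem_coe, mem_product, mem_powerset]
    refine ⟨inter_subset_right, of_SR (fun p hp => h1 p (mem_sdiff.1 hp).1) ?_ sdiff_disjoint⟩
    refine le_trans (Nat.le_of_dvd (prod_pos fun p hp => (h1 p hp).1.pos) ?_) h2
    exact prod_dvd_prod_of_subset _ _ _ sdiff_subset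
  · intro S _ T _ h
    have h1 : S ∩ R = T ∩ R := congrArg Prod.fst h
    have h2 : S \ R = T \ R := congrArg Prod.snd h
    rw [← sdiff_union_inter S R, ← sdiff_union_inter T R, h1, h2]

theorem t_LOWk (hM : S_MER) (hC : S_CHE) : S_LOWk := by
  intro R hR
  obtain ⟨c, X₀, hc, h⟩ := Pool.Agent.R413.SQ.LOW.t_LOW hM hC ∅ ∅ trivial
  refine ⟨c / 2 ^ R.card, X₀, by positivity, fun X hX => ?_⟩
  have h1 := h X hX
  have e : (-1 + Pool.Agent.R413.SQ.dl ∅ : ℝ) = -(1 / 2) := by
    unfold Pool.Agent.R413.SQ.dl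
    norm_num
  rw [e] at h1
  have h2 : ((SS ∅ ∅ X).card : ℝ) ≤ 2 ^ R.card * ((SR R X).card : ℝ) := by
    exact_mod_cast card_SS R X
  have h3 := h1.trans h2
  have h4 : c / 2 ^ R.card * X * Real.log X ^ (-(1 / 2) : ℝ) =
      (c * X * Real.log X ^ (-(1 / 2) : ℝ)) / 2 ^ R.card := by ring
  rw [h4, div_le_iff₀ (by positivity), mul_comm ((SR R X).card : ℝ)]
  exact h3

end Pool.Agent.L0h2.K.LOW
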