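import Pool.Agent.L0h2.K.Asy
import Pool.Agent.L0h2.K.BOX
import Pool.Agent.L0h2.K.KEY
import Pool.Agent.L0h2.K.HAL
import Pool.Agent.L0h2.K.BAD
import Pool.Agent.L0h2.K.FEW
import Pool.Agent.L0h2.K.LOW
import Pool.Agent.R413.SQ.BIL
import Pool.Agent.Y356.CQ.EQ
import Pool.Agent.Y839.CQ.SYM
import Pool.Agent.Y948.CQ.C2
import Pool.Agent.R413.SQ.CNT
import Pool.Agent.Y302.CQ.CHE
import Pool.Agent.Y488.CX.Sie

/-!
# Joint law for several twists: the law for the sets of primes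

After project CQ and its adaptation SQ.
-/

set_option autoImplicit false

namespace Pool.Agent.L0h2.K

theorem t_DQk_all : S_DQk :=
  t_DQk Pool.Agent.R413.SQ.BIL.t_BIL Pool.Agent.Y356.CQ.t_EQ
    (t_LAk Pool.Agent.Y839.CQ.t_SYM Pool.Agent.Y948.CQ.t_C2)
    BOX.t_BOXk KEY.t_KEYk Pool.Agent.R413.SQ.CNT.t_CNT
    Pool.Agent.Y488.CX.t_SIE HAL.t_HALk BAD.t_BADk
    FEW.t_FEWk (LOW.t_LOWk Pool.Agent.Y405.CQ.t_MER Pool.Agent.Y302.CQ.t_CHE)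
    Pool.Agent.Y948.CQ.t_C2

theorem t_LOWk_all : S_LOWk :=
  LOW.t_LOWk Pool.Agent.Y405.CQ.t_MER Pool.Agent.Y302.CQ.t_CHE

end Pool.Agent.L0h2.K
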