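import Pool.Agent.L0h2.K.BJ

/-!
# Joint law for several twists: the joint law for a random symmetric form and several diagonals
-/

set_option autoImplicit false
set_option linter.unusedSectionVars false
set_option linter.unusedVariables false

open scoped Classical

namespace Pool.Agent.L0h2.K

open Function Module Matrix
open Pool.Agent.Y759.CX (fr fr_equiv fr_nonneg fr_le_one fr_mono fr_not fr_prod fr_comp fr_exists
  fr_single)
open Pool.Agent.Y703.CQ (S_SYM S_C2 c2)
open Pool.Agent.Y219.CQ (F Sy Ns sp fr_avg red card_mod finSy finHom finHom2 Gs mf mf_apply bf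
  bf_apply bf_l bf_r bf_symm bf_add bf_single all_zero Gs_iff zx zx_of zx_not sum_zx)

/-- the probability of a pattern -/
noncomputable def cv (b : Bool) : ℝ := if b = true then c2 else 1 - c2

lemma cv_nonneg (hc2 : S_C2) (b : Bool) : 0 ≤ cv b := by
  have h1 := hc2.2.1
  have h2 := hc2.2.2.1
  unfold cv
  split_ifs <;> linarith

lemma cv_le_one (hc2 : S_C2) (b : Bool) : cv b ≤ 1 := by
  have h1 := hc2.2.1
  have h2 := hc2.2.2.1
  unfold cv
  split_ifs <;> linarith

section gen

variable {G κ : Type} [Finite G]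

lemma fr_and_not (E Q : G → Prop) :
    fr (fun g => ¬ E g ∧ Q g) = fr Q - fr (fun g => E g ∧ Q g) := by
  have := Fintype.ofFinite G
  rw [fr_sum, fr_sum, fr_sum, ← sub_div, ← Finset.sum_sub_distrib]
  congr 1
  refine Finset.sum_congr rfl fun g _ => ?_
  by_cases h1 : E g <;> by_cases h2 : Q g <;> simp [h1, h2]

lemma step {E Q : G → Prop} {ε : ℝ} (h : |fr (fun g => E g ∧ Q g) - c2 * fr Q| ≤ ε) (b : Bool) :
    |fr (fun g => (E g ↔ b = true) ∧ Q g) - cv b * fr Q| ≤ ε := by
  unfold cv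
  cases b
  · have h1 : fr (fun g => (E g ↔ false = true) ∧ Q g) = fr Q - fr (fun g => E g ∧ Q g) := by
      rw [← fr_and_not]
      congr 1
      funext g
      exact propext ⟨fun h => ⟨fun h' => absurd (h.1.1 h') (by simp), h.2⟩,
        fun h => ⟨⟨fun h' => absurd h' h.1, fun h' => absurd h' (by simp)⟩, h.2⟩⟩
    rw [h1, if_neg (by simp), abs_sub_comm]
    have h2 : (1 - c2) * fr Q - (fr Q - fr (fun g => E g ∧ Q g)) =
      fr (fun g => E g ∧ Q g) - c2 * fr Q := by ring
    rw [h2]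
    exact h
  · have h1 : fr (fun g => (E g ↔ true = true) ∧ Q g) = fr (fun g => E g ∧ Q g) := by
      congr 1
      funext g
      exact propext ⟨fun h => ⟨h.1.2 rfl, h.2⟩, fun h => ⟨⟨fun _ => rfl, fun _ => h.1⟩, h.2⟩⟩
    rw [h1, if_pos rfl]
    exact h

lemma all_insert (E : κ → G → Prop) (b : κ → Bool) (j : κ) (t : Finset κ) :
    (fun g => ∀ l ∈ insert j t, (E l g ↔ b l = true)) =
      fun g => (E j g ↔ b j = true) ∧ ∀ l ∈ t, (E l g ↔ b l = true) := by
  funext g
  exact propext ⟨fun h => ⟨h j (Finset.mem_insert_self _ _), fun l hl =>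
    h l (Finset.mem_insert_of_mem hl)⟩, fun h l hl => by
      rcases Finset.mem_insert.1 hl with rfl | hl
      · exact h.1
      · exact h.2 l hl⟩

lemma chain [Nonempty G] (hc2 : S_C2) (E : κ → G → Prop) (I : κ → (G → Prop) → Prop) (ε : κ → ℝ)
    (b : κ → Bool) (s : Finset κ)
    (h1 : ∀ j ∈ s, ∀ Q, I j Q → |fr (fun g => E j g ∧ Q g) - c2 * fr Q| ≤ ε j)
    (h2 : ∀ j ∈ s, ∀ t ⊆ s, j ∉ t → I j (fun g => ∀ l ∈ t, (E l g ↔ b l = true))) :
    |fr (fun g => ∀ l ∈ s, (E l g ↔ b l = true)) - ∏ l ∈ s, cv (b l)| ≤ ∑ l ∈ s, ε l := by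
  have key : ∀ t : Finset κ, t ⊆ s →
      |fr (fun g => ∀ l ∈ t, (E l g ↔ b l = true)) - ∏ l ∈ t, cv (b l)| ≤ ∑ l ∈ t, ε l := by
    intro t
    induction t using Finset.induction_on with
    | empty =>
      intro _
      have h3 : (fun g : G => ∀ l ∈ (∅ : Finset κ), (E l g ↔ b l = true)) = fun g => ¬ False := by
        funext g
        exact propext ⟨fun _ h => h, fun _ l hl => absurd hl (Finset.notMem_empty l)⟩
      have h4 : fr (fun g : G => False) = 0 := by
        unfold Pool.Agent.Y759.CX.fr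
        have : IsEmpty {g : G // False} := ⟨fun x => x.2⟩
        rw [Nat.card_of_isEmpty, Nat.cast_zero, zero_div]
      rw [h3, fr_not, h4, Finset.prod_empty, Finset.sum_empty, sub_zero, sub_self, abs_zero]
    | insert j t hj ih =>
      intro hs
      have hjs := hs (Finset.mem_insert_self j t)
      have hts := (Finset.subset_insert j t).trans hs
      have h3 := step (h1 j hjs _ (h2 j hjs t hts hj)) (b j)
      rw [all_insert, Finset.prod_insert hj, Finset.sum_insert hj]
      have h4 := ih hts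
      have h5 := cv_nonneg hc2 (b j)
      have h6 := cv_le_one hc2 (b j)
      have h7 : fr (fun g => (E j g ↔ b j = true) ∧ ∀ l ∈ t, (E l g ↔ b l = true)) -
          cv (b j) * ∏ l ∈ t, cv (b l) =
          (fr (fun g => (E j g ↔ b j = true) ∧ ∀ l ∈ t, (E l g ↔ b l = true)) -
            cv (b j) * fr (fun g => ∀ l ∈ t, (E l g ↔ b l = true))) +
          cv (b j) * (fr (fun g => ∀ l ∈ t, (E l g ↔ b l = true)) - ∏ l ∈ t, cv (b l)) := by ring
      rw [h7]
      refine (abs_add_le _ _).trans (add_le_add h3 ?_)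
      rw [abs_mul, abs_of_nonneg h5]
      exact (mul_le_of_le_one_left (abs_nonneg _) h6).trans h4
  exact key s subset_rfl

/-- from the patterns with one true value to all the patterns -/
lemma patt [Nonempty G] (E : κ → G → Prop) (δ : ℝ) (hδ : 0 ≤ δ) (s0 : Finset κ)
    (h : ∀ i ∈ s0, ∀ t ⊆ s0, i ∉ t → ∀ b : κ → Bool,
      |fr (fun g => E i g ∧ ∀ l ∈ t, (E l g ↔ b l = true)) - c2 * ∏ l ∈ t, cv (b l)| ≤ δ)
    (b : κ → Bool) (s : Finset κ) (hs : s ⊆ s0) :
    |fr (fun g => ∀ l ∈ s, (E l g ↔ b l = true)) - ∏ l ∈ s, cv (b l)| ≤ s.card * δ := by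
  induction s using Finset.induction_on with
  | empty =>
    have h3 : (fun g : G => ∀ l ∈ (∅ : Finset κ), (E l g ↔ b l = true)) = fun g => ¬ False := by
      funext g
      exact propext ⟨fun _ h => h, fun _ l hl => absurd hl (Finset.notMem_empty l)⟩
    have h4 : fr (fun g : G => False) = 0 := by
      unfold Pool.Agent.Y759.CX.fr
      have : IsEmpty {g : G // False} := ⟨fun x => x.2⟩
      rw [Nat.card_of_isEmpty, Nat.cast_zero, zero_div]
    rw [h3, fr_not, h4, Finset.prod_empty, Finset.card_empty, sub_zero, sub_self, abs_zero,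
      Nat.cast_zero, zero_mul]
  | insert j t hj ih =>
    have hjs := hs (Finset.mem_insert_self j t)
    have hts := (Finset.subset_insert j t).trans hs
    have h1 := h j hjs t hts hj b
    rw [all_insert, Finset.prod_insert hj, Finset.card_insert_of_notMem hj]
    push_cast
    have h4 := ih hts
    have h0 : (0 : ℝ) ≤ t.card * δ := by positivity
    cases hb : b j
    · have h2 : fr (fun g => (E j g ↔ false = true) ∧ ∀ l ∈ t, (E l g ↔ b l = true)) =
          fr (fun g => ∀ l ∈ t, (E l g ↔ b l = true)) -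
            fr (fun g => E j g ∧ ∀ l ∈ t, (E l g ↔ b l = true)) := by
        rw [← fr_and_not]
        congr 1
        funext g
        exact propext ⟨fun h => ⟨fun h' => absurd (h.1.1 h') (by simp), h.2⟩,
          fun h => ⟨⟨fun h' => absurd h' h.1, fun h' => absurd h' (by simp)⟩, h.2⟩⟩
      rw [h2]
      have h5 : cv false = 1 - c2 := if_neg (by simp)
      rw [h5]
      rw [abs_le] at h1 h4 ⊢
      constructor <;> nlinarith
    · have h2 : fr (fun g => (E j g ↔ true = true) ∧ ∀ l ∈ t, (E l g ↔ b l = true)) =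
          fr (fun g => E j g ∧ ∀ l ∈ t, (E l g ↔ b l = true)) := by
        congr 1
        funext g
        exact propext ⟨fun h => ⟨h.1.2 rfl, h.2⟩, fun h => ⟨⟨fun _ => rfl, fun _ => h.1⟩, h.2⟩⟩
      rw [h2]
      have h5 : cv true = c2 := if_pos rfl
      rw [h5]
      linarith

end gen

section sp

variable {U J : Type} [Fintype U] [Fintype J]

/-- the form of a matrix -/
noncomputable def bm (M : Matrix U J F) : (U → F) →ₗ[F] (J → F) →ₗ[F] F := bf fun i j => M i j

lemma bm_l (M : Matrix U J F) (x : U → F) (y : J → F) :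
    bm M x y = ∑ k, (∑ i, x i * M i k) * y k := bf_l _ _ _

lemma bm_symm (M : Matrix J J F) (h : ∀ i j, M i j = M j i) (x y : J → F) :
    bm M x y = bm M y x := bf_symm _ h _ _

lemma bm_single (M : Matrix U J F) (i : U) (k : J) :
    bm M (Pi.single i 1) (Pi.single k 1) = M i k := bf_single _ _ _

lemma bm_Gs (MA : Matrix U U F) (MC : Matrix U J F) (MS : Matrix J J F) :
    Gs (bm MA) (bm MC) (bm MS) ↔ ∀ (x : U → F) (y : J → F),
      (∀ v, ∑ u, x u * MA u v + ∑ k, MC v k * y k = 0) →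
      (∀ l, ∑ u, x u * MC u l + ∑ k, y k * MS k l = 0) → x = 0 ∧ y = 0 := Gs_iff _ _ _

/-- the restriction -/
noncomputable def rs (P : Finset J) : (J → F) →ₗ[F] (P → F) := LinearMap.funLeft F F Subtype.val

lemma rs_apply (P : Finset J) (y : J → F) (x : P) : rs P y x = y x := rfl

/-- the extension by zero -/
noncomputable def zl (Q : Finset J) : (Q → F) →ₗ[F] (J → F) where
  toFun x := zx Q x
  map_add' x y := by
    funext j
    by_cases h : j ∈ Q
    · rw [Pi.add_apply]
      have h1 := zx_of Q (x + y) ⟨j, h⟩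
      have h2 := zx_of Q x ⟨j, h⟩
      have h3 := zx_of Q y ⟨j, h⟩
      rw [h1, h2, h3]
      rfl
    · rw [Pi.add_apply, zx_not Q _ h, zx_not Q _ h, zx_not Q _ h, add_zero]
  map_smul' a x := by
    funext j
    by_cases h : j ∈ Q
    · rw [Pi.smul_apply]
      have h1 := zx_of Q (a • x) ⟨j, h⟩
      have h2 := zx_of Q x ⟨j, h⟩
      rw [h1, h2]
      rfl
    · rw [Pi.smul_apply, zx_not Q _ h, zx_not Q _ h, smul_zero]

lemma zl_apply (Q : Finset J) (x : Q → F) : zl Q x = zx Q x := rfl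

lemma zl_inj (Q : Finset J) (x : Q → F) (h : zl Q x = 0) : x = 0 := by
  funext j
  rw [← zx_of Q x j]
  exact congrFun h j

/-- the form of the events in the dual coordinates -/
noncomputable def Eg (Q : Finset J) (B : (J → F) →ₗ[F] (J → F) →ₗ[F] F) : Prop :=
  Ns (fm (zl Q) (bf fun i j : Q => if i = j then 1 else 0) B)

lemma rs_zl {P Q : Finset J} (h : Disjoint P Q) (x : Q → F) : rs P (zl Q x) = 0 := by
  funext j
  rw [rs_apply, zl_apply, zx_not Q x (Finset.disjoint_left.1 h j.2)]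
  rfl

lemma Eg_inv {P Q : Finset J} (h : Disjoint P Q) (B : Sy (J → F)) (T : Sy (P → F)) :
    Eg Q (B + ph (rs P) T).1 ↔ Eg Q B.1 := by
  have h1 : fm (zl Q) (bf fun i j : Q => if i = j then 1 else 0) (B + ph (rs P) T).1 =
      fm (zl Q) (bf fun i j : Q => if i = j then 1 else 0) B.1 := by
    refine LinearMap.ext fun x => LinearMap.ext fun y => ?_
    rw [fm_apply, fm_apply, ph_apply, rs_zl h, map_zero, LinearMap.zero_apply, add_zero]
  unfold Eg
  rw [h1]

lemma t1 (hsym : S_SYM) (hc2 : S_C2) {P Q : Finset J} (h : P ⊆ Q) (R : Sy (J → F) → Prop)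
    (hR : ∀ B T, R (B + ph (rs P) T) ↔ R B) :
    |fr (fun B : Sy (J → F) => Eg Q B.1 ∧ R B) - c2 * fr R| ≤ 3 / 2 ^ P.card := by
  have h1 := pp hsym hc2 (zl Q) (bf fun i j : Q => if i = j then 1 else 0) (bf_symm _ fun i j => by
      by_cases hij : i = j
      · rw [if_pos hij, if_pos hij.symm]
      · rw [if_neg hij, if_neg (Ne.symm hij)]) (rs P) (fun v => ⟨fun x => if hx : (x : J) ∈ P then
        v ⟨x, hx⟩ else 0, by
      funext j
      have h2 := zx_of Q (fun x : Q => if hx : (x : J) ∈ P then v ⟨x, hx⟩ else 0) ⟨j, h j.2⟩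
      exact h2.trans (dif_pos j.2)⟩) (fun w hw _ => zl_inj Q w hw) R hR
  have h2 : Nat.card (LinearMap.ker (zl Q)) = 1 := by
    rw [LinearMap.ker_eq_bot'.2 (fun m hm => zl_inj Q m hm)]
    exact Nat.card_unique
  have h3 : finrank F (P → F) = P.card := by
    rw [finrank_fintype_fun_eq_card, Fintype.card_coe]
  rw [h2, h3, Nat.cast_one, mul_one] at h1
  exact h1

lemma bf_mE (e : U → J) (he : Injective e) (x : U → F) (u : U) :
    bm (mE e) x (Pi.single (e u) 1) = x u := by
  rw [bm_l, Finset.sum_eq_single (e u)]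
  · rw [Pi.single_eq_same, mul_one, Finset.sum_eq_single u]
    · show x u * (if e u = e u then 1 else 0) = x u
      rw [if_pos rfl, mul_one]
    · intro v _ hv
      show x v * (if e u = e v then 1 else 0) = 0
      rw [if_neg (fun h => hv (he h).symm), mul_zero]
    · intro h
      exact absurd (Finset.mem_univ _) h
  · intro k _ hk
    rw [Pi.single_eq_of_ne hk, mul_zero]
  · intro h
    exact absurd (Finset.mem_univ _) h

lemma Gs_fm (A : (U → F) →ₗ[F] (U → F) →ₗ[F] F) (c : (U → F) →ₗ[F] (J → F) →ₗ[F] F)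
    (S : (J → F) →ₗ[F] (J → F) →ₗ[F] F) :
    Gs A c S ↔ Ns (fm (LinearMap.snd F (U → F) (J → F)) (mf A c 0) S) := by
  have h0 : ∀ w w' : (U → F) × (J → F), fm (LinearMap.snd F (U → F) (J → F)) (mf A c 0) S w w' =
      A w.1 w'.1 + c w'.1 w.2 + (c w.1 w'.2 + S w.2 w'.2) := fun w w' => by
    rw [fm_apply, mf_apply]
    show S w.2 w'.2 + (A w.1 w'.1 + c w.1 w'.2 + c w'.1 w.2 + (0 : F)) = _
    ring
  constructor
  · intro h w hw
    obtain ⟨h1, h2⟩ := h w.1 w.2 (fun x' => by
        have h3 := hw (x', 0)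
        rw [h0] at h3
        simpa using h3) (fun y' => by
        have h3 := hw (0, y')
        rw [h0] at h3
        simpa using h3)
    exact Prod.ext h1 h2
  · intro h x y h1 h2
    have h3 := h (x, y) fun w' => by
      rw [h0, h1, h2, add_zero]
    exact ⟨congrArg Prod.fst h3, congrArg Prod.snd h3⟩

/-- the joint law in the dual coordinates -/
theorem bsp (hsym : S_SYM) (hc2 : S_C2) (A : Matrix U U F) (hA : ∀ u v, A u v = A v u) (e : U → J)
    (he : Injective e) {κ : Type} (s : Finset κ) (Q P : κ → Finset J) (P0 : Finset J)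
    (b : κ → Bool) (h0 : ∀ u, e u ∉ P0) (h1 : ∀ l ∈ s, Disjoint P0 (Q l)) (h2 : ∀ l ∈ s, P l ⊆ Q l)
    (h3 : ∀ l ∈ s, ∀ l' ∈ s, l' ≠ l → Disjoint (P l) (Q l')) :
    |fr (fun B : Sy (J → F) => Gs (bm A) (bm (mE e)) B.1 ∧ ∀ l ∈ s, (Eg (Q l) B.1 ↔ b l = true)) -
      c2 * ∏ l ∈ s, cv (b l)| ≤
      3 * 2 ^ Fintype.card U / 2 ^ P0.card + ∑ l ∈ s, 3 / 2 ^ (P l).card := by
  have hb := pp hsym hc2 (LinearMap.snd F (U → F) (J → F)) (mf (bm A) (bm (mE e)) 0)
    (fun w w' => by
      rw [mf_apply, mf_apply, bm_symm A hA w.1 w'.1, LinearMap.zero_apply, LinearMap.zero_apply,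
        LinearMap.zero_apply, LinearMap.zero_apply]
      ring) (rs P0) (fun v => ⟨(0, zl P0 v), by
        funext j
        show zx P0 v (j : J) = v j
        exact zx_of P0 v j⟩) (fun w hw hk => by
        have hw' : w.2 = 0 := hw
        refine Prod.ext (funext fun u => ?_) hw'
        have h4 := hk (0, Pi.single (e u) 1) (by
          funext j
          show (Pi.single (e u) 1 : J → F) (j : J) = 0
          rw [Pi.single_eq_of_ne]
          intro h5
          exact h0 u (h5 ▸ j.2))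
        rw [mf_apply, hw', bf_mE e he] at h4
        simpa using h4)
    (fun B => ∀ l ∈ s, (Eg (Q l) B.1 ↔ b l = true)) (fun B T => by
      constructor
      · intro h l hl
        rw [← Eg_inv (h1 l hl) B T]
        exact h l hl
      · intro h l hl
        rw [Eg_inv (h1 l hl) B T]
        exact h l hl)
  have hk : Nat.card (LinearMap.ker (LinearMap.snd F (U → F) (J → F))) = 2 ^ Fintype.card U := by
    have h4 : Nat.card (U → F) = 2 ^ Fintype.card U := by
      rw [card_mod, finrank_fintype_fun_eq_card]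
    rw [← h4]
    exact Nat.card_congr
      { toFun := fun w => w.1.1
        invFun := fun x => ⟨(x, 0), rfl⟩
        left_inv := fun w => Subtype.ext (Prod.ext rfl (show (0 : J → F) = w.1.2 from w.2.symm))
        right_inv := fun _ => rfl }
  have hf : finrank F (P0 → F) = P0.card := by
    rw [finrank_fintype_fun_eq_card, Fintype.card_coe]
  rw [hk, hf] at hb
  push_cast at hb
  have hg : (fun B : Sy (J → F) => Gs (bm A) (bm (mE e)) B.1 ∧
      ∀ l ∈ s, (Eg (Q l) B.1 ↔ b l = true)) = fun B : Sy (J → F) =>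
      Ns (fm (LinearMap.snd F (U → F) (J → F)) (mf (bm A) (bm (mE e)) 0) B.1) ∧
      ∀ l ∈ s, (Eg (Q l) B.1 ↔ b l = true) := by
    funext B
    rw [propext (Gs_fm (bm A) (bm (mE e)) B.1)]
  rw [hg]
  have hc := chain hc2 (fun l (B : Sy (J → F)) => Eg (Q l) B.1)
    (fun l R => ∀ B T, R (B + ph (rs (P l)) T) ↔ R B) (fun l => 3 / 2 ^ (P l).card) b s
    (fun l hl R hR => t1 hsym hc2 (h2 l hl) R hR) (fun l hl t ht hlt B T => by
      have h5 : ∀ l' ∈ t, Disjoint (P l) (Q l') := fun l' hl' =>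
        h3 l hl l' (ht hl') (fun h => hlt (h ▸ hl'))
      constructor
      · intro h l' hl'
        rw [← Eg_inv (h5 l' hl') B T]
        exact h l' hl'
      · intro h l' hl'
        show Eg (Q l') (B + ph (rs (P l)) T).1 ↔ _
        rw [Eg_inv (h5 l' hl') B T]
        exact h l' hl')
  have h6 := hc2.2.1
  have h7 := hc2.2.2.1
  have h8 : fr (fun B : Sy (J → F) =>
      Ns (fm (LinearMap.snd F (U → F) (J → F)) (mf (bm A) (bm (mE e)) 0) B.1) ∧
      ∀ l ∈ s, (Eg (Q l) B.1 ↔ b l = true)) - c2 * ∏ l ∈ s, cv (b l) =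
      (fr (fun B : Sy (J → F) =>
      Ns (fm (LinearMap.snd F (U → F) (J → F)) (mf (bm A) (bm (mE e)) 0) B.1) ∧
      ∀ l ∈ s, (Eg (Q l) B.1 ↔ b l = true)) -
        c2 * fr (fun B : Sy (J → F) => ∀ l ∈ s, (Eg (Q l) B.1 ↔ b l = true))) +
      c2 * (fr (fun B : Sy (J → F) => ∀ l ∈ s, (Eg (Q l) B.1 ↔ b l = true)) -
        ∏ l ∈ s, cv (b l)) := by ring
  rw [h8]
  refine (abs_add_le _ _).trans (add_le_add hb ?_)
  rw [abs_mul, abs_of_nonneg h6.le]
  exact (mul_le_of_le_one_left (abs_nonneg _) h7.le).trans hc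

/-- the symmetric forms and the symmetric matrices -/
noncomputable def sye : Sy (J → F) ≃ {M : Matrix J J F // M.IsSymm} where
  toFun S := ⟨fun i j => S.1 (Pi.single i 1) (Pi.single j 1), by
    ext i j
    exact S.2 _ _⟩
  invFun M := ⟨bm M.1, bm_symm _ fun i j => (M.2.apply i j).symm⟩
  left_inv S := by
    refine Subtype.ext ?_
    show bf (fun i j => S.1 (Pi.single i 1) (Pi.single j 1)) = S.1
    refine LinearMap.ext_basis (Pi.basisFun F J) (Pi.basisFun F J) fun k l => ?_
    rw [Pi.basisFun_apply, Pi.basisFun_apply, bf_single]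
  right_inv M := by
    refine Subtype.ext ?_
    ext i j
    exact bm_single M.1 i j

lemma fr_sye (P : ((J → F) →ₗ[F] (J → F) →ₗ[F] F) → Prop) :
    fr (fun S : Sy (J → F) => P S.1) =
      fr (fun M : {M : Matrix J J F // M.IsSymm} => P (bm M.1)) := by
  have h := fr_equiv (sye (J := J)).symm (fun S : Sy (J → F) => P S.1)
  rw [← h]
  rfl

lemma vec_inl (A : Matrix U U F) (C : Matrix U J F) (S : Matrix J J F) (z : U ⊕ J → F) (u : U) :
    (z ᵥ* mM A C S) (Sum.inl u) =
      ∑ v, z (Sum.inl v) * A v u + ∑ k, C u k * z (Sum.inr k) := by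
  have h1 : (z ᵥ* mM A C S) (Sum.inl u) = ∑ v, z (Sum.inl v) * A v u +
      ∑ k, z (Sum.inr k) * C u k := Fintype.sum_sum_type _
  rw [h1]
  congr 1
  exact Finset.sum_congr rfl fun k _ => mul_comm _ _

lemma vec_inr (A : Matrix U U F) (C : Matrix U J F) (S : Matrix J J F) (z : U ⊕ J → F) (j : J) :
    (z ᵥ* mM A C S) (Sum.inr j) =
      ∑ v, z (Sum.inl v) * C v j + ∑ k, z (Sum.inr k) * S k j := Fintype.sum_sum_type _

lemma Gs_det (A : Matrix U U F) (C : Matrix U J F) (S : Matrix J J F) :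
    Gs (bm A) (bm C) (bm S) ↔ (mM A C S).det ≠ 0 := by
  rw [bm_Gs, det_ne_iff]
  constructor
  · intro h z hz
    obtain ⟨h1, h2⟩ := h (fun u => z (Sum.inl u)) (fun j => z (Sum.inr j))
      (fun v => by rw [← vec_inl A C S z v, hz]; rfl) (fun l => by rw [← vec_inr A C S z l, hz]; rfl)
    funext w
    rcases w with u | j
    · exact congrFun h1 u
    · exact congrFun h2 j
  · intro h x y h1 h2
    have h3 := h (Sum.elim x y) (by
      funext w
      rcases w with u | j
      · rw [vec_inl]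
        exact h1 u
      · rw [vec_inr]
        exact h2 j)
    exact ⟨funext fun u => congrFun h3 (Sum.inl u), funext fun j => congrFun h3 (Sum.inr j)⟩

lemma two_F (a : F) : a = 0 ∨ a = 1 := by
  fin_cases a
  · exact Or.inl rfl
  · exact Or.inr rfl

lemma Eg_det (d : J → F) (M : Matrix J J F) :
    Eg (Finset.univ.filter fun j => d j ≠ 0) (bm M) ↔ (1 + diagonal d * M).det ≠ 0 := by
  obtain ⟨Q, hQ⟩ : ∃ Q : Finset J, Q = Finset.univ.filter fun j => d j ≠ 0 := ⟨_, rfl⟩
  have hQ1 : ∀ j, j ∈ Q ↔ d j ≠ 0 := fun j => by rw [hQ, Finset.mem_filter]; simp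
  have hd1 : ∀ j, j ∈ Q → d j = 1 := fun j hj => (two_F (d j)).resolve_left ((hQ1 j).1 hj)
  have hd0 : ∀ j, j ∉ Q → d j = 0 := fun j hj => by
    by_contra h
    exact hj ((hQ1 j).2 h)
  rw [← hQ, det_one_add_mul_comm, det_ne_iff]
  have hv : ∀ (z : J → F) (j : J), (z ᵥ* (1 + M * diagonal d)) j = z j + (z ᵥ* M) j * d j := by
    intro z j
    rw [vecMul_add, vecMul_one, Pi.add_apply, ← vecMul_vecMul, vecMul_diagonal]
  have hf : ∀ (φ : Q → F) (ψ : Q → F), fm (zl Q) (bf fun i j : Q => if i = j then 1 else 0)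
      (bm M) φ ψ = ∑ k : Q, ((zx Q φ ᵥ* M) k + φ k) * ψ k := by
    intro φ ψ
    rw [fm_apply, bm_l, bf_l, zl_apply, zl_apply, sum_zx Q ψ, ← Finset.sum_add_distrib]
    refine Finset.sum_congr rfl fun k _ => ?_
    rw [← add_mul]
    congr 2
    rw [Finset.sum_eq_single k]
    · rw [if_pos rfl, mul_one]
    · intro i _ hi
      rw [if_neg hi, mul_zero]
    · intro h
      exact absurd (Finset.mem_univ _) h
  constructor
  · intro h z hz
    have h1 : ∀ j, z j + (z ᵥ* M) j * d j = 0 := fun j => by rw [← hv, hz]; rfl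
    have h2 : zx Q (fun j : Q => z j) = z := by
      funext j
      by_cases hj : j ∈ Q
      · exact zx_of Q (fun j : Q => z j) ⟨j, hj⟩
      · rw [zx_not Q _ hj]
        have h3 := h1 j
        rw [hd0 j hj, mul_zero, add_zero] at h3
        exact h3.symm
    have h3 := h (fun j : Q => z j) fun ψ => by
      rw [hf, h2]
      refine Finset.sum_eq_zero fun k _ => ?_
      have h4 := h1 k
      rw [hd1 k k.2, mul_one, add_comm] at h4
      rw [h4, zero_mul]
    rw [← h2, h3]
    exact map_zero (zl Q)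
  · intro h φ hφ
    have h1 : ∀ k : Q, (zx Q φ ᵥ* M) k + φ k = 0 := by
      have h2 := all_zero (fun k : Q => (zx Q φ ᵥ* M) k + φ k) (fun ψ => by
        rw [← hf]
        exact hφ ψ)
      exact h2
    refine zl_inj Q φ (h _ ?_)
    funext j
    rw [hv, zl_apply]
    by_cases hj : j ∈ Q
    · have h2 := h1 ⟨j, hj⟩
      have h3 := zx_of Q φ ⟨j, hj⟩
      rw [h3, hd1 j hj, mul_one, add_comm]
      exact h2
    · rw [zx_not Q φ hj, hd0 j hj, mul_zero, add_zero]
      rfl

end sp

end Pool.Agent.L0h2.K
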