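import Pool.Agent.L0h2.K.JL

/-!
# Joint law for several twists: the law for the random completions and several diagonals
-/

set_option autoImplicit false
set_option linter.unusedSectionVars false
set_option linter.unusedVariables false

open scoped Classical

namespace Pool.Agent.L0h2.K

open Function Module Matrix
open Pool.Agent.Y759.CX (fr fr_equiv fr_nonneg fr_le_one fr_mono fr_not fr_prod fr_comp fr_exists
  fr_single)
open Pool.Agent.Y703.CQ (S_SYM S_C2 c2 prs GdA)
open Pool.Agent.Y219.CQ (F Sy Ns sp fr_avg red card_mod finSy finHom finHom2 Gs mf mf_apply bf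
  bf_apply bf_l bf_r bf_symm bf_add bf_single all_zero Gs_iff zx zx_of zx_not sum_zx gd_iff mA mC mL
  mZ pa pa_surj)

section sp

variable {U J : Type} [Fintype U] [Fintype J]

lemma bm_add (M M' : Matrix U J F) : bm (M + M') = bm M + bm M' := bf_add _ _

lemma bm_Gs_congr {A A' : Matrix U U F} {C : Matrix U J F}
    {S S' : (J → F) →ₗ[F] (J → F) →ₗ[F] F} (h1 : A = A') (h2 : S = S') :
    Gs (bm A) (bm C) S ↔ Gs (bm A') (bm C) S' := by
  rw [h1, h2]

/-- the joint law with a base event -/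
theorem tC (hsym : S_SYM) (hc2 : S_C2) (A : Matrix U U F) (hA : ∀ u v, A u v = A v u)
    (C : Matrix U J F) (e : U → J) (he : Injective e)
    (hC : ∀ x : U → F, (∀ u, ∑ v, x v * C v (e u) = 0) → x = 0) {κ : Type} (s : Finset κ)
    (a : κ → U → F) (g : κ → J → F) (b : κ → Bool) (P : κ → Finset J) (P0 : Finset J)
    (hg : ∀ l ∈ s, ∀ u, g l (e u) = 0) (h0 : ∀ u, e u ∉ P0) (h1 : ∀ l ∈ s, ∀ j ∈ P0, g l j = 0)
    (h2 : ∀ l ∈ s, ∀ j ∈ P l, g l j ≠ 0)
    (h3 : ∀ l ∈ s, ∀ l' ∈ s, l' ≠ l → ∀ j ∈ P l, g l' j = 0) :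
    |fr (fun S : Sy (J → F) => Gs (bm A) (bm C) S.1 ∧ ∀ l ∈ s,
        (Gs (bm (A + diagonal (a l))) (bm C) (S.1 + bm (diagonal (g l))) ↔ b l = true)) -
      c2 * ∏ l ∈ s, cv (b l)| ≤
      3 * 2 ^ Fintype.card U / 2 ^ P0.card + ∑ l ∈ s, 3 / 2 ^ (P l).card := by
  have hAs : A.IsSymm := Matrix.IsSymm.ext fun i j => hA j i
  have e1 := fr_sye (J := J) (fun S => Gs (bm A) (bm C) S ∧ ∀ l ∈ s,
    (Gs (bm (A + diagonal (a l))) (bm C) (S + bm (diagonal (g l))) ↔ b l = true))
  have e2 := fr_sye (J := J) (fun B => Gs (bm A) (bm (mE e)) B ∧ ∀ l ∈ s,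
    (Eg (Finset.univ.filter fun j => dd e (a l) (g l) j ≠ 0) B ↔ b l = true))
  have e3 := bij A hAs C e he hC
    (fun M => ∀ l ∈ s, ((mM (A + diagonal (a l)) C (M + diagonal (g l))).det ≠ 0 ↔ b l = true))
    (fun B => ∀ l ∈ s, ((1 + diagonal (dd e (a l) (g l)) * B).det ≠ 0 ↔ b l = true))
    (fun S hS hd => by
      constructor
      · intro h l hl
        rw [← ev_iff A C e he (a l) (g l) (hg l hl) S hd]
        exact h l hl
      · intro h l hl
        rw [ev_iff A C e he (a l) (g l) (hg l hl) S hd]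
        exact h l hl)
  have e4 : fr (fun M : {M : Matrix J J F // M.IsSymm} => Gs (bm A) (bm C) (bm M.1) ∧ ∀ l ∈ s,
      (Gs (bm (A + diagonal (a l))) (bm C) (bm M.1 + bm (diagonal (g l))) ↔ b l = true)) =
      fr (fun S : {M : Matrix J J F // M.IsSymm} => (mM A C S.1).det ≠ 0 ∧
        ∀ l ∈ s, ((mM (A + diagonal (a l)) C (S.1 + diagonal (g l))).det ≠ 0 ↔ b l = true)) := by
    congr 1
    funext M
    simp only [← bm_add, Gs_det]
  have e5 : fr (fun M : {M : Matrix J J F // M.IsSymm} => Gs (bm A) (bm (mE e)) (bm M.1) ∧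
      ∀ l ∈ s, (Eg (Finset.univ.filter fun j => dd e (a l) (g l) j ≠ 0) (bm M.1) ↔ b l = true)) =
      fr (fun B : {M : Matrix J J F // M.IsSymm} => (mM A (mE e) B.1).det ≠ 0 ∧
        ∀ l ∈ s, ((1 + diagonal (dd e (a l) (g l)) * B.1).det ≠ 0 ↔ b l = true)) := by
    congr 1
    funext M
    simp only [Gs_det, Eg_det]
  rw [e1, e4, e3, ← e5, ← e2]
  have hr : ∀ l ∈ s, ∀ j, g l j ≠ 0 → ¬ ∃ u, e u = j := by
    rintro l hl j hj ⟨u, rfl⟩
    exact hj (hg l hl u)
  refine bsp hsym hc2 A hA e he s (fun l => Finset.univ.filter fun j => dd e (a l) (g l) j ≠ 0) P P0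
    b h0 ?_ ?_ ?_
  · intro l hl
    rw [Finset.disjoint_left]
    intro j hj hj'
    rw [Finset.mem_filter] at hj'
    refine hj'.2 ?_
    rw [dd_not (a l) (g l) (by rintro ⟨u, rfl⟩; exact h0 u hj)]
    exact h1 l hl j hj
  · intro l hl j hj
    rw [Finset.mem_filter]
    refine ⟨Finset.mem_univ _, ?_⟩
    rw [dd_not (a l) (g l) (hr l hl j (h2 l hl j hj))]
    exact h2 l hl j hj
  · intro l hl l' hl' hne
    rw [Finset.disjoint_left]
    intro j hj hj'
    rw [Finset.mem_filter] at hj'
    refine hj'.2 ?_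
    rw [dd_not (a l') (g l') (hr l hl j (h2 l hl j hj))]
    exact h3 l hl l' hl' hne j hj

/-- the choice of the positions -/
lemma exE (C : Matrix U J F) (Z : Finset J)
    (hC : ∀ x : U → F, (∀ j ∈ Z, ∑ v, x v * C v j = 0) → x = 0) :
    ∃ e : U → J, Injective e ∧ (∀ u, e u ∈ Z) ∧
      ∀ x : U → F, (∀ u, ∑ v, x v * C v (e u) = 0) → x = 0 := by
  let v : Z → (U → F) := fun j u => C u j
  have hspan : Submodule.span F (Set.range v) = ⊤ := by
    by_contra h
    obtain ⟨φ, hφ0, hφ⟩ := Submodule.exists_le_ker_of_lt_top _ (lt_top_iff_ne_top.2 h)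
    have h1 : ∀ y : U → F, φ y = ∑ u, φ (Pi.single u 1) * y u := by
      intro y
      have h2 : y = ∑ u, y u • (Pi.single u 1 : U → F) := by
        funext w
        rw [Finset.sum_apply, Finset.sum_eq_single w]
        · rw [Pi.smul_apply, Pi.single_eq_same, smul_eq_mul, mul_one]
        · intro i _ hi
          rw [Pi.smul_apply, Pi.single_eq_of_ne hi.symm, smul_zero]
        · intro h
          exact absurd (Finset.mem_univ _) h
      have h3 := congrArg φ h2
      rw [map_sum] at h3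
      rw [h3]
      exact Finset.sum_congr rfl fun u _ => by rw [map_smul, smul_eq_mul, mul_comm]
    apply hφ0
    have h2 : (fun u => φ (Pi.single u 1)) = 0 := hC _ fun j hj => by
      have h3 : φ (v ⟨j, hj⟩) = 0 := hφ (Submodule.subset_span ⟨_, rfl⟩)
      rw [h1] at h3
      exact h3
    refine LinearMap.ext fun y => ?_
    rw [h1]
    exact Finset.sum_eq_zero fun u _ => by
      rw [show φ (Pi.single u 1) = 0 from congrFun h2 u, zero_mul]
  obtain ⟨κ', a, ha, hs, hli⟩ := exists_linearIndependent' F v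
  have : Finite κ' := Finite.of_injective a ha
  have := Fintype.ofFinite κ'
  let bs : Basis κ' F (U → F) := Basis.mk hli (by rw [hs, hspan])
  have hcard : Fintype.card U = Fintype.card κ' := by
    rw [← Module.finrank_eq_card_basis bs, finrank_fintype_fun_eq_card]
  let e' : U ≃ κ' := Fintype.equivOfCardEq hcard
  refine ⟨fun u => (a (e' u)).1, fun u w h => e'.injective (ha (Subtype.ext h)),
    fun u => (a (e' u)).2, fun x hx => ?_⟩
  let φ : (U → F) →ₗ[F] F := ∑ u, x u • LinearMap.proj u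
  have hφ : ∀ y, φ y = ∑ u, x u * y u := fun y => by
    simp only [φ, LinearMap.sum_apply, LinearMap.smul_apply, LinearMap.proj_apply, smul_eq_mul]
  have h1 : φ = 0 := bs.ext fun k => by
    rw [hφ, Basis.mk_apply]
    have h2 := hx (e'.symm k)
    simp only [e'.apply_symm_apply] at h2
    exact h2
  funext u
  have h2 := hφ (Pi.single u 1)
  rw [h1, Finset.sum_eq_single u] at h2
  · rw [Pi.single_eq_same, mul_one] at h2
    exact h2.symm
  · intro i _ hi
    rw [Pi.single_eq_of_ne hi, mul_zero]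
  · intro h
    exact absurd (Finset.mem_univ _) h

/-- the diagonal matrix -/
noncomputable def dgm {X : Type} (d : X → F) : Matrix X X F := diagonal d

lemma dgm_apply {X : Type} [DecidableEq X] (d : X → F) (i j : X) :
    dgm d i j = if i = j then d i else 0 := by
  unfold dgm
  by_cases h : i = j
  · rw [if_pos h, h]
    exact @diagonal_apply_eq X F (fun a b => Classical.propDecidable (a = b)) _ d j
  · rw [if_neg h]
    exact @diagonal_apply_ne X F (fun a b => Classical.propDecidable (a = b)) _ d i j h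

/-- the joint law -/
theorem pat0 (hsym : S_SYM) (hc2 : S_C2) (A : Matrix U U F) (hA : ∀ u v, A u v = A v u)
    (C : Matrix U J F) {κ : Type} [Fintype κ] (f : κ → U → F) (g : κ → J → F) (Z : Finset J)
    (P : κ → Finset J) (hZ : ∀ i l, ∀ j ∈ Z, g i j = g l j)
    (hC : ∀ x : U → F, (∀ j ∈ Z, ∑ v, x v * C v j = 0) → x = 0)
    (hP1 : ∀ i l, i ≠ l → ∀ j ∈ P l, g i j ≠ g l j)
    (hP2 : ∀ i l l', i ≠ l → l' ≠ l → ∀ j ∈ P l, g i j = g l' j) (b : κ → Bool) :
    |fr (fun S : Sy (J → F) => ∀ l,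
        (Gs (bm (A + diagonal (f l))) (bm C) (S.1 + bm (diagonal (g l))) ↔ b l = true)) -
      ∏ l, cv (b l)| ≤
      Fintype.card κ * (3 * 4 ^ Fintype.card U / 2 ^ Z.card + ∑ l, 3 / 2 ^ (P l).card) := by
  obtain ⟨e, he, heZ, heC⟩ := exE C Z hC
  obtain ⟨P0, hP0⟩ : ∃ P0 : Finset J, P0 = Z \ Finset.univ.image e := ⟨_, rfl⟩
  have hcard : Z.card = P0.card + Fintype.card U := by
    have h1 : Finset.univ.image e ⊆ Z := fun j hj => by
      obtain ⟨u, _, rfl⟩ := Finset.mem_image.1 hj
      exact heZ u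
    have h2 := Finset.card_sdiff_add_card_eq_card h1
    rw [Finset.card_image_of_injective _ he, Finset.card_univ] at h2
    rw [hP0]
    exact h2.symm
  have key := patt (G := Sy (J → F)) (fun l S =>
      Gs (bm (A + diagonal (f l))) (bm C) (S.1 + bm (diagonal (g l))))
    (3 * 4 ^ Fintype.card U / 2 ^ Z.card + ∑ l, 3 / 2 ^ (P l).card) (by positivity)
    (Finset.univ : Finset κ) (fun i _ t _ hit b' => by
      have hA' : ∀ u v, (A + diagonal (f i)) u v = (A + diagonal (f i)) v u := fun u v => by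
        rw [Matrix.add_apply, Matrix.add_apply, hA u v, diagonal_apply, diagonal_apply]
        by_cases huv : u = v
        · rw [huv]
        · rw [if_neg huv, if_neg (Ne.symm huv)]
      have h1 := tC hsym hc2 (A + diagonal (f i)) hA' C e he heC t
        (fun l u => f l u - f i u) (fun l j => g l j - g i j) b' P P0
        (fun l _ u => by rw [hZ l i _ (heZ u), sub_self])
        (fun u hu => by
          rw [hP0, Finset.mem_sdiff] at hu
          exact hu.2 (Finset.mem_image_of_mem _ (Finset.mem_univ _)))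
        (fun l _ j hj => by
          rw [hP0, Finset.mem_sdiff] at hj
          rw [hZ l i j hj.1, sub_self])
        (fun l hl j hj h => by
          have hne : i ≠ l := fun h' => hit (h' ▸ hl)
          exact hP1 i l hne j hj (sub_eq_zero.1 h).symm)
        (fun l hl l' hl' hne j hj => by
          have hne' : i ≠ l := fun h' => hit (h' ▸ hl)
          rw [hP2 l' l i hne hne' j hj, sub_self])
      let S0 : Sy (J → F) := ⟨bm (diagonal (g i)), bm_symm _ fun u v => by
        rw [diagonal_apply, diagonal_apply]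
        by_cases huv : u = v
        · rw [huv]
        · rw [if_neg huv, if_neg (Ne.symm huv)]⟩
      have hd : ∀ (X : Type) [Fintype X] (p q : X → F),
          diagonal q + diagonal (fun x => p x - q x) = (diagonal p : Matrix X X F) := by
        intro X _ p q
        rw [diagonal_add]
        congr 1
        funext x
        rw [add_sub_cancel]
      rw [← fr_equiv (Equiv.addRight S0)] at h1
      have h2 : (fun S : Sy (J → F) => Gs (bm (A + diagonal (f i))) (bm C)
            ((Equiv.addRight S0) S).1 ∧ ∀ l ∈ t,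
          (Gs (bm (A + diagonal (f i) + diagonal (fun u => f l u - f i u))) (bm C)
            (((Equiv.addRight S0) S).1 + bm (diagonal (fun j => g l j - g i j))) ↔
              b' l = true)) = fun S : Sy (J → F) =>
          Gs (bm (A + diagonal (f i))) (bm C) (S.1 + bm (diagonal (g i))) ∧ ∀ l ∈ t,
          (Gs (bm (A + diagonal (f l))) (bm C) (S.1 + bm (diagonal (g l))) ↔ b' l = true) := by
        funext S
        have h3 : ((Equiv.addRight S0) S).1 = S.1 + bm (diagonal (g i)) := rfl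
        rw [h3]
        congr 1
        apply propext
        refine forall₂_congr fun l hl => ?_
        rw [bm_Gs_congr (by rw [add_assoc, hd U (f l) (f i)])
          (by rw [add_assoc, ← bm_add, hd J (g l) (g i)])]
      rw [h2] at h1
      refine h1.trans (add_le_add (le_of_eq ?_) ?_)
      · rw [hcard, pow_add, div_eq_div_iff (by positivity) (by positivity)]
        have h4 : (4 : ℝ) ^ Fintype.card U = 2 ^ Fintype.card U * 2 ^ Fintype.card U := by
          rw [← mul_pow]
          norm_num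
        rw [h4]
        ring
      · exact Finset.sum_le_sum_of_subset_of_nonneg (Finset.subset_univ _)
          (fun _ _ _ => by positivity)) b Finset.univ subset_rfl
  simp only [Finset.mem_univ, forall_true_left, Finset.card_univ] at key
  exact key

/-- the joint law, without instances -/
theorem pat (hsym : S_SYM) (hc2 : S_C2) (A : Matrix U U F) (hA : ∀ u v, A u v = A v u)
    (C : Matrix U J F) {κ : Type} [Fintype κ] (f : κ → U → F) (g : κ → J → F) (Z : Finset J)
    (P : κ → Finset J) (hZ : ∀ i l, ∀ j ∈ Z, g i j = g l j)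
    (hC : ∀ x : U → F, (∀ j ∈ Z, ∑ v, x v * C v j = 0) → x = 0)
    (hP1 : ∀ i l, i ≠ l → ∀ j ∈ P l, g i j ≠ g l j)
    (hP2 : ∀ i l l', i ≠ l → l' ≠ l → ∀ j ∈ P l, g i j = g l' j) (b : κ → Bool) :
    |fr (fun S : Sy (J → F) => ∀ l,
        (Gs (bm (A + dgm (f l))) (bm C) (S.1 + bm (dgm (g l))) ↔ b l = true)) -
      ∏ l, cv (b l)| ≤
      Fintype.card κ * (3 * 4 ^ Fintype.card U / 2 ^ Z.card + ∑ l, 3 / 2 ^ (P l).card) :=
  pat0 hsym hc2 A hA C f g Z P hZ hC hP1 hP2 b

end sp

/-- the probability that a random symmetric completion has a pattern -/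
def S_LAk (t : ℕ) : Prop := ∀ (U J : Type) [Fintype U] [Fintype J] [LinearOrder J] (U1 : Finset U)
  (J1 : Finset J), (∃ l, l ∉ J1) → ∀ (A : U → U → ZMod 2) (B : U → J → ZMod 2)
  (C : J → U → ZMod 2) (f : Fin t → U → ZMod 2) (g : Fin t → J → ZMod 2) (Z : Finset J)
  (P : Fin t → Finset J), Z ⊆ J1 → (∀ l, P l ⊆ J1) → (∀ i l, ∀ j ∈ Z, g i j = g l j) →
  (∀ i l, i ≠ l → ∀ j ∈ P l, g i j ≠ g l j) →
  (∀ i l l', i ≠ l → l' ≠ l → ∀ j ∈ P l, g i j = g l' j) →
  (∀ u ∈ U1, ∀ v ∈ U1, A u v = A v u) → (∀ u ∈ U1, ∀ k ∈ J1, B u k = C k u) →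
  (∀ w : U → ZMod 2, (∀ u, u ∉ U1 → w u = 0) → (∃ u, w u ≠ 0) → ∃ k ∈ Z, ∑ u, w u * C k u ≠ 0) →
  ∀ b : Fin t → Bool,
  |((Finset.univ.filter fun α : prs J1 → ZMod 2 =>
      ∀ l, (GdA U1 J1 A B C (Pool.Agent.Y703.CQ.ext α) (f l) (g l) ↔ b l = true)).card : ℝ) /
      2 ^ (prs J1).card - ∏ l, cv (b l)| ≤
    t * (3 * 4 ^ U1.card / 2 ^ Z.card + ∑ l, 3 / 2 ^ (P l).card)

theorem t_LAk (h : S_SYM) (h2 : S_C2) (t : ℕ) : S_LAk t := by
  intro U J _ _ _ U1 J1 hJ A B C f g Z P hZJ hPJ hZ hP1 hP2 hA hB hC b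
  let A1 : Matrix U1 U1 F := fun u v => mA U1 A B (fun _ => 0) u v
  let C1 : Matrix U1 J1 F := fun u k => mC U1 J1 C u k
  have key := pat h h2 A1 (fun u v => by
      show mA U1 A B (fun _ => 0) u v = mA U1 A B (fun _ => 0) v u
      unfold Pool.Agent.Y219.CQ.mA
      by_cases huv : u = v
      · rw [huv]
      · rw [if_neg huv, if_neg (Ne.symm huv), hA u u.2 v v.2])
    C1 (fun (l : Fin t) (u : U1) => f l u)
    (fun (l : Fin t) (k : J1) => g l k) (Z.subtype (· ∈ J1)) (fun l => (P l).subtype (· ∈ J1))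
    (fun i l j hj => hZ i l j (Finset.mem_subtype.1 hj)) (fun x hx => by
      by_contra hne
      obtain ⟨k, hk, hk'⟩ := hC (zx U1 x) (fun u hu => zx_not U1 x hu) (by
        by_contra hc
        push Not at hc
        exact hne (funext fun u => by rw [← zx_of U1 x u, hc]; rfl))
      apply hk'
      have h3 := hx ⟨k, hZJ hk⟩ (Finset.mem_subtype.2 hk)
      rw [← h3]
      have h4 : ∑ u, zx U1 x u * C k u = ∑ u, C k u * zx U1 x u :=
        Finset.sum_congr rfl fun u _ => mul_comm _ _
      rw [h4, sum_zx]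
      exact Finset.sum_congr rfl fun u _ => by rw [mul_comm]; rfl)
    (fun i l hil j hj => hP1 i l hil j (Finset.mem_subtype.1 hj))
    (fun i l l' hil hll j hj => hP2 i l l' hil hll j (Finset.mem_subtype.1 hj)) b
  have hc1 : ∀ Q : Finset J, Q ⊆ J1 → (Q.subtype (· ∈ J1)).card = Q.card := by
    intro Q hQ
    rw [Finset.card_subtype, Finset.filter_true_of_mem fun x hx => hQ hx]
  simp only [hc1 Z hZJ, hc1 _ (hPJ _), Fintype.card_fin, Fintype.card_coe] at key
  have h5 : ((Finset.univ.filter fun α : prs J1 → ZMod 2 =>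
      ∀ l, (GdA U1 J1 A B C (Pool.Agent.Y703.CQ.ext α) (f l) (g l) ↔ b l = true)).card : ℝ) /
      2 ^ (prs J1).card = fr (fun S : Sy (J1 → F) => ∀ l : Fin t,
        (Gs (bm (A1 + dgm (fun u : U1 => f l u))) (bm C1)
          (S.1 + bm (dgm fun k : J1 => g l k)) ↔ b l = true)) := by
    let S0 : Sy (J1 → F) := ⟨bf (mZ J1 C (fun _ => 0)),
      bf_symm _ (Pool.Agent.Y219.CQ.mZ_symm J1 C _)⟩
    rw [← fr_equiv (Equiv.addRight S0)
      (fun S : Sy (J1 → F) => ∀ l : Fin t,
        (Gs (bm (A1 + dgm (fun u : U1 => f l u))) (bm C1)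
          (S.1 + bm (dgm fun k : J1 => g l k)) ↔ b l = true)),
      ← fr_comp (pa J1) (pa_surj J1 hJ)]
    unfold Pool.Agent.Y759.CX.fr
    have h6 : Nat.card (prs J1 → F) = 2 ^ (prs J1).card := by
      rw [Nat.card_fun, Nat.card_eq_fintype_card, Nat.card_eq_fintype_card, ZMod.card,
        Fintype.card_coe]
    rw [h6, Nat.card_eq_fintype_card, Fintype.card_subtype]
    push_cast
    congr 3
    refine Finset.filter_congr fun α _ => ?_
    refine forall_congr' fun l => ?_
    rw [gd_iff U1 J1 A B C (f l) (g l) hA hB α]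
    have hx1 : bf (mA U1 A B (f l)) =
        bm (A1 + dgm (fun u : U1 => f l u)) := by
      unfold bm
      congr 1
      funext u v
      rw [Matrix.add_apply, dgm_apply]
      show mA U1 A B (f l) u v = mA U1 A B (fun _ => 0) u v + _
      unfold Pool.Agent.Y219.CQ.mA
      by_cases huv : u = v
      · simp only [if_pos huv]
        ring
      · simp only [if_neg huv, add_zero]
    have hx2 : bf (fun k m : J1 => mL J1 α k m + mZ J1 C (g l) k m) =
        bf (mL J1 α) + bf (mZ J1 C (fun _ => 0)) + bm (dgm fun k : J1 => g l k) := by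
      unfold bm
      rw [← bf_add, ← bf_add]
      congr 1
      funext k m
      rw [dgm_apply]
      unfold Pool.Agent.Y219.CQ.mZ
      by_cases hkm : k = m
      · simp only [if_pos hkm]
        ring
      · simp only [if_neg hkm, add_zero]
    rw [hx1, hx2]
    exact Iff.rfl
  rw [h5]
  exact key

end Pool.Agent.L0h2.K
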