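import Pool.Agent.Y219.CQ.LA

/-!
# Joint law for several twists: randomising a private part of a symmetric form
-/

set_option autoImplicit false
set_option linter.unusedSectionVars false
set_option linter.unusedVariables false

open scoped Classical

namespace Pool.Agent.L0h2.K

open Function Module
open Pool.Agent.Y759.CX (fr fr_equiv fr_nonneg fr_le_one fr_mono fr_not fr_prod fr_comp fr_exists
  fr_single)
open Pool.Agent.Y703.CQ (S_SYM S_C2 c2)
open Pool.Agent.Y219.CQ (F Sy Ns sp fr_avg red card_mod finSy finHom finHom2)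

section pp

variable {V W N : Type} [AddCommGroup V] [Module F V] [Finite V]
  [AddCommGroup W] [Module F W] [Finite W] [AddCommGroup N] [Module F N] [Finite N]

/-- the form on the small space -/
noncomputable def fm (i : W →ₗ[F] V) (Fx : W →ₗ[F] W →ₗ[F] F) (B : V →ₗ[F] V →ₗ[F] F) :
    W →ₗ[F] W →ₗ[F] F := B.compl₁₂ i i + Fx

lemma fm_apply (i : W →ₗ[F] V) (Fx : W →ₗ[F] W →ₗ[F] F) (B : V →ₗ[F] V →ₗ[F] F) (w w' : W) :
    fm i Fx B w w' = B (i w) (i w') + Fx w w' := rfl

/-- the change of a form by a private form -/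
noncomputable def ph (p : V →ₗ[F] N) : Sy N →+ Sy V where
  toFun T := ⟨T.1.compl₁₂ p p, fun x y => T.2 _ _⟩
  map_zero' := rfl
  map_add' := fun _ _ => rfl

lemma ph_apply (p : V →ₗ[F] N) (B : Sy V) (T : Sy N) (x y : V) :
    (B + ph p T).1 x y = B.1 x y + T.1 (p x) (p y) := rfl

/-- the row of a form -/
noncomputable def row (v : V) : Sy V →+ (V →ₗ[F] F) where
  toFun B := B.1 v
  map_zero' := rfl
  map_add' := fun _ _ => rfl

lemma row_surj {v : V} (hv : v ≠ 0) : Surjective (row v) := by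
  intro f
  obtain ⟨ε, hε⟩ : ∃ ε : V →ₗ[F] F, ε v = 1 := by
    have h3 := mt (Module.forall_dual_apply_eq_zero_iff F v).1 hv
    push Not at h3
    obtain ⟨φ, hφ⟩ := h3
    exact ⟨(φ v)⁻¹ • φ, by rw [LinearMap.smul_apply, smul_eq_mul, inv_mul_cancel₀ hφ]⟩
  let S0 : V →ₗ[F] V →ₗ[F] F := LinearMap.mk₂ F
    (fun y y' => ε y * f y' + f y * ε y' + f v * (ε y * ε y'))
    (fun x y z => by simp only [map_add]; ring)
    (fun a x y => by simp only [map_smul, smul_eq_mul]; ring)
    (fun x y z => by simp only [map_add]; ring)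
    (fun a x y => by simp only [map_smul, smul_eq_mul]; ring)
  refine ⟨⟨S0, fun x y => ?_⟩, ?_⟩
  · show ε x * f y + f x * ε y + f v * (ε x * ε y) = ε y * f x + f y * ε x + f v * (ε y * ε x)
    ring
  · refine LinearMap.ext fun z => ?_
    show ε v * f z + f v * ε z + f v * (ε v * ε z) = f z
    rw [hε, one_mul, one_mul, add_assoc, CharTwo.add_self_eq_zero, add_zero]

/-- the probability that the row is given on a subspace -/
lemma mom {v : V} (hv : v ≠ 0) (L : Submodule F V) (E : Sy V → Prop)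
    (hE : ∀ B B', E B → E B' → ∀ l ∈ L, B.1 v l = B'.1 v l) :
    fr E ≤ 1 / Nat.card L := by
  by_cases h : ∃ B, E B
  · obtain ⟨B0, hB0⟩ := h
    let ψ : Sy V →+ (L →ₗ[F] F) :=
      { toFun := fun S => S.1 v ∘ₗ L.subtype
        map_zero' := rfl
        map_add' := fun _ _ => rfl }
    have hψ : Surjective ψ := by
      intro f
      obtain ⟨p, hp⟩ := LinearMap.exists_leftInverse_of_injective L.subtype
        (LinearMap.ker_eq_bot.2 L.injective_subtype)
      obtain ⟨B, hB⟩ := row_surj hv (f ∘ₗ p)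
      refine ⟨B, LinearMap.ext fun z => ?_⟩
      have h1 := LinearMap.congr_fun hB (z : V)
      have h2 : p (z : V) = z := LinearMap.congr_fun hp z
      show B.1 v z = f z
      have h3 : B.1 v (z : V) = f (p (z : V)) := h1
      rw [h3, h2]
    have h4 : fr E ≤ fr (fun S : Sy V => (fun f => f = ψ B0) (ψ S)) :=
      fr_mono fun S hS => LinearMap.ext fun z => hE S B0 hS hB0 z z.2
    refine h4.trans (le_of_eq ?_)
    rw [fr_comp ψ hψ (fun f => f = ψ B0), fr_single, card_mod, card_mod]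
    have h6 : finrank F (L →ₗ[F] F) = finrank F L := Subspace.dual_finrank_eq
    rw [h6]
  · have h1 : fr E = 0 := by
      unfold Pool.Agent.Y759.CX.fr
      have : IsEmpty {S : Sy V // E S} := ⟨fun x => h ⟨x.1, x.2⟩⟩
      rw [Nat.card_of_isEmpty, Nat.cast_zero, zero_div]
    rw [h1]
    positivity

/-- the frequency is an average -/
lemma fr_sum {G : Type} [Fintype G] (P : G → Prop) [DecidablePred P] :
    fr P = (∑ g, if P g then (1 : ℝ) else 0) / Nat.card G := by
  unfold Pool.Agent.Y759.CX.fr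
  rw [Finset.sum_boole, Nat.card_eq_fintype_card, Fintype.card_subtype]

/-- the frequency of a nonsingular form when a part is randomised, given the rest -/
lemma pt (hsym : S_SYM) (hc2 : S_C2) (i : W →ₗ[F] V) (Fx : W →ₗ[F] W →ₗ[F] F)
    (hFx : ∀ x y, Fx x y = Fx y x) (p : V →ₗ[F] N) (hp : Surjective (p ∘ₗ i)) (B : Sy V)
    (hg : ∀ w, p (i w) = 0 → (∀ w', fm i Fx B.1 w w' = 0) → w = 0) :
    |fr (fun T : Sy N => Ns (fm i Fx (B + ph p T).1)) - c2| ≤
      Nat.card {w : LinearMap.ker (p ∘ₗ i) // ∀ k, p (i k) = 0 → fm i Fx B.1 w k = 0} /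
        2 ^ finrank F N := by
  let R : Submodule F W :=
    { carrier := {w | p (i w) = 0 ∧ ∀ k, p (i k) = 0 → fm i Fx B.1 w k = 0}
      zero_mem' := ⟨by rw [map_zero, map_zero], fun k _ => by rw [map_zero]; rfl⟩
      add_mem' := fun {a b} ha hb => ⟨by rw [map_add, map_add, ha.1, hb.1, add_zero], fun k hk => by
        rw [map_add, LinearMap.add_apply, ha.2 k hk, hb.2 k hk, add_zero]⟩
      smul_mem' := fun c a ha => ⟨by rw [map_smul, map_smul, ha.1, smul_zero], fun k hk => by
        rw [map_smul, LinearMap.smul_apply, ha.2 k hk, smul_zero]⟩ }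
  obtain ⟨τ, hτ⟩ := LinearMap.exists_leftInverse_of_injective R.subtype
    (LinearMap.ker_eq_bot.2 R.injective_subtype)
  obtain ⟨m, hm, hm'⟩ := red (X := R) hsym (fm i Fx B.1)
    (fun w w' => by rw [fm_apply, fm_apply, B.2 (i w), hFx w]) (p ∘ₗ i) hp
    (fun w hw h => hg w hw h) τ (fun w hw h h1 => by
      have h2 : τ ((⟨w, hw, h⟩ : R) : W) = ⟨w, hw, h⟩ := LinearMap.congr_fun hτ ⟨w, hw, h⟩
      have h3 : (⟨w, hw, h⟩ : R) = 0 := h2.symm.trans h1
      exact congrArg Subtype.val h3)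
  have h1 : fr (fun T : Sy N => Ns (fm i Fx (B + ph p T).1)) = sp m := by
    rw [← hm']
    congr 1
    funext T
    apply propext
    have h2 : ∀ w w', fm i Fx (B + ph p T).1 w w' =
        fm i Fx B.1 w w' + T.1 ((p ∘ₗ i) w) ((p ∘ₗ i) w') := fun w w' => by
      rw [fm_apply, ph_apply, fm_apply, add_right_comm]
      rfl
    unfold Pool.Agent.Y219.CQ.Ns
    simp only [h2]
  have h3 : Nat.card {w : LinearMap.ker (p ∘ₗ i) // ∀ k, p (i k) = 0 → fm i Fx B.1 w k = 0} =
      2 ^ finrank F R := by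
    rw [← card_mod]
    exact Nat.card_congr
      { toFun := fun w => ⟨w.1.1, w.1.2, w.2⟩
        invFun := fun w => ⟨⟨w.1, w.2.1⟩, w.2.2⟩
        left_inv := fun _ => rfl
        right_inv := fun _ => rfl }
  rw [h1, h3]
  refine (hc2.1 ((m + 1) / 2)).trans ?_
  have h4 : (1 / 4 : ℝ) ^ ((m + 1) / 2) ≤ (1 / 2) ^ m := by
    have h2 : (1 / 4 : ℝ) = (1 / 2) ^ 2 := by norm_num
    rw [h2, ← pow_mul]
    exact pow_le_pow_of_le_one (by norm_num) (by norm_num) (by omega)
  refine h4.trans ?_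
  push_cast
  rw [le_div_iff₀ (by positivity), one_div_pow, one_div, inv_mul_le_iff₀ (by positivity), ← pow_add]
  exact pow_le_pow_right₀ (by norm_num) (by omega)

/-- the frequency of a nonsingular form, times a property which does not see the private part -/
theorem pp (hsym : S_SYM) (hc2 : S_C2) (i : W →ₗ[F] V) (Fx : W →ₗ[F] W →ₗ[F] F)
    (hFx : ∀ x y, Fx x y = Fx y x) (p : V →ₗ[F] N) (hp : Surjective (p ∘ₗ i))
    (H2 : ∀ w, i w = 0 → (∀ k, p (i k) = 0 → Fx w k = 0) → w = 0)
    (Q : Sy V → Prop) (hQ : ∀ B T, Q (B + ph p T) ↔ Q B) :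
    |fr (fun B : Sy V => Ns (fm i Fx B.1) ∧ Q B) - c2 * fr Q| ≤
      3 * Nat.card (LinearMap.ker i) / 2 ^ finrank F N := by
  have := Fintype.ofFinite (Sy V)
  have := Fintype.ofFinite W
  have hG : (0 : ℝ) < Nat.card (Sy V) := by exact_mod_cast Nat.card_pos
  have hN : (0 : ℝ) < 2 ^ finrank F N := by positivity
  obtain ⟨K, hK⟩ : ∃ K : Submodule F W, K = LinearMap.ker (p ∘ₗ i) := ⟨_, rfl⟩
  have := Fintype.ofFinite K
  have hKm : ∀ w, w ∈ K ↔ p (i w) = 0 := fun w => by rw [hK]; exact Iff.rfl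
  -- the sizes
  have hc0 : (0 : ℝ) < Nat.card (LinearMap.ker i) := by exact_mod_cast Nat.card_pos
  have hcW : (Nat.card W : ℝ) = Nat.card K * 2 ^ finrank F N := by
    have h1 := LinearMap.finrank_range_add_finrank_ker (p ∘ₗ i)
    rw [LinearMap.range_eq_top.2 hp, finrank_top, ← hK] at h1
    rw [card_mod, card_mod, ← h1, add_comm, pow_add]
    push_cast
    ring
  have hcW2 : (Nat.card W : ℝ) = Nat.card (LinearMap.range i) * Nat.card (LinearMap.ker i) := by
    have h1 := LinearMap.finrank_range_add_finrank_ker i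
    rw [card_mod, card_mod, card_mod, ← h1, pow_add]
    push_cast
    ring
  have hcK : (Nat.card K : ℝ) = Nat.card (K.map i) * Nat.card (LinearMap.ker i) := by
    have h1 := LinearMap.finrank_range_add_finrank_ker (i.domRestrict K)
    have h2 : LinearMap.range (i.domRestrict K) = K.map i := by
      rw [LinearMap.range_domRestrict]
    have h3 : finrank F (LinearMap.ker (i.domRestrict K)) = finrank F (LinearMap.ker i) := by
      refine LinearEquiv.finrank_eq (LinearEquiv.ofBijective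
        ({ toFun := fun w => ⟨w.1.1, w.2⟩
           map_add' := fun _ _ => rfl
           map_smul' := fun _ _ => rfl } : LinearMap.ker (i.domRestrict K) →ₗ[F] LinearMap.ker i)
        ⟨fun a b h => Subtype.ext (Subtype.ext (congrArg (fun z : LinearMap.ker i => (z : W)) h)),
          fun b => ⟨⟨⟨b.1, (hKm _).2 (by rw [show i b.1 = 0 from b.2, map_zero])⟩, b.2⟩, rfl⟩⟩)
    rw [h2, h3] at h1
    rw [card_mod, card_mod, card_mod, ← h1, pow_add]
    push_cast
    ring
  have hcKW : (Nat.card K : ℝ) / Nat.card (LinearMap.range i) =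
      Nat.card (LinearMap.ker i) / 2 ^ finrank F N := by
    have h1 : (0 : ℝ) < Nat.card (LinearMap.range i) := by exact_mod_cast Nat.card_pos
    rw [div_eq_div_iff h1.ne' hN.ne', ← hcW, hcW2]
    ring
  -- the two first moments
  have m1 : ∀ w : K, fr (fun B : Sy V => ∀ k, p (i k) = 0 → fm i Fx B.1 w k = 0) ≤
      (if w = 0 then 1 else 0) + 1 / Nat.card (K.map i) := by
    intro w
    by_cases hw : w = 0
    · rw [if_pos hw]
      have h1 := fr_le_one (fun B : Sy V => ∀ k, p (i k) = 0 → fm i Fx B.1 w k = 0)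
      have h2 : (0 : ℝ) ≤ 1 / Nat.card (K.map i) := by positivity
      linarith
    · rw [if_neg hw, zero_add]
      by_cases hi : i w = 0
      · have h1 : fr (fun B : Sy V => ∀ k, p (i k) = 0 → fm i Fx B.1 w k = 0) = 0 := by
          unfold Pool.Agent.Y759.CX.fr
          have : IsEmpty {B : Sy V // ∀ k, p (i k) = 0 → fm i Fx B.1 w k = 0} := ⟨fun x => hw
            (Subtype.ext (H2 w hi fun k hk => by
              have h3 := x.2 k hk
              rwa [fm_apply, hi, map_zero, LinearMap.zero_apply, zero_add] at h3))⟩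
          rw [Nat.card_of_isEmpty, Nat.cast_zero, zero_div]
        rw [h1]
        positivity
      · refine mom hi _ _ fun B B' hB hB' l hl => ?_
        obtain ⟨k, hk, rfl⟩ := Submodule.mem_map.1 hl
        have h1 := hB k ((hKm k).1 hk)
        have h2 := hB' k ((hKm k).1 hk)
        rw [fm_apply] at h1 h2
        exact add_right_cancel (h1.trans h2.symm)
  have m2 : ∀ w : K, fr (fun B : Sy V => w ≠ 0 ∧ ∀ k, fm i Fx B.1 w k = 0) ≤
      1 / Nat.card (LinearMap.range i) := by
    intro w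
    by_cases hw : w = 0
    · have h1 : fr (fun B : Sy V => w ≠ 0 ∧ ∀ k, fm i Fx B.1 w k = 0) = 0 := by
        unfold Pool.Agent.Y759.CX.fr
        have : IsEmpty {B : Sy V // w ≠ 0 ∧ ∀ k, fm i Fx B.1 w k = 0} := ⟨fun x => x.2.1 hw⟩
        rw [Nat.card_of_isEmpty, Nat.cast_zero, zero_div]
      rw [h1]
      positivity
    · by_cases hi : i w = 0
      · have h1 : fr (fun B : Sy V => w ≠ 0 ∧ ∀ k, fm i Fx B.1 w k = 0) = 0 := by
          unfold Pool.Agent.Y759.CX.fr
          have : IsEmpty {B : Sy V // w ≠ 0 ∧ ∀ k, fm i Fx B.1 w k = 0} := ⟨fun x => hw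
            (Subtype.ext (H2 w hi fun k _ => by
              have h3 := x.2.2 k
              rwa [fm_apply, hi, map_zero, LinearMap.zero_apply, zero_add] at h3))⟩
          rw [Nat.card_of_isEmpty, Nat.cast_zero, zero_div]
        rw [h1]
        positivity
      · refine mom hi _ _ fun B B' hB hB' l hl => ?_
        obtain ⟨k, rfl⟩ := hl
        have h1 := hB.2 k
        have h2 := hB'.2 k
        rw [fm_apply] at h1 h2
        exact add_right_cancel (h1.trans h2.symm)
  -- the pointwise bound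
  have key : ∀ B : Sy V, |fr (fun T : Sy N => Ns (fm i Fx (B + ph p T).1)) - c2| ≤
      (∑ w : K, if ∀ k, p (i k) = 0 → fm i Fx B.1 w k = 0 then (1 : ℝ) else 0) / 2 ^ finrank F N +
      (if ∃ w : K, w ≠ 0 ∧ ∀ k, fm i Fx B.1 w k = 0 then 1 else 0) := by
    intro B
    have h0 : (0 : ℝ) ≤ ∑ w : K, if ∀ k, p (i k) = 0 → fm i Fx B.1 w k = 0 then (1 : ℝ) else 0 :=
      Finset.sum_nonneg fun w _ => by split_ifs <;> norm_num
    by_cases hg : ∃ w : K, w ≠ 0 ∧ ∀ k, fm i Fx B.1 w k = 0
    · rw [if_pos hg]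
      have h3 := fr_nonneg (fun T : Sy N => Ns (fm i Fx (B + ph p T).1))
      have h4 := fr_le_one (fun T : Sy N => Ns (fm i Fx (B + ph p T).1))
      have h5 := hc2.2.1
      have h6 := hc2.2.2.1
      have h7 : (0 : ℝ) ≤ (∑ w : K, if ∀ k, p (i k) = 0 → fm i Fx B.1 w k = 0 then (1 : ℝ) else 0) /
        2 ^ finrank F N := div_nonneg h0 hN.le
      rw [abs_le]
      constructor <;> linarith
    · rw [if_neg hg, add_zero]
      have h1 := pt hsym hc2 i Fx hFx p hp B fun w hw h => by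
        by_contra hne
        exact hg ⟨⟨w, (hKm w).2 hw⟩, fun h' => hne (congrArg Subtype.val h'), h⟩
      rw [← hK] at h1
      refine h1.trans (le_of_eq ?_)
      rw [Finset.sum_boole, Nat.card_eq_fintype_card, Fintype.card_subtype]
  -- the sum
  rw [fr_avg (ph p) (fun B : Sy V => Ns (fm i Fx B.1) ∧ Q B), fr_sum Q, ← mul_div_assoc, ← sub_div,
    Finset.mul_sum, ← Finset.sum_sub_distrib, abs_div, abs_of_pos hG, div_le_iff₀ hG]
  have h1 : ∀ B : Sy V, |fr (fun T : Sy N => Ns (fm i Fx (B + ph p T).1) ∧ Q (B + ph p T)) -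
      c2 * (if Q B then (1 : ℝ) else 0)| ≤
      (∑ w : K, if ∀ k, p (i k) = 0 → fm i Fx B.1 w k = 0 then (1 : ℝ) else 0) / 2 ^ finrank F N +
      (if ∃ w : K, w ≠ 0 ∧ ∀ k, fm i Fx B.1 w k = 0 then 1 else 0) := by
    intro B
    by_cases hB : Q B
    · have h2 : (fun T : Sy N => Ns (fm i Fx (B + ph p T).1) ∧ Q (B + ph p T)) =
          fun T : Sy N => Ns (fm i Fx (B + ph p T).1) := by
        funext T
        rw [propext (hQ B T)]
        exact propext ⟨fun h => h.1, fun h => ⟨h, hB⟩⟩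
      rw [h2, if_pos hB, mul_one]
      exact key B
    · have h2 : fr (fun T : Sy N => Ns (fm i Fx (B + ph p T).1) ∧ Q (B + ph p T)) = 0 := by
        unfold Pool.Agent.Y759.CX.fr
        have : IsEmpty {T : Sy N // Ns (fm i Fx (B + ph p T).1) ∧ Q (B + ph p T)} :=
          ⟨fun x => hB ((hQ B x.1).1 x.2.2)⟩
        rw [Nat.card_of_isEmpty, Nat.cast_zero, zero_div]
      rw [h2, if_neg hB, mul_zero, sub_zero, abs_zero]
      exact (abs_nonneg _).trans (key B)
  refine (Finset.abs_sum_le_sum_abs _ _).trans ((Finset.sum_le_sum fun B _ => h1 B).trans ?_)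
  rw [Finset.sum_add_distrib, ← Finset.sum_div, Finset.sum_comm]
  have h2 : ∑ w : K, ∑ B : Sy V, (if ∀ k, p (i k) = 0 → fm i Fx B.1 w k = 0 then (1 : ℝ) else 0) ≤
      (1 + Nat.card (LinearMap.ker i)) * Nat.card (Sy V) := by
    have h3 : ∀ w : K, ∑ B : Sy V, (if ∀ k, p (i k) = 0 → fm i Fx B.1 w k = 0 then (1 : ℝ) else 0)
        ≤ ((if w = 0 then 1 else 0) + 1 / Nat.card (K.map i)) * Nat.card (Sy V) := by
      intro w
      have h4 := m1 w
      rwa [fr_sum, div_le_iff₀ hG] at h4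
    refine (Finset.sum_le_sum fun w _ => h3 w).trans (le_of_eq ?_)
    have h5 : (0 : ℝ) < Nat.card (K.map i) := by exact_mod_cast Nat.card_pos
    rw [← Finset.sum_mul, Finset.sum_add_distrib, Finset.sum_ite_eq' Finset.univ (0 : K),
      if_pos (Finset.mem_univ _), Finset.sum_const, Finset.card_univ, nsmul_eq_mul,
      ← Nat.card_eq_fintype_card, hcK]
    congr 2
    field_simp
  have h3 : ∑ B : Sy V, (if ∃ w : K, w ≠ 0 ∧ ∀ k, fm i Fx B.1 w k = 0 then (1 : ℝ) else 0) ≤
      Nat.card (LinearMap.ker i) / 2 ^ finrank F N * Nat.card (Sy V) := by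
    have h4 := fr_exists (fun (w : K) (B : Sy V) => w ≠ 0 ∧ ∀ k, fm i Fx B.1 w k = 0) m2
    rw [fr_sum, div_le_iff₀ hG, ← Nat.card_eq_fintype_card, mul_one_div, hcKW] at h4
    exact h4
  refine (add_le_add (div_le_div_of_nonneg_right h2 hN.le) h3).trans ?_
  have h4 : (1 : ℝ) ≤ Nat.card (LinearMap.ker i) := by exact_mod_cast Nat.card_pos
  have h5 : (0 : ℝ) ≤ Nat.card (Sy V) / 2 ^ finrank F N := by positivity
  have h6 : (1 + (Nat.card (LinearMap.ker i) : ℝ)) * Nat.card (Sy V) / 2 ^ finrank F N +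
      Nat.card (LinearMap.ker i) / 2 ^ finrank F N * Nat.card (Sy V) =
      (1 + 2 * Nat.card (LinearMap.ker i)) * (Nat.card (Sy V) / 2 ^ finrank F N) := by ring
  have h7 : 3 * (Nat.card (LinearMap.ker i) : ℝ) / 2 ^ finrank F N * Nat.card (Sy V) =
      (3 * Nat.card (LinearMap.ker i)) * (Nat.card (Sy V) / 2 ^ finrank F N) := by ring
  rw [h6, h7]
  exact mul_le_mul_of_nonneg_right (by linarith) h5

end pp

end Pool.Agent.L0h2.K
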