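import Pool.Agent.L0h2.K.LK
import Pool.Agent.R413.SQ.Stm

/-!
# Joint law for several twists: the statements of the parts
-/

set_option autoImplicit false
set_option linter.unusedVariables false

open scoped Classical

namespace Pool.Agent.L0h2.K

open Finset hiding mk
open Pool.Agent.Y703.CX (sm la jj XX eL zz kk S_SIE)
open Pool.Agent.Y703.CQ (nr sg prs HB S_EQ ext GdA S_SYM S_C2 c2)
open Pool.Agent.R413.SQ (mk Sp In Gd SS S_BIL)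

/-- the modulus -/
def qq (R : Finset ℕ) : ℕ := 28 * ∏ r ∈ R, r

/-- the symbol of a prime with respect to a set of primes -/
noncomputable def dR (T : Finset ℕ) (p : ℕ) : ZMod 2 := ∑ r ∈ T, nr r p

/-- the function on the diagonal -/
noncomputable def ff (h : ℕ → ZMod 2) (T : Finset ℕ) (p : ℕ) : ZMod 2 := h p + dR T p

/-- the class of the primes for which all the twists agree -/
def Zc (R : Finset ℕ) (p : ℕ) : Prop := mk p = 1 ∧ ∀ r ∈ R, nr r p = 0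

/-- the sets of the class, without the primes of `R` -/
noncomputable def SR (R : Finset ℕ) (X : ℕ) : Finset (Finset ℕ) :=
  (SS ∅ ∅ X).filter fun S => Disjoint S R

/-- the labels of the large primes of the common class are not degenerate -/
def Nz (R S₀ S₁ : Finset ℕ) : Prop :=
  ∀ w : ℕ → ZMod 2, (∃ u ∈ S₀, mk u = 1 ∧ w u ≠ 0) →
    ∃ p ∈ S₁, Zc R p ∧ ∑ u ∈ S₀.filter (fun u => mk u = 1), w u * nr p u ≠ 0

/-- the data: the primes, the twists and the private classes -/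
structure Dt (t : ℕ) (R : Finset ℕ) (T : Fin t → Finset ℕ) (a : Fin t → ℕ) : Prop where
  pr : ∀ r ∈ R, r.Prime ∧ r % 4 = 1
  sub : ∀ l, T l ⊆ R
  lt : ∀ l, a l < qq R
  cop : ∀ l, Nat.Coprime (a l) (qq R)
  a4 : ∀ l, a l % 4 = 1
  am : ∀ l, mk (a l) = 1
  ne : ∀ i l, i ≠ l → dR (T i) (a l) ≠ dR (T l) (a l)
  eq : ∀ i i' l, i ≠ l → i' ≠ l → dR (T i) (a l) = dR (T i') (a l)

/-- the pattern -/
def Pt (t : ℕ) (h : ℕ → ZMod 2) (T : Fin t → Finset ℕ) (b : Fin t → Bool) (S : Finset ℕ) : Prop :=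
  ∀ l, (Gd (ff h (T l)) S ↔ b l = true)

/-- the count in a box -/
def S_BOXk (t : ℕ) : Prop := S_EQ → S_LAk t → ∀ (R : Finset ℕ) (T : Fin t → Finset ℕ)
  (h : ℕ → ZMod 2) (b : Fin t → Bool) (ι : Type) [Fintype ι] [LinearOrder ι]
  (J1 JZ : Finset ι) (JP : Fin t → Finset ι) (δ : ι → Fin t → ZMod 2) (C : ι → Finset ℕ)
  (X : ι → ℕ) (κ : ℝ) (S₀ : Finset ℕ), 0 ≤ κ →
  (∀ i, (C i).card ≤ X i) → HB J1 C X κ → (∀ u ∈ S₀, (u.Prime ∧ u % 4 = 1) ∧ u ≠ 2) →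
  (∀ i, ∀ p ∈ C i, (p.Prime ∧ p % 4 = 1) ∧ p ≠ 2 ∧ p ∉ S₀ ∧ (i ∈ J1 ↔ mk p = 1)) →
  (∀ i, ∀ p ∈ C i, (i ∈ JZ ↔ Zc R p)) → (∀ i, ∀ p ∈ C i, ∀ l, dR (T l) p = δ i l) →
  JZ ⊆ J1 → (∀ l, JP l ⊆ J1) → (∀ i ∈ JZ, ∀ l l', δ i l = δ i l') →
  (∀ i l, i ≠ l → ∀ j ∈ JP l, δ j i ≠ δ j l) →
  (∀ i l l', i ≠ l → l' ≠ l → ∀ j ∈ JP l, δ j i = δ j l') →
  (∀ i l, i ≠ l → Disjoint (C i) (C l)) → (∃ i, i ∉ J1) →
  |(((Fintype.piFinset C).filter fun p => Nz R S₀ (univ.image p) ∧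
      Pt t h T b (S₀ ∪ univ.image p)).card : ℝ) -
      (∏ l, cv (b l)) * (((Fintype.piFinset C).filter fun p => Nz R S₀ (univ.image p)).card : ℝ)| ≤
    t * (3 * 4 ^ S₀.card / 2 ^ JZ.card + ∑ l, 3 / 2 ^ (JP l).card) *
      (((Fintype.piFinset C).filter fun p => Nz R S₀ (univ.image p)).card : ℝ) +
    2 ^ ((2 * S₀.card + 1) * Fintype.card ι + (prs J1).card) * (κ * ∏ j, (X j : ℝ))

/-- the regular sets -/
noncomputable def RK (t : ℕ) (R : Finset ℕ) (a : Fin t → ℕ) (X z H k V : ℕ) : Finset (Finset ℕ) :=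
  (SR R X).filter fun S => Set.InjOn (jj H) (la z S : Set ℕ) ∧ S.card ≤ k ∧
    (∏ p ∈ sm z S, p) * ∏ p ∈ la z S, XX H (jj H p) ≤ X ∧
    2 * (sm z S).card + V < ((la z S).filter (Zc R)).card ∧
    (∀ l, V < ((la z S).filter fun p => p % qq R = a l).card) ∧
    ∃ p ∈ la z S, mk p ≠ 1

/-- the sum over the boxes -/
def S_KEYk (t : ℕ) : Prop := S_BIL → S_EQ → S_LAk t → S_BOXk t → ∃ C : ℝ, 1 ≤ C ∧
  ∀ (R : Finset ℕ) (T : Fin t → Finset ℕ) (a : Fin t → ℕ) (h : ℕ → ZMod 2) (b : Fin t → Bool)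
  (X z H k V N : ℕ) (κ : ℝ), Dt t R T a → 1 ≤ X → 1 ≤ H → 1 ≤ z →
  0 ≤ κ → C ≤ κ ^ 12 * z → (H : ℝ) * Real.log X < N →
  |(((RK t R a X z H k V).filter fun S => Nz R (sm z S) (la z S) ∧ Pt t h T b S).card : ℝ) -
      (∏ l, cv (b l)) *
        (((RK t R a X z H k V).filter fun S => Nz R (sm z S) (la z S)).card : ℝ)| ≤
    3 * t * (t + 1) * (1 / 2 : ℝ) ^ V * ((RK t R a X z H k V).card : ℝ) +
    (qq R * N + qq R : ℝ) ^ k * (3 ^ (3 * k ^ 2) * κ) * (X * (1 + Real.log X))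

/-- the sets of primes of the common class on which the product of the primes in `W` is a square -/
noncomputable def HR (R W : Finset ℕ) (Y : ℕ) : Finset (Finset ℕ) :=
  (range (Y + 1)).powerset.filter fun S => (∀ p ∈ S, (p.Prime ∧ p % 4 = 1) ∧ Zc R p ∧ p ∉ R ∧
    p ∉ W ∧ ∑ u ∈ W, nr p u = 0) ∧ ∏ p ∈ S, p ≤ Y

/-- the logarithmic density for a nontrivial quadratic character -/
def S_HALk : Prop := ∀ R : Finset ℕ, (∀ r ∈ R, r.Prime ∧ r % 4 = 1) → ∃ C : ℝ, 1 ≤ C ∧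
  ∀ (W : Finset ℕ) (Y : ℕ), W.Nonempty → (∀ u ∈ W, u.Prime ∧ u % 4 = 1) → Disjoint W R → 2 ≤ Y →
  ∑ S ∈ HR R W Y, (1 : ℝ) / ((∏ p ∈ S, p : ℕ) : ℝ) ≤
    C * (Real.log ((∏ u ∈ W, u : ℕ) : ℝ)) ^ (1 / 2 : ℝ) *
      (Real.log Y) ^ ((1 / 2 : ℝ) ^ (R.card + 3))

/-- the saving -/
noncomputable def eta (R : Finset ℕ) : ℝ := 1 / (8 * qq R)

/-- few sets have degenerate labels -/
def S_BADk : Prop := S_SIE → S_HALk → ∀ R : Finset ℕ, (∀ r ∈ R, r.Prime ∧ r % 4 = 1) →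
  ∃ (C : ℝ) (X₀ : ℕ), ∀ X : ℕ, X₀ ≤ X →
  (((SR R X).filter fun S => S.card ≤ kk X ∧ ¬ Nz R (sm (zz X) S) (la (zz X) S)).card : ℝ) ≤
    C * X * (Real.log X) ^ (-(1 / 2) - eta R : ℝ)

/-- few sets have few large primes in a class -/
def S_FEWk : Prop := S_SIE → ∀ R : Finset ℕ, (∀ r ∈ R, r.Prime ∧ r % 4 = 1) → ∀ (c V : ℕ),
  c < qq R → Nat.Coprime c (qq R) → c % 4 = 1 →
  ∃ (C : ℝ) (X₀ : ℕ), ∀ X : ℕ, X₀ ≤ X →
  (((SR R X).filter fun S => ((la (zz X) S).filter fun p => p % qq R = c).card ≤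
      2 * (sm (zz X) S).card + V).card : ℝ) ≤ C * X * (Real.log X) ^ (-(1 / 2) - eta R : ℝ)

/-- the lower bound for the size of the class -/
def S_LOWk : Prop := ∀ R : Finset ℕ, (∀ r ∈ R, r.Prime ∧ r % 4 = 1) →
  ∃ (c : ℝ) (X₀ : ℕ), 0 < c ∧ ∀ X : ℕ, X₀ ≤ X →
  c * X * (Real.log X) ^ (-(1 / 2) : ℝ) ≤ ((SR R X).card : ℝ)

/-- the joint law for the sets of primes -/
def S_DQk : Prop := ∀ (t : ℕ) (R : Finset ℕ) (T : Fin t → Finset ℕ) (a : Fin t → ℕ)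
  (h : ℕ → ZMod 2) (b : Fin t → Bool), Dt t R T a → Filter.Tendsto
  (fun X : ℕ => (((SR R X).filter (Pt t h T b)).card : ℝ) / ((SR R X).card : ℝ)) Filter.atTop
  (nhds (∏ l, cv (b l)))

/-- the symbol depends on the residue -/
theorem nr_mod (r p q : ℕ) (h : p % r = q % r) : nr r p = nr r q := by
  unfold nr
  have h1 : (p : ZMod r) = (q : ZMod r) := (ZMod.natCast_eq_natCast_iff p q r).2 h
  rw [h1]

theorem dvd_qq {R : Finset ℕ} {r : ℕ} (h : r ∈ R) : r ∣ qq R :=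
  (Finset.dvd_prod_of_mem (fun r => r) h).mul_left 28

theorem dR_mod {R T : Finset ℕ} (hT : T ⊆ R) (p : ℕ) : dR T (p % qq R) = dR T p := by
  unfold dR
  exact Finset.sum_congr rfl fun r hr => nr_mod _ _ _ (Nat.mod_mod_of_dvd _ (dvd_qq (hT hr)))

theorem mk_mod (R : Finset ℕ) (p : ℕ) : mk (p % qq R) = mk p := by
  have h : p % qq R % 7 = p % 7 := Nat.mod_mod_of_dvd _ ((by norm_num : 7 ∣ 28).mul_right _)
  unfold Pool.Agent.R413.SQ.mk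
  rw [h]

theorem Zc_mod (R : Finset ℕ) (p : ℕ) : Zc R (p % qq R) ↔ Zc R p := by
  unfold Zc
  rw [mk_mod]
  refine and_congr_right fun _ => forall₂_congr fun r hr => ?_
  rw [nr_mod r _ _ (Nat.mod_mod_of_dvd _ (dvd_qq hr))]

theorem mod4 (R : Finset ℕ) (p : ℕ) : p % qq R % 4 = p % 4 :=
  Nat.mod_mod_of_dvd _ ((by norm_num : 4 ∣ 28).mul_right _)

theorem qq_pos {R : Finset ℕ} (h : ∀ r ∈ R, r.Prime ∧ r % 4 = 1) : 0 < qq R :=
  Nat.mul_pos (by norm_num) (Finset.prod_pos fun r hr => (h r hr).1.pos)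

theorem Zc_dR {R T : Finset ℕ} (hT : T ⊆ R) {p : ℕ} (h : Zc R p) : dR T p = 0 :=
  Finset.sum_eq_zero fun r hr => h.2 r (hT hr)

theorem mem_SR {R : Finset ℕ} {X : ℕ} {S : Finset ℕ} (h : S ∈ SR R X) :
    (∀ p ∈ S, p.Prime ∧ p % 4 = 1) ∧ ∏ p ∈ S, p ≤ X ∧ Disjoint S R := by
  unfold SR Pool.Agent.R413.SQ.SS at h
  rw [mem_filter, mem_filter] at h
  exact ⟨fun p hp => Pool.Agent.R413.SQ.pr1 (h.1.2.1 p hp), h.1.2.2, h.2⟩

theorem of_SR {R : Finset ℕ} {X : ℕ} {S : Finset ℕ} (h1 : ∀ p ∈ S, p.Prime ∧ p % 4 = 1)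
    (h2 : ∏ p ∈ S, p ≤ X) (h3 : Disjoint S R) : S ∈ SR R X := by
  unfold SR Pool.Agent.R413.SQ.SS
  rw [mem_filter, mem_filter, mem_powerset]
  refine ⟨⟨fun q hq => ?_, fun p hp => Pool.Agent.R413.SQ.of_pr1 ∅ (h1 p hp).1 (h1 p hp).2, h2⟩, h3⟩
  rw [Finset.mem_range]
  have h4 : q ∣ ∏ p ∈ S, p := Finset.dvd_prod_of_mem _ hq
  have h5 : 0 < ∏ p ∈ S, p := Finset.prod_pos fun p hp => (h1 p hp).1.pos
  have := Nat.le_of_dvd h5 h4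
  omega

end Pool.Agent.L0h2.K
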